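import Pool.Agent.Helper61.W.LT

set_option autoImplicit false

/-!
# Laplace transforms of smooth functions supported in a symmetric interval
-/

namespace Pool.Agent.Helper76.EW

open Complex Filter Topology Set MeasureTheory
open scoped ComplexConjugate ContDiff
open Pool.Agent.Helper61.W (TF LT LT_deriv LT_continuous)

/-- transforms of smooth functions supported in `[-r, r]` -/
def PW (r : ℝ) (F : ℂ → ℂ) : Prop :=
  ∃ g : ℝ → ℂ, TF g ∧ (∀ x, x ∉ Icc (-r) r → g x = 0) ∧ ∀ z, LT g z = F z

variable {r : ℝ} {F G : ℂ → ℂ}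

lemma PW.cont (h : PW r F) : Continuous F := by
  obtain ⟨g, hg, -, h2⟩ := h
  have := LT_continuous hg
  rwa [show LT g = F from funext h2] at this

lemma tf_of_supp {g : ℝ → ℂ} (hg : ContDiff ℝ ∞ g) (h : ∀ x, x ∉ Icc (-r) r → g x = 0) : TF g where
  smooth := hg
  supp := HasCompactSupport.intro isCompact_Icc h

lemma PW.add (h1 : PW r F) (h2 : PW r G) : PW r (fun z => F z + G z) := by
  obtain ⟨f, a1, a2, a3⟩ := h1
  obtain ⟨g, b1, b2, b3⟩ := h2
  have hs : ∀ x, x ∉ Icc (-r) r → (f + g) x = 0 := fun x hx => by
    rw [Pi.add_apply, a2 x hx, b2 x hx, add_zero]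
  refine ⟨f + g, tf_of_supp (a1.smooth.add b1.smooth) hs, hs, fun z => ?_⟩
  show _ = F z + G z
  rw [← a3, ← b3]
  unfold Helper61.W.LT
  rw [← integral_add (a1.integrable z) (b1.integrable z)]
  congr 1
  funext x
  rw [Pi.add_apply]
  ring

lemma PW.smul (c : ℂ) (h1 : PW r F) : PW r (fun z => c * F z) := by
  obtain ⟨f, a1, a2, a3⟩ := h1
  have hs : ∀ x, x ∉ Icc (-r) r → (fun x => c * f x) x = 0 := fun x hx => by
    show c * f x = 0
    rw [a2 x hx, mul_zero]
  refine ⟨fun x => c * f x, tf_of_supp (contDiff_const.mul a1.smooth) hs, hs, fun z => ?_⟩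
  show _ = c * F z
  rw [← a3]
  unfold Helper61.W.LT
  rw [← integral_const_mul]
  congr 1
  funext x
  ring

lemma PW.sum {κ : Type*} (s : Finset κ) (a : κ → ℂ) (f : κ → ℂ → ℂ) (h : ∀ k ∈ s, PW r (f k)) :
    PW r (fun z => ∑ k ∈ s, a k * f k z) := by
  classical
  induction s using Finset.induction_on with
  | empty =>
    refine ⟨fun _ => 0, tf_of_supp (r := r) contDiff_const fun _ _ => rfl, fun _ _ => rfl, fun z => ?_⟩
    simp [Helper61.W.LT]
  | insert k s hk ih =>
    have h1 := (PW.smul (a k) (h k (Finset.mem_insert_self k s))).add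
      (ih fun j hj => h j (Finset.mem_insert_of_mem hj))
    convert h1 using 1
    funext z
    rw [Finset.sum_insert hk]

/-- multiplication by a linear factor -/
lemma PW.mul_lin (c d : ℂ) (h : PW r F) : PW r (fun z => (c * z + d) * F z) := by
  obtain ⟨f, a1, a2, a3⟩ := h
  have hd : PW r (fun z => -z * F z) := by
    have hs : ∀ x, x ∉ Icc (-r) r → deriv f x = 0 := by
      intro x hx
      have hopen : IsOpen (Icc (-r) r)ᶜ := isClosed_Icc.isOpen_compl
      have : f =ᶠ[𝓝 x] fun _ => 0 := by
        filter_upwards [hopen.mem_nhds hx] with y hy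
        exact a2 y hy
      rw [this.deriv_eq, deriv_const]
    refine ⟨deriv f, a1.deriv, hs, fun z => ?_⟩
    rw [LT_deriv a1, a3]
  have h1 := (PW.smul (-c) hd).add (PW.smul d ⟨f, a1, a2, a3⟩)
  convert h1 using 1
  funext z
  ring

/-- division by a linear factor at a zero -/
lemma PW.div_lin {l : ℂ} (hr : 0 ≤ r) (h : PW r F) (hl : F l = 0) : ∃ G, PW r G ∧ ∀ z, (z - l) * G z = F z := by
  obtain ⟨f, a1, a2, a3⟩ := h
  set H : ℝ → ℂ := fun x => ∫ y in (-r)..x, f y * cexp (l * y) with hH
  have hc : Continuous fun y : ℝ => f y * cexp (l * y) := by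
    have := a1.cont
    fun_prop
  have hHd : ∀ x, HasDerivAt H (f x * cexp (l * x)) x := fun x =>
    intervalIntegral.integral_hasDerivAt_right (hc.intervalIntegrable _ _)
      hc.stronglyMeasurable.stronglyMeasurableAtFilter hc.continuousAt
  have hHs : ContDiff ℝ ∞ H := by
    rw [contDiff_infty_iff_deriv]
    refine ⟨fun x => (hHd x).differentiableAt, ?_⟩
    rw [show deriv H = fun x : ℝ => f x * cexp (l * x) from funext fun x => (hHd x).deriv]
    refine a1.smooth.mul ?_
    exact (contDiff_const.mul Complex.ofRealCLM.contDiff).cexp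
  have hleft : ∀ x, x < -r → H x = 0 := by
    intro x hx
    rw [hH]
    simp only
    rw [intervalIntegral.integral_of_ge hx.le, neg_eq_zero]
    refine setIntegral_eq_zero_of_forall_eq_zero fun y hy => ?_
    by_cases hy2 : y = -r
    · -- by continuity the function vanishes at the end point
      have : f (-r) = 0 := by
        have hcl : IsClosed {y | f y = 0} := isClosed_eq a1.cont continuous_const
        have hsub : Iio (-r) ⊆ {y | f y = 0} := fun y hy => a2 y fun hy' => by
          have := hy'.1
          rw [mem_Iio] at hy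
          linarith
        have := closure_minimal hsub hcl
        rw [closure_Iio] at this
        exact this (mem_Iic.mpr le_rfl)
      rw [hy2, this, zero_mul]
    · rw [a2 y fun hy' => hy2 (le_antisymm hy.2 hy'.1), zero_mul]
  have hfull : ∫ y : ℝ, f y * cexp (l * y) = 0 := by
    have := a3 l
    rw [hl] at this
    exact this
  have hright : ∀ x, r < x → H x = 0 := by
    intro x hx
    rw [hH]
    simp only
    rw [← hfull, intervalIntegral.integral_of_le (by linarith)]
    apply setIntegral_eq_integral_of_forall_compl_eq_zero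
    intro y hy
    have : f y = 0 := by
      by_cases hy2 : y = -r
      · have hcl : IsClosed {y | f y = 0} := isClosed_eq a1.cont continuous_const
        have hsub : Iio (-r) ⊆ {y | f y = 0} := fun y hy => a2 y fun hy' => by
          have := hy'.1
          rw [mem_Iio] at hy
          linarith
        have := closure_minimal hsub hcl
        rw [closure_Iio] at this
        rw [hy2]
        exact this (mem_Iic.mpr le_rfl)
      · refine a2 y fun hy' => hy ⟨lt_of_le_of_ne hy'.1 (Ne.symm hy2), ?_⟩
        linarith [hy'.2]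
    rw [this, zero_mul]
  set g : ℝ → ℂ := fun x => -(cexp (-l * x) * H x) with hg
  have hgs : ContDiff ℝ ∞ g :=
    ((contDiff_const.mul Complex.ofRealCLM.contDiff).cexp.mul hHs).neg
  have hgsup : ∀ x, x ∉ Icc (-r) r → g x = 0 := by
    intro x hx
    have : H x = 0 := by
      rcases lt_or_ge x (-r) with h1 | h1
      · exact hleft x h1
      · apply hright x
        by_contra h2
        exact hx ⟨h1, not_lt.mp h2⟩
    rw [hg]
    simp only
    rw [this, mul_zero, neg_zero]
  have hgt := tf_of_supp hgs hgsup
  refine ⟨LT g, ⟨g, hgt, hgsup, fun _ => rfl⟩, fun z => ?_⟩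
  have hd : ∀ x, deriv g x = -l * g x - f x := by
    intro x
    have h1 : HasDerivAt (fun x : ℝ => cexp (-l * x)) (-l * cexp (-l * x)) x :=
      Pool.Agent.Helper61.W.hasDerivAt_exp (-l) x
    have h2 := ((h1.mul (hHd x)).neg).deriv
    have h3 : deriv g x = -(-l * cexp (-l * x) * H x + cexp (-l * x) * (f x * cexp (l * x))) := h2
    rw [h3, hg]
    simp only
    have h4 : cexp (-l * x) * cexp (l * x) = 1 := by
      rw [← Complex.exp_add, neg_mul, neg_add_cancel, Complex.exp_zero]
    linear_combination (-(f x)) * h4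
  have h1 := LT_deriv hgt z
  have h2 : LT (deriv g) z = -l * LT g z - LT f z := by
    unfold Helper61.W.LT
    rw [← integral_const_mul, ← integral_sub ((hgt.integrable z).const_mul _) (a1.integrable z)]
    congr 1
    funext x
    rw [hd x]
    ring
  rw [← a3]
  linear_combination h1 - h2

/-- division by a product of linear factors at distinct zeros -/
lemma PW.div_prod (hr : 0 ≤ r) {κ : Type*} (K : Finset κ) (l : κ → ℂ) (hinj : Set.InjOn l K) (h : PW r F)
    (hz : ∀ k ∈ K, F (l k) = 0) : ∃ G, PW r G ∧ ∀ z, (∏ k ∈ K, (z - l k)) * G z = F z := by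
  classical
  induction K using Finset.induction_on with
  | empty => exact ⟨F, h, fun z => by simp⟩
  | insert k K hk ih =>
    obtain ⟨G, hG1, hG2⟩ := ih (hinj.mono (by simp)) fun j hj => hz j (Finset.mem_insert_of_mem hj)
    have h0 : G (l k) = 0 := by
      have h1 := hG2 (l k)
      rw [hz k (Finset.mem_insert_self k K)] at h1
      refine (mul_eq_zero.mp h1).resolve_left ?_
      refine Finset.prod_ne_zero_iff.mpr ?_
      intro j hj h2
      have h3 := hinj (Finset.mem_coe.mpr (Finset.mem_insert_self k K))
        (Finset.mem_coe.mpr (Finset.mem_insert_of_mem hj)) (sub_eq_zero.mp h2)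
      rw [h3] at hk
      exact hk hj
    obtain ⟨G', h1, h2⟩ := hG1.div_lin hr h0
    refine ⟨G', h1, fun z => ?_⟩
    rw [Finset.prod_insert hk, ← hG2, ← h2]
    ring

/-- multiplication by a product of linear factors -/
lemma PW.mul_prod {κ : Type*} (S : Finset κ) (l : κ → ℂ) (h : PW r F) :
    PW r (fun z => (∏ k ∈ S, (z - l k)) * F z) := by
  classical
  induction S using Finset.induction_on with
  | empty => simpa using h
  | insert k S hk ih =>
    have := ih.mul_lin 1 (-(l k))
    convert this using 1
    funext z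
    rw [Finset.prod_insert hk]
    ring

end Pool.Agent.Helper76.EW
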