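import Pool.Agent.Helper76.EW.Lat

set_option autoImplicit false

/-!
# Matching points with zeros of a hyperbolic cosine
-/

namespace Pool.Agent.Helper76.EW

open Complex Filter Topology

variable {a y : ℝ} {ι : Type*}

lemma exists_inj_of_card_le {α β : Type*} [DecidableEq α] (S : Finset α) (L : Finset β) (hne : Nonempty β)
    (h : S.card ≤ L.card) : ∃ f : α → β, Set.InjOn f S ∧ ∀ i ∈ S, f i ∈ L := by
  classical
  obtain ⟨e⟩ : Nonempty (S ↪ L) := by
    apply Function.Embedding.nonempty_of_card_le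
    simpa using h
  refine ⟨fun i => if hi : i ∈ S then (e ⟨i, hi⟩ : β) else hne.some, ?_, ?_⟩
  · intro i hi j hj hij
    simp only [Finset.mem_coe] at hi hj
    simp only [hi, hj, dif_pos] at hij
    have := e.injective (Subtype.ext hij)
    exact congrArg Subtype.val this
  · intro i hi
    simp only [hi, dif_pos]
    exact (e ⟨i, hi⟩).2

/-- the number of zeros in a window -/
lemma window_card (ha : 0 < a) {t h : ℝ} : ∃ L : Finset ℤ, (∀ k, k ∈ L ↔ t ≤ el a y k ∧ el a y k < t + h) ∧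
    h * a / Real.pi - 1 ≤ (L.card : ℝ) := by
  have hpa : 0 < Real.pi / a := by positivity
  have hap : 0 < a / Real.pi := by positivity
  set A : ℝ := (t - y) * (a / Real.pi) - 1 / 2 with hA
  set B : ℝ := (t + h - y) * (a / Real.pi) - 1 / 2 with hB
  have e1 : ∀ k : ℤ, t ≤ el a y k ↔ A ≤ k := by
    intro k
    unfold el
    rw [hA]
    constructor
    · intro h1
      have h2 : (t - y) * (a / Real.pi) ≤ ((k + 1 / 2) * (Real.pi / a)) * (a / Real.pi) := by
        gcongr
        linarith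
      have h3 : ((k : ℝ) + 1 / 2) * (Real.pi / a) * (a / Real.pi) = k + 1 / 2 := by
        field_simp
      linarith
    · intro h1
      have h2 : (t - y) * (a / Real.pi) * (Real.pi / a) ≤ (k + 1 / 2) * (Real.pi / a) := by
        gcongr
        linarith
      have h3 : (t - y) * (a / Real.pi) * (Real.pi / a) = t - y := by
        field_simp
      linarith
  have e2 : ∀ k : ℤ, el a y k < t + h ↔ (k : ℝ) < B := by
    intro k
    unfold el
    rw [hB]
    constructor
    · intro h1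
      have h2 : ((k + 1 / 2) * (Real.pi / a)) * (a / Real.pi) < (t + h - y) * (a / Real.pi) := by
        gcongr
        linarith
      have h3 : ((k : ℝ) + 1 / 2) * (Real.pi / a) * (a / Real.pi) = k + 1 / 2 := by
        field_simp
      linarith
    · intro h1
      have h2 : (k + 1 / 2) * (Real.pi / a) < (t + h - y) * (a / Real.pi) * (Real.pi / a) := by
        gcongr
        linarith
      have h3 : (t + h - y) * (a / Real.pi) * (Real.pi / a) = t + h - y := by
        field_simp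
      linarith
  refine ⟨Finset.Ico ⌈A⌉ ⌈B⌉, fun k => ?_, ?_⟩
  · rw [Finset.mem_Ico, e1, e2, Int.ceil_le, Int.lt_ceil]
  · rw [Int.card_Ico]
    have h1 : ((⌈B⌉ - ⌈A⌉ : ℤ) : ℝ) ≤ ((⌈B⌉ - ⌈A⌉).toNat : ℝ) := by
      have := Int.self_le_toNat (⌈B⌉ - ⌈A⌉)
      exact_mod_cast this
    refine le_trans ?_ h1
    push_cast
    have h2 := Int.le_ceil B
    have h3 := Int.ceil_lt_add_one A
    have h4 : B - A = h * a / Real.pi := by
      rw [hA, hB]
      ring
    linarith

/-- the matching -/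
lemma matching (ha : 0 < a) {h : ℝ} (hh : 0 < h) (S : Finset ι) (im : ι → ℝ)
    (hcount : ∀ j : ℤ, ∀ S' : Finset ι, S' ⊆ S → (∀ i ∈ S', j * h ≤ im i ∧ im i ≤ j * h + h) →
      (S'.card : ℝ) ≤ h * a / Real.pi - 1) :
    ∃ κ : ι → ℤ, Set.InjOn κ S ∧ ∀ i ∈ S, |im i - el a y (κ i)| ≤ h := by
  classical
  choose L hL1 hL2 using fun j : ℤ => window_card (a := a) (y := y) ha (t := j * h) (h := h)
  have hfl : ∀ x : ℝ, (⌊x / h⌋ : ℝ) * h ≤ x ∧ x < (⌊x / h⌋ : ℝ) * h + h := by
    intro x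
    have h1 := Int.floor_le (x / h)
    have h2 := Int.lt_floor_add_one (x / h)
    rw [le_div_iff₀ hh] at h1
    rw [div_lt_iff₀ hh] at h2
    exact ⟨h1, by linarith⟩
  have hcard : ∀ j : ℤ, (S.filter fun i => ⌊im i / h⌋ = j).card ≤ (L j).card := by
    intro j
    have h1 := hcount j (S.filter fun i => ⌊im i / h⌋ = j) (Finset.filter_subset _ _) fun i hi => by
      rw [Finset.mem_filter] at hi
      have := hfl (im i)
      rw [hi.2] at this
      exact ⟨this.1, this.2.le⟩
    have h2 := h1.trans (hL2 j)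
    exact_mod_cast h2
  choose f hf1 hf2 using fun j : ℤ => exists_inj_of_card_le (S.filter fun i => ⌊im i / h⌋ = j) (L j)
    ⟨(0 : ℤ)⟩ (hcard j)
  have hmem : ∀ i ∈ S, f ⌊im i / h⌋ i ∈ L ⌊im i / h⌋ := fun i hi =>
    hf2 _ i (Finset.mem_filter.mpr ⟨hi, rfl⟩)
  refine ⟨fun i => f ⌊im i / h⌋ i, ?_, ?_⟩
  · intro i hi i' hi' heq
    have h1 := (hL1 _ _).mp (hmem i hi)
    have h2 := (hL1 _ _).mp (hmem i' hi')
    simp only at heq
    rw [heq] at h1
    have h3 : ⌊im i / h⌋ = ⌊im i' / h⌋ := by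
      have a1 : (⌊im i / h⌋ : ℝ) * h < ((⌊im i' / h⌋ : ℝ) + 1) * h := by linarith [h1.1, h2.2]
      have a2 : (⌊im i' / h⌋ : ℝ) * h < ((⌊im i / h⌋ : ℝ) + 1) * h := by linarith [h2.1, h1.2]
      have b1 := lt_of_mul_lt_mul_right a1 hh.le
      have b2 := lt_of_mul_lt_mul_right a2 hh.le
      have c1 : ⌊im i / h⌋ < ⌊im i' / h⌋ + 1 := by exact_mod_cast b1
      have c2 : ⌊im i' / h⌋ < ⌊im i / h⌋ + 1 := by exact_mod_cast b2
      omega
    rw [h3] at heq
    exact hf1 ⌊im i' / h⌋ (Finset.mem_coe.mpr (Finset.mem_filter.mpr ⟨hi, h3⟩))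
      (Finset.mem_coe.mpr (Finset.mem_filter.mpr ⟨hi', rfl⟩)) heq
  · intro i hi
    have h1 := (hL1 _ _).mp (hmem i hi)
    have h2 := hfl (im i)
    rw [abs_le]
    constructor <;> linarith [h1.1, h1.2, h2.1, h2.2]

end Pool.Agent.Helper76.EW
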