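import Pool.Agent.Helper76.EW.PW
import Pool.Agent.Helper76.EW.Match

set_option autoImplicit false

/-!
# The basic test function
-/

namespace Pool.Agent.Helper76.EW

open Complex Filter Topology Set MeasureTheory
open scoped ComplexConjugate ContDiff
open Pool.Agent.Helper61.W (TF)

/-- the Laplace transform -/
noncomputable abbrev LTr (g : ℝ → ℂ) (z : ℂ) : ℂ := Pool.Agent.Helper61.W.LT g z

/-- a smooth bump -/
noncomputable def bmp : ContDiffBump (0 : ℝ) := ⟨1 / 8, 1 / 4, by norm_num, by norm_num⟩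

/-- the normalised bump -/
noncomputable def eta (x : ℝ) : ℝ := bmp.normed volume x

lemma eta_nonneg (x : ℝ) : 0 ≤ eta x := bmp.nonneg_normed x

lemma eta_smooth : ContDiff ℝ ∞ eta := bmp.contDiff_normed

lemma eta_int : ∫ x, eta x = 1 := bmp.integral_normed

lemma eta_supp {x : ℝ} (hx : 1 / 4 ≤ |x|) : eta x = 0 := by
  by_contra h
  have h1 : x ∈ Function.support (bmp.normed volume) := h
  rw [bmp.support_normed_eq, Metric.mem_ball, dist_zero_right, Real.norm_eq_abs] at h1
  have : bmp.rOut = 1 / 4 := rfl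
  rw [this] at h1
  linarith

lemma eta_integrable : Integrable eta := bmp.integrable_normed

/-- complex version -/
noncomputable def etc (x : ℝ) : ℂ := (eta x : ℂ)

lemma etc_supp : ∀ x, x ∉ Icc (-(1 / 4) : ℝ) (1 / 4) → etc x = 0 := by
  intro x hx
  unfold etc
  rw [eta_supp, Complex.ofReal_zero]
  by_contra h
  push Not at h
  exact hx ⟨(abs_lt.mp h).1.le, (abs_lt.mp h).2.le⟩

lemma etc_tf : TF etc := tf_of_supp (Complex.ofRealCLM.contDiff.comp eta_smooth) etc_supp

/-- the transform of the bump -/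
noncomputable def EE (z : ℂ) : ℂ := LTr etc z

lemma EE_sub {z w : ℂ} (hzw : ‖z - w‖ ≤ 4) :
    ‖EE z - EE w‖ ≤ Real.exp (|w.re| / 4) / 2 * ‖z - w‖ := by
  unfold EE LTr Pool.Agent.Helper61.W.LT
  rw [← integral_sub (etc_tf.integrable z) (etc_tf.integrable w)]
  have hb : ∀ x : ℝ, ‖etc x * cexp (z * x) - etc x * cexp (w * x)‖ ≤
      Real.exp (|w.re| / 4) / 2 * ‖z - w‖ * eta x := by
    intro x
    by_cases hx : 1 / 4 ≤ |x|
    · unfold etc
      rw [eta_supp hx]
      simp
    · push Not at hx
      have e1 : etc x * cexp (z * x) - etc x * cexp (w * x) =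
          etc x * (cexp (w * x) * (cexp ((z - w) * x) - 1)) := by
        have : cexp (z * x) = cexp (w * x) * cexp ((z - w) * x) := by
          rw [← Complex.exp_add]
          congr 1
          ring
        rw [this]
        ring
      rw [e1, norm_mul, norm_mul]
      have h1 : ‖etc x‖ = eta x := by
        unfold etc
        rw [Complex.norm_real, Real.norm_of_nonneg (eta_nonneg x)]
      have h2 : ‖cexp (w * x)‖ ≤ Real.exp (|w.re| / 4) := by
        rw [Complex.norm_exp]
        apply Real.exp_le_exp.mpr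
        have : (w * x).re = w.re * x := by simp
        rw [this]
        calc w.re * x ≤ |w.re * x| := le_abs_self _
          _ = |w.re| * |x| := abs_mul _ _
          _ ≤ |w.re| * (1 / 4) := by gcongr
          _ = _ := by ring
      have h3 : ‖cexp ((z - w) * x) - 1‖ ≤ ‖z - w‖ / 2 := by
        have h4 : ‖(z - w) * x‖ ≤ ‖z - w‖ * (1 / 4) := by
          rw [norm_mul, Complex.norm_real, Real.norm_eq_abs]
          gcongr
        refine (Complex.norm_exp_sub_one_le (h4.trans (by linarith))).trans ?_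
        linarith
      rw [h1]
      calc eta x * (‖cexp (w * x)‖ * ‖cexp ((z - w) * x) - 1‖) ≤
          eta x * (Real.exp (|w.re| / 4) * (‖z - w‖ / 2)) := by
            have := eta_nonneg x
            gcongr
        _ = _ := by ring
  refine (norm_integral_le_of_norm_le (eta_integrable.const_mul _) (Eventually.of_forall hb)).trans ?_
  rw [integral_const_mul, eta_int, mul_one]

lemma EE_zero : EE 0 = 1 := by
  unfold EE LTr Pool.Agent.Helper61.W.LT etc
  simp only [zero_mul, Complex.exp_zero, mul_one]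
  rw [integral_complex_ofReal, eta_int, Complex.ofReal_one]

lemma EE_near_one {z : ℂ} (hz : ‖z‖ ≤ 4) : ‖EE z - 1‖ ≤ ‖z‖ / 2 := by
  have h := EE_sub (z := z) (w := 0) (by simpa using hz)
  rw [EE_zero, sub_zero, Complex.zero_re, abs_zero, zero_div, Real.exp_zero] at h
  linarith

lemma exp_quarter_le : Real.exp (1 / 4) ≤ 2 := by
  have h4 : Real.exp (1 / 4) ^ (4 : ℕ) = Real.exp 1 := by
    rw [← Real.exp_nat_mul]
    norm_num
  by_contra hc
  push Not at hc
  have h5 : (2 : ℝ) ^ 4 < Real.exp (1 / 4) ^ 4 := by gcongr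
  have := Real.exp_one_lt_d9
  rw [h4] at h5
  linarith

lemma EE_le {z : ℂ} (hz : |z.re| ≤ 1) : ‖EE z‖ ≤ 2 := by
  unfold EE LTr Pool.Agent.Helper61.W.LT
  have hb : ∀ x : ℝ, ‖etc x * cexp (z * x)‖ ≤ 2 * eta x := by
    intro x
    by_cases hx : 1 / 4 ≤ |x|
    · unfold etc
      rw [eta_supp hx]
      simp
    · push Not at hx
      rw [norm_mul]
      have h1 : ‖etc x‖ = eta x := by
        unfold etc
        rw [Complex.norm_real, Real.norm_of_nonneg (eta_nonneg x)]
      have h2 : ‖cexp (z * x)‖ ≤ 2 := by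
        rw [Complex.norm_exp]
        refine le_trans ?_ exp_quarter_le
        apply Real.exp_le_exp.mpr
        have : (z * x).re = z.re * x := by simp
        rw [this]
        calc z.re * x ≤ |z.re * x| := le_abs_self _
          _ = |z.re| * |x| := abs_mul _ _
          _ ≤ 1 * (1 / 4) := by gcongr
          _ = _ := by ring
      rw [h1, mul_comm]
      have := eta_nonneg x
      gcongr
  refine (norm_integral_le_of_norm_le (eta_integrable.const_mul _) (Eventually.of_forall hb)).trans ?_
  rw [integral_const_mul, eta_int, mul_one]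

lemma PW_EE : PW (1 / 4) EE := ⟨etc, etc_tf, etc_supp, fun _ => rfl⟩

lemma PW.scale {r T : ℝ} {F : ℂ → ℂ} (hT : 0 < T) (h : PW r F) : PW (r / T) (fun z => F (z / T)) := by
  obtain ⟨f, a1, a2, a3⟩ := h
  have hs : ∀ x, x ∉ Icc (-(r / T)) (r / T) → (fun x : ℝ => (T : ℂ) * f (T * x)) x = 0 := by
    intro x hx
    show (T : ℂ) * f (T * x) = 0
    rw [a2 (T * x), mul_zero]
    intro h1
    apply hx
    constructor
    · rw [← neg_div, div_le_iff₀ hT, mul_comm]
      exact h1.1
    · rw [le_div_iff₀ hT, mul_comm]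
      exact h1.2
  have hsm : ContDiff ℝ ∞ (fun x : ℝ => (T : ℂ) * f (T * x)) :=
    contDiff_const.mul (a1.smooth.comp (contDiff_const.mul contDiff_id))
  refine ⟨_, tf_of_supp hsm hs, hs, fun z => ?_⟩
  show _ = F (z / T)
  rw [← a3]
  unfold Pool.Agent.Helper61.W.LT
  have h1 := MeasureTheory.Measure.integral_comp_mul_left (fun x : ℝ => f x * cexp (z / T * x)) T
  rw [abs_inv, abs_of_pos hT] at h1
  have hTc : (T : ℂ) ≠ 0 := by exact_mod_cast hT.ne'
  have h2 : ∀ x : ℝ, (T : ℂ) * f (T * x) * cexp (z * x) = (T : ℂ) * (f (T * x) * cexp (z / T * ((T * x : ℝ) : ℂ))) := by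
    intro x
    rw [mul_assoc]
    congr 3
    push_cast
    field_simp
  simp only [h2]
  rw [integral_const_mul, h1, Complex.real_smul]
  push_cast
  field_simp

lemma PW.shift {r b R : ℝ} {F : ℂ → ℂ} (h : PW r F) (h1 : -R ≤ b - r) (h2 : b + r ≤ R) :
    PW R (fun z => cexp (b * z) * F z) := by
  obtain ⟨f, a1, a2, a3⟩ := h
  have hs : ∀ x, x ∉ Icc (-R) R → (fun x : ℝ => f (x - b)) x = 0 := by
    intro x hx
    apply a2
    intro h3
    apply hx
    constructor <;> linarith [h3.1, h3.2]
  have hsm : ContDiff ℝ ∞ (fun x : ℝ => f (x - b)) := a1.smooth.comp (contDiff_id.sub contDiff_const)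
  refine ⟨_, tf_of_supp hsm hs, hs, fun z => ?_⟩
  show _ = cexp (b * z) * F z
  rw [← a3]
  unfold Pool.Agent.Helper61.W.LT
  rw [← integral_add_right_eq_self _ b, ← integral_const_mul]
  congr 1
  funext x
  show f (x + b - b) * _ = _
  rw [add_sub_cancel_right]
  have : cexp (z * ((x + b : ℝ) : ℂ)) = cexp (b * z) * cexp (z * x) := by
    rw [← Complex.exp_add]
    congr 1
    push_cast
    ring
  rw [this]
  ring

/-- the basic test function -/
lemma PW_base {a T : ℝ} (ha : 0 ≤ a) (hT : 0 < T) (y : ℝ) :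
    PW (a + 1 / 4 / T) (fun z => cc a y z * EE (z / T)) := by
  have h0 := PW_EE.scale hT
  have hpos : 0 < 1 / 4 / T := by positivity
  have h1 := (h0.shift (b := a) (R := a + 1 / 4 / T) (by linarith) le_rfl).smul (cexp (-(a * y * I)) / 2)
  have h2 := (h0.shift (b := -a) (R := a + 1 / 4 / T) (by linarith) (by linarith)).smul (cexp (a * y * I) / 2)
  have h3 := h1.add h2
  convert h3 using 1
  funext z
  unfold cc Complex.cosh
  have e1 : cexp (a * (z - y * I)) = cexp (-(a * y * I)) * cexp (a * z) := by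
    rw [← Complex.exp_add]
    congr 1
    ring
  have e2 : cexp (-(a * (z - y * I))) = cexp (a * y * I) * cexp (((-a : ℝ) : ℂ) * z) := by
    rw [← Complex.exp_add]
    congr 1
    push_cast
    ring
  rw [e1, e2]
  ring

end Pool.Agent.Helper76.EW
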