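import Pool.Agent.Helper76.EW.UDz
import Pool.Agent.Helper61.W.Corr

set_option autoImplicit false

/-!
# The lower part of the effective Weil criterion for zeta
-/

namespace Pool.Agent.Helper76.EW

open Complex Filter Topology Set MeasureTheory
open scoped ComplexConjugate ContDiff
open Pool.Agent.V11271.LI
open Pool.Agent.Helper76.LW
open Pool.Agent.Helper61.W (TF LT corr tm LT_corr summable_tm)

lemma TF_sum {κ : Type*} (s : Finset κ) {g : κ → ℝ → ℂ} {r : ℝ} (a : κ → ℂ) (h : ∀ k ∈ s, TF (g k))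
    (h0 : ∀ k ∈ s, ∀ x, x ∉ Icc (-r) r → g k x = 0) :
    TF (fun x => ∑ k ∈ s, a k * g k x) ∧ (∀ x, x ∉ Icc (-r) r → ∑ k ∈ s, a k * g k x = 0) := by
  have h1 : ∀ x, x ∉ Icc (-r) r → ∑ k ∈ s, a k * g k x = 0 := fun x hx =>
    Finset.sum_eq_zero fun k hk => by rw [h0 k hk x hx, mul_zero]
  refine ⟨tf_of_supp (r := r) ?_ h1, h1⟩
  exact ContDiff.sum fun k hk => contDiff_const.mul (h k hk).smooth

lemma LT_sum {κ : Type*} (s : Finset κ) {g : κ → ℝ → ℂ} (a : κ → ℂ) (h : ∀ k ∈ s, TF (g k)) (z : ℂ) :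
    LT (fun x => ∑ k ∈ s, a k * g k x) z = ∑ k ∈ s, a k * LT (g k) z := by
  unfold Helper61.W.LT
  simp_rw [Finset.sum_mul]
  rw [integral_finsetSum]
  · apply Finset.sum_congr rfl
    intro k _
    rw [← integral_const_mul]
    congr 1
    funext x
    ring
  · intro k hk
    have := ((h k hk).integrable z).const_mul (a k)
    refine this.congr (Eventually.of_forall fun x => ?_)
    show a k * (g k x * _) = a k * g k x * _
    ring

/-- the real part of Weil's sum -/
lemma re_weil {g : ℝ → ℂ} (hg : TF g) {F : ℂ → ℂ} (hF : ∀ z, LT g z = F z) :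
    (∑' ρ : Zr, tm (corr g) ρ).re = ∑' ρ : Zr, mm ρ * (FF F (zz ρ)).re := by
  rw [Complex.re_tsum (summable_tm hg.corr)]
  congr 1
  funext ρ
  unfold Helper61.W.tm
  rw [LT_corr hg, hF, hF]
  rw [Complex.re_ofReal_mul]
  rfl

/-- Lower part: separated zeros off the line up to height `c X` give a space of test functions
on which Weil's form is negative definite. -/
theorem partA : ∃ c X0 : ℝ, 0 < c ∧ 3 ≤ X0 ∧ ∀ X : ℝ, X0 ≤ X → ∀ S : Finset Zr,
    (∀ ρ ∈ S, |(ρ : ℂ).im| ≤ c * X ∧ 1 / 2 + Real.exp (-(c * X / Real.log X)) ≤ (ρ : ℂ).re) →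
    (∀ ρ ∈ S, ∀ ρ' ∈ S, ρ ≠ ρ' → Real.exp (-(c * X / Real.log X)) ≤ ‖(ρ : ℂ) - ρ'‖) →
    ∃ g : Zr → ℝ → ℂ, (∀ ρ ∈ S, TF (g ρ) ∧ ∀ x, x ∉ Icc (-(Real.log X / 2)) (Real.log X / 2) → g ρ x = 0) ∧
      ∀ a : Zr → ℂ, (∃ ρ ∈ S, a ρ ≠ 0) →
        (∑' ρ : Zr, tm (corr (fun x => ∑ q ∈ S, a q * g q x)) ρ).re < 0 := by
  obtain ⟨C2, c, T0, hC2, hc, hT0, h⟩ := core_weil cf_zeta ud_zeta
  obtain ⟨κ, hκ⟩ : ∃ κ, κ = Real.exp (-C2) := ⟨_, rfl⟩
  have hκ0 : 0 < κ := by rw [hκ]; exact Real.exp_pos _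
  have hκ1 : κ ≤ 1 := by rw [hκ, Real.exp_le_one_iff]; linarith
  have hlogκ : Real.log κ = -C2 := by rw [hκ, Real.log_exp]
  have hlim : ∀ᶠ X : ℝ in atTop, 4 * Real.log 4 / (c * κ) * Real.log (17 * X) ^ 1 ≤ X :=
    log_small _ 1
  obtain ⟨X1, hX1⟩ := eventually_atTop.mp hlim
  refine ⟨min κ (c * κ / 4), max (max (T0 / κ) 17) X1, by positivity,
    le_trans (by norm_num) ((le_max_right _ _).trans (le_max_left _ _)), fun X hX S hS hsep => ?_⟩
  have hXT : T0 / κ ≤ X := ((le_max_left _ _).trans (le_max_left _ _)).trans hX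
  have hX17 : 17 ≤ X := ((le_max_right _ _).trans (le_max_left _ _)).trans hX
  have hX2 := hX1 X ((le_max_right _ _).trans hX)
  rw [pow_one] at hX2
  have hlog : 0 < Real.log X := Real.log_pos (by linarith)
  have hl17 : Real.log X ≤ Real.log (17 * X) := Real.log_le_log (by linarith) (by linarith)
  have hlκ : Real.log (17 * (κ * X)) ≤ 2 * Real.log X := by
    have : Real.log (17 * (κ * X)) ≤ Real.log (X * X) := by
      apply Real.log_le_log (by positivity)
      calc 17 * (κ * X) ≤ X * (1 * X) := by gcongr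
        _ = X * X := by ring
    rw [Real.log_mul (x := X) (by linarith) (by linarith)] at this
    linarith
  have hTT : T0 ≤ κ * X := by
    rw [div_le_iff₀ hκ0] at hXT
    linarith
  have hlT : 0 < Real.log (17 * (κ * X)) := Real.log_pos (by linarith)
  -- the exponent
  have hexp : 4 * Real.exp (-(c * (κ * X) / Real.log (17 * (κ * X)))) ≤
      Real.exp (-(min κ (c * κ / 4) * X / Real.log X)) := by
    have e1 : Real.log 4 ≤ c * κ * X / (4 * Real.log X) := by
      rw [le_div_iff₀ (by positivity)]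
      have e2 : 4 * Real.log 4 / (c * κ) * Real.log X ≤ X := by
        refine le_trans ?_ hX2
        have : 0 ≤ Real.log 4 := Real.log_nonneg (by norm_num)
        gcongr
      have e3 : c * κ * (4 * Real.log 4 / (c * κ) * Real.log X) = Real.log 4 * (4 * Real.log X) := by
        field_simp
      rw [← e3]
      gcongr
    have e4 : min κ (c * κ / 4) * X / Real.log X ≤ c * κ * X / (4 * Real.log X) := by
      have : c * κ * X / (4 * Real.log X) = c * κ / 4 * X / Real.log X := by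
        field_simp
      rw [this]
      gcongr
      exact min_le_right _ _
    have e5 : c * κ * X / (2 * Real.log X) ≤ c * (κ * X) / Real.log (17 * (κ * X)) := by
      rw [← mul_assoc]
      gcongr
    have e6 : c * κ * X / (2 * Real.log X) = c * κ * X / (4 * Real.log X) + c * κ * X / (4 * Real.log X) := by
      field_simp
      ring
    have e7 : (4 : ℝ) = Real.exp (Real.log 4) := (Real.exp_log (by norm_num)).symm
    rw [e7, ← Real.exp_add, Real.exp_le_exp]
    rw [← e7]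
    linarith
  obtain ⟨R, hR1, hR2⟩ := h (κ * X) hTT S (by
    intro ρ hρ
    obtain ⟨h1, h2⟩ := hS ρ hρ
    rw [zz_im, zz_re]
    refine ⟨h1.trans ?_, ?_⟩
    · gcongr
      exact min_le_left _ _
    · linarith) (by
    intro ρ hρ ρ' hρ' hne
    refine hexp.trans ((hsep ρ hρ ρ' hρ' hne).trans (le_of_eq ?_))
    congr 1
    unfold zz
    ring)
  have hr : (Real.log (κ * X) + C2) / 2 = Real.log X / 2 := by
    rw [Real.log_mul hκ0.ne' (by linarith), hlogκ]
    ring
  rw [hr] at hR1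
  choose! g hg using hR1
  refine ⟨g, fun ρ hρ => ⟨(hg ρ hρ).1, (hg ρ hρ).2.1⟩, fun a ha => ?_⟩
  obtain ⟨k1, k2⟩ := TF_sum S (g := g) (r := Real.log X / 2) a (fun ρ hρ => (hg ρ hρ).1) (fun ρ hρ => (hg ρ hρ).2.1)
  have k3 : ∀ z, LT (fun x => ∑ q ∈ S, a q * g q x) z = ∑ q ∈ S, a q * R q z := by
    intro z
    rw [LT_sum S a (fun ρ hρ => (hg ρ hρ).1)]
    exact Finset.sum_congr rfl fun q hq => by rw [(hg q hq).2.2 z]
  rw [re_weil k1 k3]
  exact (hR2 a ha).2

end Pool.Agent.Helper76.EW
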