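import Pool.Agent.Helper76.EW.Points

set_option autoImplicit false

/-!
# The test function near the point
-/

namespace Pool.Agent.Helper76.EW

open Complex Filter Topology Set MeasureTheory
open scoped ComplexConjugate ContDiff
open Pool.Agent.Helper76.LW

variable {a y : ℝ} {F : ℂ → ℂ} {ι : Type*} {u : ι → ℂ} {m : ι → ℝ}

lemma near_cc (ha : 0 < a) {q w : ℂ} (hq : q.im = y) {e : ℝ} (he : ‖w - q‖ ≤ e) (hae : a * e ≤ 1) :
    Near (cc a y w / cc a y q) (4 * (a * e)) := by
  apply Near.of_le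
  set x : ℝ := a * q.re with hx
  have hcq : cc a y q = Complex.cosh (x : ℂ) := by
    rw [cc_real hq, Complex.ofReal_cosh]
  have hcw : cc a y w = Complex.cosh ((x : ℂ) + a * (w - q)) := by
    unfold cc
    congr 1
    have : (x : ℂ) = a * (q - y * I) := by
      apply Complex.ext
      · simp [hx]
      · simp [hq]
    rw [this]
    ring
  have hpos : 0 < Real.cosh x := Real.cosh_pos x
  have hne : Complex.cosh (x : ℂ) ≠ 0 := by
    rw [← Complex.ofReal_cosh]
    exact_mod_cast hpos.ne'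
  have hB : ‖(a : ℂ) * (w - q)‖ ≤ a * e := by
    rw [norm_mul, Complex.norm_real, Real.norm_of_nonneg ha.le]
    gcongr
  rw [hcw, hcq, Complex.cosh_add]
  have e1 : (Complex.cosh x * Complex.cosh (a * (w - q)) + Complex.sinh x * Complex.sinh (a * (w - q))) /
      Complex.cosh x - 1 = (Complex.cosh (a * (w - q)) - 1) +
        (Complex.sinh x / Complex.cosh x) * Complex.sinh (a * (w - q)) := by
    field_simp
    ring
  rw [e1]
  have h1 := norm_cosh_sub_one_small (hB.trans hae)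
  have h2 := norm_sinh_small (hB.trans hae)
  have h3 : ‖Complex.sinh (x : ℂ) / Complex.cosh x‖ ≤ 1 := by
    rw [← Complex.ofReal_cosh, ← Complex.ofReal_sinh, ← Complex.ofReal_div, Complex.norm_real,
      Real.norm_eq_abs, abs_div, abs_of_pos hpos, div_le_one hpos, abs_le]
    have := Real.cosh_add_sinh x
    have h4 := Real.cosh_sub_sinh x
    have h5 := Real.exp_pos x
    have h6 := Real.exp_pos (-x)
    constructor <;> linarith
  calc ‖(Complex.cosh (a * (w - q)) - 1) + (Complex.sinh x / Complex.cosh x) * Complex.sinh (a * (w - q))‖ ≤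
      ‖Complex.cosh (a * (w - q)) - 1‖ + ‖Complex.sinh (x : ℂ) / Complex.cosh x‖ * ‖Complex.sinh (a * (w - q))‖ := by
        refine (norm_add_le _ _).trans ?_
        rw [norm_mul]
    _ ≤ 2 * ‖(a : ℂ) * (w - q)‖ + 1 * (2 * ‖(a : ℂ) * (w - q)‖) := by gcongr
    _ ≤ 4 * (a * e) := by linarith

lemma near_EE {T : ℝ} (hT : 2 ≤ T) {q w : ℂ} (h1 : |q.re| < 1 / 2) (h2 : |q.im| ≤ T) {e : ℝ}
    (he : ‖w - q‖ ≤ e) (he1 : e ≤ 1) : Near (EE (w / T) / EE (q / T)) (4 * e) := by
  apply Near.of_le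
  have hT0 : 0 < T := by linarith
  have h3 := EE_ge hT h1 h2
  have hne : EE (q / (T : ℂ)) ≠ 0 := by
    rw [← norm_pos_iff]
    linarith
  have e0 : 0 ≤ e := (norm_nonneg _).trans he
  rw [div_sub_one hne, norm_div, div_le_iff₀ (by linarith)]
  have h4 : ‖w / (T : ℂ) - q / T‖ ≤ e := by
    rw [← sub_div, norm_div, Complex.norm_real, Real.norm_of_nonneg hT0.le, div_le_iff₀ hT0]
    nlinarith
  have h5 := EE_sub (z := w / (T : ℂ)) (w := q / T) (by linarith)
  have h6 : |(q / (T : ℂ)).re| ≤ 1 := by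
    have : (q / (T : ℂ)).re = q.re / T := by simp
    rw [this, abs_div, abs_of_pos hT0, div_le_iff₀ hT0]
    linarith
  have h7 : Real.exp (|(q / (T : ℂ)).re| / 4) ≤ 2 :=
    (Real.exp_le_exp.mpr (by linarith)).trans exp_quarter_le
  calc ‖EE (w / (T : ℂ)) - EE (q / T)‖ ≤ Real.exp (|(q / (T : ℂ)).re| / 4) / 2 * ‖w / (T : ℂ) - q / T‖ := h5
    _ ≤ 2 / 2 * e := by gcongr
    _ = 4 * e * (1 / 4) := by ring
    _ ≤ 4 * e * ‖EE (q / (T : ℂ))‖ := by gcongr

lemma lam_dist (ha : 0 < a) (q : ℂ) (hq : q.im = y) (k : ℤ) : Real.pi / (2 * a) ≤ ‖q - lam a y k‖ := by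
  have h1 := Complex.abs_im_le_norm (q - lam a y k)
  rw [Complex.sub_im, lam_im, hq] at h1
  refine le_trans ?_ h1
  unfold el
  have e : y - (y + ((k : ℝ) + 1 / 2) * (Real.pi / a)) = -((k : ℝ) + 1 / 2) * (Real.pi / a) := by ring
  have hpa : 0 < Real.pi / a := by positivity
  rw [e, abs_mul, abs_neg, abs_of_pos hpa]
  have h2 : (1 : ℝ) / 2 ≤ |(k : ℝ) + 1 / 2| := by
    rcases le_or_gt 0 k with hk | hk
    · have : (0 : ℝ) ≤ k := by exact_mod_cast hk
      rw [abs_of_nonneg (by linarith)]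
      linarith
    · have : (k : ℝ) ≤ -1 := by
        have : k ≤ -1 := by omega
        exact_mod_cast this
      rw [abs_of_neg (by linarith)]
      linarith
  calc Real.pi / (2 * a) = 1 / 2 * (Real.pi / a) := by
        field_simp
    _ ≤ _ := by gcongr

lemma ratio_at (ha : 1 ≤ a) {T h0 : ℝ} (hT : 2 ≤ T) (hy : |y| ≤ T) {α p : ℂ} (S : Finset ι) (K : Finset ℤ)
    (hid : ∀ z, (∏ k ∈ K, (z - lam a y k)) * F z = cc a y z * PP T α p h0 u S z)
    {q w : ℂ} (hq : q.im = y) (hq2 : |q.re| < 1 / 2) {e η : ℝ} (he : ‖w - q‖ ≤ e)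
    (hae : a * e ≤ 1 / 2) (hη : ∀ i ∈ S, 0 < ‖q - u i‖ ∧ ‖w - q‖ ≤ η * ‖q - u i‖)
    (hlin : (lin α p h0).eval q ≠ 0) :
    ∃ X : ℂ, F w = F q * ((lin α p h0).eval w / (lin α p h0).eval q) * X ∧
      Near X (4 * (a * e) + 4 * e + S.card * η + K.card * (a * e)) := by
  have ha0 : 0 < a := by linarith
  have e0 : 0 ≤ e := (norm_nonneg _).trans he
  have he1 : e ≤ 1 := by nlinarith
  have hwl : ∀ k, 1 / a ≤ ‖w - lam a y k‖ := by
    intro k
    have h1 := lam_dist ha0 q hq k
    have h2 : ‖q - lam a y k‖ ≤ ‖w - lam a y k‖ + ‖w - q‖ := by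
      calc ‖q - lam a y k‖ = ‖(w - lam a y k) - (w - q)‖ := by ring_nf
        _ ≤ _ := norm_sub_le _ _
    have h3 : e ≤ 1 / (2 * a) := by
      rw [le_div_iff₀ (by positivity)]
      linarith
    have h4 : 3 / (2 * a) ≤ Real.pi / (2 * a) := by
      gcongr
      exact Real.pi_gt_three.le
    have h5 : 3 / (2 * a) = 1 / a + 1 / (2 * a) := by
      field_simp
      norm_num
    linarith
  have hw0 : ∏ k ∈ K, (w - lam a y k) ≠ 0 := by
    refine Finset.prod_ne_zero_iff.mpr fun k _ => ?_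
    rw [← norm_pos_iff]
    exact lt_of_lt_of_le (by positivity) (hwl k)
  have hq0 : ∏ k ∈ K, (q - lam a y k) ≠ 0 := by
    refine Finset.prod_ne_zero_iff.mpr fun k _ => ?_
    rw [← norm_pos_iff]
    exact lt_of_lt_of_le (by positivity) (lam_dist ha0 q hq k)
  have hc0 : cc a y q ≠ 0 := by
    rw [← norm_pos_iff]
    exact lt_of_lt_of_le one_pos (one_le_cc hq)
  have hE0 : EE (q / T) ≠ 0 := by
    rw [← norm_pos_iff]
    exact lt_of_lt_of_le (by norm_num) (EE_ge hT hq2 (by rw [hq]; exact hy))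
  have hS0 : ∏ i ∈ S, (q - u i) ≠ 0 := by
    refine Finset.prod_ne_zero_iff.mpr fun i hi => ?_
    rw [← norm_pos_iff]
    exact (hη i hi).1
  refine ⟨(cc a y w / cc a y q) * (EE (w / T) / EE (q / T)) * (∏ i ∈ S, ((w - u i) / (q - u i))) *
    ∏ k ∈ K, ((q - lam a y k) / (w - lam a y k)), ?_, ?_⟩
  · have h1 := hid w
    have h2 := hid q
    unfold PP at h1 h2
    rw [Finset.prod_div_distrib, Finset.prod_div_distrib]
    have h3 : F w = cc a y w * (EE (w / T) * ((lin α p h0).eval w * ∏ i ∈ S, (w - u i))) /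
        ∏ k ∈ K, (w - lam a y k) := by
      rw [eq_div_iff hw0, mul_comm]
      exact h1
    have h4 : F q = cc a y q * (EE (q / T) * ((lin α p h0).eval q * ∏ i ∈ S, (q - u i))) /
        ∏ k ∈ K, (q - lam a y k) := by
      rw [eq_div_iff hq0, mul_comm]
      exact h2
    rw [h3, h4]
    generalize (∏ k ∈ K, (w - lam a y k)) = A1 at *
    generalize (∏ k ∈ K, (q - lam a y k)) = A2 at *
    generalize (∏ i ∈ S, (w - u i)) = A3 at *
    generalize (∏ i ∈ S, (q - u i)) = A4 at *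
    generalize (lin α p h0).eval w = A5 at *
    generalize (lin α p h0).eval q = A6 at *
    generalize EE (w / T) = A7 at *
    generalize EE (q / T) = A8 at *
    generalize cc a y w = A9 at *
    generalize cc a y q = A10 at *
    field_simp
  · have n1 := near_cc ha0 hq he (by linarith)
    have n2 := near_EE hT hq2 (by rw [hq]; exact hy) he he1
    have n3 : Near (∏ i ∈ S, ((w - u i) / (q - u i))) (S.card * η) := by
      refine Near.prod S _ fun i hi => Near.of_le ?_
      obtain ⟨h1, h2⟩ := hη i hi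
      have h3 : q - u i ≠ 0 := norm_pos_iff.mp h1
      have e1 : (w - u i) / (q - u i) - 1 = (w - q) / (q - u i) := by
        field_simp
        ring
      rw [e1, norm_div, div_le_iff₀ h1]
      exact h2
    have n4 : Near (∏ k ∈ K, ((q - lam a y k) / (w - lam a y k))) (K.card * (a * e)) := by
      refine Near.prod K _ fun k _ => Near.of_le ?_
      have h1 := hwl k
      have h1' : 0 < ‖w - lam a y k‖ := lt_of_lt_of_le (by positivity) h1
      have h3 : w - lam a y k ≠ 0 := norm_pos_iff.mp h1'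
      have e1 : (q - lam a y k) / (w - lam a y k) - 1 = -(w - q) / (w - lam a y k) := by
        field_simp
        ring
      rw [e1, norm_div, norm_neg, div_le_iff₀ h1']
      calc ‖w - q‖ ≤ e := he
        _ = a * e * (1 / a) := by
          field_simp
        _ ≤ _ := by gcongr
    exact ((n1.mul n2).mul n3).mul n4

/-- the sign near the point -/
lemma cluster (ha : 1 ≤ a) {T h0 η ro : ℝ} (hT : 2 ≤ T) (hy : |y| ≤ T) {α p : ℂ} (S : Finset ι) (K : Finset ℤ)
    (hid : ∀ z, (∏ k ∈ K, (z - lam a y k)) * F z = cc a y z * PP T α p h0 u S z)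
    (hp : p.im = y) (hp2 : |p.re| < 1 / 2) (hh0 : 0 < h0) (hph : p.re = h0) (hα : ‖α‖ = 1)
    (hη0 : 0 < η) (hro : 0 < ro) (hroh : ro ≤ h0)
    (hsum : 2 * (4 * (a * η) + 4 * η + S.card * η + K.card * (a * η)) + 2 * η ≤ 1 / 4)
    (hS : ∀ i ∈ S, ro ≤ ‖p - u i‖ ∧ ro ≤ ‖-conj p - u i‖)
    {V : ℝ} (hV : 0 ≤ V) (hval : F p * conj (F (-conj p)) = -(V : ℂ)) {w : ℂ} (hw : ‖w - p‖ ≤ η * ro) :
    (F w * conj (F (-conj w))).re ≤ 0 := by
  have hα0 : α ≠ 0 := by
    intro h0
    rw [h0] at hα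
    simp at hα
  have ha0 : 0 < a := by linarith
  have hro1 : ro ≤ 1 := by
    have := (abs_lt.mp hp2).2
    linarith
  have hηro : η * ro ≤ η := mul_le_of_le_one_right hη0.le hro1
  have hSc : 0 ≤ (S.card : ℝ) * η := by positivity
  have hKc : 0 ≤ (K.card : ℝ) * (a * η) := by positivity
  have haη : a * η ≤ 1 / 8 := by nlinarith
  have haη0 : 0 < a * η := by positivity
  have hae : a * (η * ro) ≤ 1 / 2 := by
    have : a * (η * ro) ≤ a * η := by gcongr
    linarith
  have hw' : ‖-conj w - (-conj p)‖ ≤ η * ro := by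
    have : -conj w - (-conj p) = -conj (w - p) := by
      rw [map_sub]
      ring
    rw [this, norm_neg, Complex.norm_conj]
    exact hw
  have hq' : (-conj p).im = y := by simpa using hp
  have hq2' : |(-conj p).re| < 1 / 2 := by simpa using hp2
  obtain ⟨X1, hX1, n1⟩ := ratio_at ha hT hy S K hid hp hp2 hw hae (η := η) (fun i hi =>
    ⟨hro.trans_le (hS i hi).1, hw.trans (by gcongr; exact (hS i hi).1)⟩) (by
      rw [lin_p hh0 hph]
      exact hα0)
  obtain ⟨X2, hX2, n2⟩ := ratio_at ha hT hy S K hid hq' hq2' hw' hae (η := η) (fun i hi =>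
    ⟨hro.trans_le (hS i hi).2, hw'.trans (by gcongr; exact (hS i hi).2)⟩) (by
      rw [lin_p' hh0 hph]
      exact one_ne_zero)
  rw [lin_p hh0 hph] at hX1
  rw [lin_p' hh0 hph, div_one] at hX2
  obtain ⟨n3, n4⟩ := lin_near hh0 hph hα (v := w) (e := η) (hw.trans (by gcongr))
  have hprod : F w * conj (F (-conj w)) =
      -(V : ℂ) * (((lin α p h0).eval w / α * X1) * conj ((lin α p h0).eval (-conj w) * X2)) := by
    rw [hX1, hX2, ← hval]
    simp only [map_mul]
    ring
  have n5 := (n3.mul n1).mul (n4.mul n2).conj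
  have hle : η + (4 * (a * (η * ro)) + 4 * (η * ro) + S.card * η + K.card * (a * (η * ro))) +
      (η + (4 * (a * (η * ro)) + 4 * (η * ro) + S.card * η + K.card * (a * (η * ro)))) ≤ 1 / 4 := by
    have e1 : a * (η * ro) ≤ a * η := by gcongr
    have e2 : (K.card : ℝ) * (a * (η * ro)) ≤ K.card * (a * η) := by gcongr
    linarith
  have hre := n5.re_nonneg hle
  rw [hprod, neg_mul, Complex.neg_re, Complex.re_ofReal_mul]
  have := mul_nonneg hV hre
  linarith

end Pool.Agent.Helper76.EW
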