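import Mathlib

set_option autoImplicit false

/-!
# The zeros of a hyperbolic cosine on a line
-/

namespace Pool.Agent.Helper76.EW

open Complex Filter Topology

/-- heights of the zeros of `cosh (a (z - i y))` -/
noncomputable def el (a y : ℝ) (k : ℤ) : ℝ := y + (k + 1 / 2) * (Real.pi / a)

/-- the zeros of `cosh (a (z - i y))` -/
noncomputable def lam (a y : ℝ) (k : ℤ) : ℂ := (el a y k : ℂ) * I

/-- `cosh (a (z - i y))` -/
noncomputable def cc (a y : ℝ) (z : ℂ) : ℂ := Complex.cosh (a * (z - y * I))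

variable {a y : ℝ}

lemma lam_re (k : ℤ) : (lam a y k).re = 0 := by simp [lam]

lemma lam_im (k : ℤ) : (lam a y k).im = el a y k := by simp [lam]

lemma lam_injective (ha : 0 < a) : Function.Injective (lam a y) := by
  intro j k h
  have h1 := congrArg Complex.im h
  rw [lam_im, lam_im] at h1
  unfold el at h1
  have hpa : 0 < Real.pi / a := by positivity
  have h2 : ((j : ℝ) + 1 / 2) * (Real.pi / a) = (k + 1 / 2) * (Real.pi / a) := by linarith
  have h3 := mul_right_cancel₀ hpa.ne' h2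
  have h4 : (j : ℝ) = k := by linarith
  exact_mod_cast h4

lemma norm_cc_eq (ha : 0 < a) (k : ℤ) (z : ℂ) : ‖cc a y z‖ = ‖Complex.sinh (a * (z - lam a y k))‖ := by
  have hac : (a : ℂ) ≠ 0 := by exact_mod_cast ha.ne'
  have e1 : (a : ℂ) * (z - y * I) = a * (z - lam a y k) + ((((k : ℝ) + 1 / 2) * Real.pi : ℝ) : ℂ) * I := by
    unfold lam el
    push_cast
    field_simp
    ring
  have hcos : Complex.cos ((((k : ℝ) + 1 / 2) * Real.pi : ℝ) : ℂ) = 0 := by
    rw [Complex.cos_eq_zero_iff]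
    refine ⟨k, ?_⟩
    push_cast
    ring
  have hsin : ‖Complex.sin ((((k : ℝ) + 1 / 2) * Real.pi : ℝ) : ℂ)‖ = 1 := by
    have h1 := Complex.sin_sq_add_cos_sq ((((k : ℝ) + 1 / 2) * Real.pi : ℝ) : ℂ)
    rw [hcos] at h1
    have h2 : ‖Complex.sin ((((k : ℝ) + 1 / 2) * Real.pi : ℝ) : ℂ)‖ ^ 2 = 1 := by
      rw [← norm_pow]
      rw [show Complex.sin ((((k : ℝ) + 1 / 2) * Real.pi : ℝ) : ℂ) ^ 2 = 1 by linear_combination h1, norm_one]
    have h3 := norm_nonneg (Complex.sin ((((k : ℝ) + 1 / 2) * Real.pi : ℝ) : ℂ))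
    nlinarith
  unfold cc
  rw [e1, Complex.cosh_add, Complex.cosh_mul_I, Complex.sinh_mul_I, hcos, mul_zero, zero_add, norm_mul,
    norm_mul, hsin, Complex.norm_I, mul_one, mul_one]

lemma cc_lam (ha : 0 < a) (k : ℤ) : cc a y (lam a y k) = 0 := by
  rw [← norm_eq_zero, norm_cc_eq ha k]
  simp

lemma norm_cosh_le (z : ℂ) : ‖Complex.cosh z‖ ≤ Real.exp |z.re| := by
  unfold Complex.cosh
  rw [norm_div]
  have h1 : ‖Complex.exp z + Complex.exp (-z)‖ ≤ 2 * Real.exp |z.re| := by
    refine (norm_add_le _ _).trans ?_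
    rw [Complex.norm_exp, Complex.norm_exp, Complex.neg_re]
    have h2 := Real.exp_le_exp.mpr (le_abs_self z.re)
    have h3 := Real.exp_le_exp.mpr (neg_le_abs z.re)
    linarith
  have h2 : ‖(2 : ℂ)‖ = 2 := by simp
  rw [h2, div_le_iff₀ (by norm_num)]
  linarith

lemma norm_sinh_le (z : ℂ) : ‖Complex.sinh z‖ ≤ Real.exp |z.re| := by
  unfold Complex.sinh
  rw [norm_div]
  have h1 : ‖Complex.exp z - Complex.exp (-z)‖ ≤ 2 * Real.exp |z.re| := by
    refine (norm_sub_le _ _).trans ?_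
    rw [Complex.norm_exp, Complex.norm_exp, Complex.neg_re]
    have h2 := Real.exp_le_exp.mpr (le_abs_self z.re)
    have h3 := Real.exp_le_exp.mpr (neg_le_abs z.re)
    linarith
  have h2 : ‖(2 : ℂ)‖ = 2 := by simp
  rw [h2, div_le_iff₀ (by norm_num)]
  linarith

lemma norm_sinh_small {z : ℂ} (hz : ‖z‖ ≤ 1) : ‖Complex.sinh z‖ ≤ 2 * ‖z‖ := by
  unfold Complex.sinh
  have h1 := Complex.norm_exp_sub_one_le hz
  have h2 := Complex.norm_exp_sub_one_le (x := -z) (by rwa [norm_neg])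
  rw [norm_neg] at h2
  have e : Complex.exp z - Complex.exp (-z) = (Complex.exp z - 1) - (Complex.exp (-z) - 1) := by ring
  have h3 : ‖(2 : ℂ)‖ = 2 := by simp
  rw [norm_div, h3, div_le_iff₀ (by norm_num), e]
  refine (norm_sub_le _ _).trans ?_
  linarith

lemma norm_cosh_sub_one_small {z : ℂ} (hz : ‖z‖ ≤ 1) : ‖Complex.cosh z - 1‖ ≤ 2 * ‖z‖ := by
  unfold Complex.cosh
  have h1 := Complex.norm_exp_sub_one_le hz
  have h2 := Complex.norm_exp_sub_one_le (x := -z) (by rwa [norm_neg])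
  rw [norm_neg] at h2
  have e : (Complex.exp z + Complex.exp (-z)) / 2 - 1 = ((Complex.exp z - 1) + (Complex.exp (-z) - 1)) / 2 := by
    ring
  have h3 : ‖(2 : ℂ)‖ = 2 := by simp
  rw [e, norm_div, h3, div_le_iff₀ (by norm_num)]
  refine (norm_add_le _ _).trans ?_
  linarith

lemma norm_cc_le (ha : 0 < a) {z : ℂ} (hz : |z.re| ≤ 1 / 2) : ‖cc a y z‖ ≤ Real.exp (a / 2) := by
  unfold cc
  refine (norm_cosh_le _).trans ?_
  apply Real.exp_le_exp.mpr
  have : ((a : ℂ) * (z - y * I)).re = a * z.re := by simp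
  rw [this, abs_mul, abs_of_pos ha]
  have := mul_le_mul_of_nonneg_left hz ha.le
  linarith

/-- near a zero -/
lemma norm_cc_le_mul (ha : 0 < a) (k : ℤ) {z : ℂ} (hz : |z.re| ≤ 1 / 2) :
    ‖cc a y z‖ ≤ 2 * a * Real.exp (a / 2) * ‖z - lam a y k‖ := by
  have hn : ‖(a : ℂ) * (z - lam a y k)‖ = a * ‖z - lam a y k‖ := by
    rw [norm_mul, Complex.norm_real, Real.norm_of_nonneg ha.le]
  have he : 1 ≤ Real.exp (a / 2) := Real.one_le_exp (by positivity)
  by_cases h : ‖(a : ℂ) * (z - lam a y k)‖ ≤ 1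
  · rw [norm_cc_eq ha k]
    refine (norm_sinh_small h).trans ?_
    rw [hn]
    have h0 := norm_nonneg (z - lam a y k)
    calc 2 * (a * ‖z - lam a y k‖) = 2 * a * 1 * ‖z - lam a y k‖ := by ring
      _ ≤ _ := by gcongr
  · push Not at h
    rw [hn] at h
    refine (norm_cc_le ha hz).trans ?_
    calc Real.exp (a / 2) = Real.exp (a / 2) * 1 := by ring
      _ ≤ Real.exp (a / 2) * (2 * (a * ‖z - lam a y k‖)) := by
          gcongr
          linarith
      _ = _ := by ring

/-- the nearest zero -/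
noncomputable def near (a y t : ℝ) : ℤ := round ((t - y) * (a / Real.pi) - 1 / 2)

lemma near_spec (ha : 0 < a) (t : ℝ) (k : ℤ) (hk : k ≠ near a y t) :
    Real.pi / (2 * a) * |((k - near a y t : ℤ) : ℝ)| ≤ |t - el a y k| := by
  set x := (t - y) * (a / Real.pi) - 1 / 2 with hx
  have h1 : |x - near a y t| ≤ 1 / 2 := by
    have := abs_sub_round x
    unfold near
    rw [← hx]
    exact this
  have e : t - el a y k = Real.pi / a * (x - k) := by
    unfold el
    rw [hx]
    field_simp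
    ring
  have hpa : 0 < Real.pi / a := by positivity
  rw [e, abs_mul, abs_of_pos hpa]
  have h2 : (1 : ℝ) ≤ |((k - near a y t : ℤ) : ℝ)| := by
    have : 1 ≤ |k - near a y t| := Int.one_le_abs (sub_ne_zero.mpr hk)
    exact_mod_cast this
  have h3 : |((k - near a y t : ℤ) : ℝ)| ≤ |x - k| + |x - near a y t| := by
    push_cast
    calc |(k : ℝ) - near a y t| = |(x - near a y t) - (x - k)| := by ring_nf
      _ ≤ |x - near a y t| + |x - k| := abs_sub _ _
      _ = _ := by ring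
  have h4 : |((k - near a y t : ℤ) : ℝ)| / 2 ≤ |x - k| := by linarith
  calc Real.pi / (2 * a) * |((k - near a y t : ℤ) : ℝ)| = Real.pi / a * (|((k - near a y t : ℤ) : ℝ)| / 2) := by
        field_simp
    _ ≤ _ := by gcongr

/-- a sum of reciprocals over distinct nonzero integers -/
lemma sum_inv_abs_le (J : Finset ℤ) (h0 : (0 : ℤ) ∉ J) {n : ℕ} (hn : J.card ≤ n) (hn1 : 1 ≤ n) :
    ∑ j ∈ J, 1 / |(j : ℝ)| ≤ 3 + 2 * Real.log n := by
  classical
  rw [← Finset.sum_filter_add_sum_filter_not J (fun j => j.natAbs ≤ n)]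
  have hnr : (0 : ℝ) < n := by exact_mod_cast hn1
  have h1 : ∑ j ∈ J.filter (fun j => ¬ j.natAbs ≤ n), 1 / |(j : ℝ)| ≤ 1 := by
    calc ∑ j ∈ J.filter (fun j => ¬ j.natAbs ≤ n), 1 / |(j : ℝ)| ≤
        ∑ j ∈ J.filter (fun j => ¬ j.natAbs ≤ n), 1 / (n : ℝ) := by
          refine Finset.sum_le_sum fun j hj => ?_
          rw [Finset.mem_filter, not_le] at hj
          have : (n : ℝ) ≤ |(j : ℝ)| := by
            have h2 : (n : ℤ) ≤ |j| := by
              rw [← Int.natCast_natAbs]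
              exact_mod_cast hj.2.le
            exact_mod_cast h2
          gcongr
      _ = ((J.filter (fun j => ¬ j.natAbs ≤ n)).card : ℝ) * (1 / n) := by
          rw [Finset.sum_const, nsmul_eq_mul]
      _ ≤ n * (1 / n) := by
          gcongr
          exact_mod_cast (Finset.card_filter_le _ _).trans hn
      _ = 1 := by field_simp
  have h2 : ∑ j ∈ J.filter (fun j => j.natAbs ≤ n), 1 / |(j : ℝ)| ≤ 2 * (1 + Real.log n) := by
    have hmaps : ∀ j ∈ J.filter (fun j => j.natAbs ≤ n), j.natAbs ∈ Finset.Icc 1 n := by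
      intro j hj
      rw [Finset.mem_filter] at hj
      rw [Finset.mem_Icc]
      refine ⟨Nat.pos_of_ne_zero fun h => ?_, hj.2⟩
      rw [Int.natAbs_eq_zero] at h
      rw [h] at hj
      exact h0 hj.1
    rw [← Finset.sum_fiberwise_of_maps_to hmaps]
    have h3 : ∀ m ∈ Finset.Icc 1 n, ∑ j ∈ (J.filter (fun j => j.natAbs ≤ n)).filter (fun j => j.natAbs = m),
        1 / |(j : ℝ)| ≤ 2 * (1 / (m : ℝ)) := by
      intro m hm
      have hsub : ∀ j ∈ (J.filter (fun j => j.natAbs ≤ n)).filter (fun j => j.natAbs = m),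
          1 / |(j : ℝ)| = 1 / (m : ℝ) := by
        intro j hj
        rw [Finset.mem_filter] at hj
        have : |(j : ℝ)| = m := by
          have h4 : |j| = (m : ℤ) := by
            rw [← Int.natCast_natAbs, hj.2]
          exact_mod_cast h4
        rw [this]
      rw [Finset.sum_congr rfl hsub, Finset.sum_const, nsmul_eq_mul]
      gcongr
      have hc : ((J.filter (fun j => j.natAbs ≤ n)).filter (fun j => j.natAbs = m)) ⊆ {(m : ℤ), -(m : ℤ)} := by
        intro j hj
        rw [Finset.mem_filter] at hj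
        rw [Finset.mem_insert, Finset.mem_singleton]
        exact Int.natAbs_eq_iff.mp hj.2
      have := (Finset.card_le_card hc).trans Finset.card_le_two
      exact_mod_cast this
    refine (Finset.sum_le_sum h3).trans ?_
    rw [← Finset.mul_sum]
    have h5 := harmonic_le_one_add_log n
    rw [harmonic_eq_sum_Icc] at h5
    push_cast at h5
    have h6 : ∑ i ∈ Finset.Icc 1 n, 1 / (i : ℝ) = ∑ i ∈ Finset.Icc 1 n, ((i : ℝ))⁻¹ :=
      Finset.sum_congr rfl fun i _ => one_div _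
    rw [h6]
    linarith
  linarith

end Pool.Agent.Helper76.EW
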