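import Pool.Agent.Helper76.EW.Single

set_option autoImplicit false

/-!
# Subspaces of test functions on which the form is negative
-/

namespace Pool.Agent.Helper76.EW

open Complex Filter Topology Set MeasureTheory
open scoped ComplexConjugate ContDiff
open Pool.Agent.Helper76.LW

variable {a : ℝ} {ι : Type*} {u : ι → ℂ} {m : ι → ℝ}

/-- the terms of the form -/
noncomputable def FF (F : ℂ → ℂ) (v : ℂ) : ℂ := F v * conj (F (-conj v))

lemma FF_refl (F : ℂ → ℂ) (v : ℂ) : FF F (-conj v) = conj (FF F v) := by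
  unfold FF
  simp only [map_mul, map_neg, Complex.conj_conj, neg_neg]
  ring

lemma FF_smul (F : ℂ → ℂ) (c v : ℂ) : FF (fun z => c * F z) v = ((‖c‖ ^ 2 : ℝ) : ℂ) * FF F v := by
  unfold FF
  rw [map_mul, ← Complex.normSq_eq_norm_sq, ← Complex.mul_conj]
  ring

/-- crude bound for the terms of the form -/
lemma summable_FF (C : Cf u m) {T K : ℝ} (F : ℂ → ℂ)
    (hK : ∀ i, T < |(u i).im| → ‖FF F (u i)‖ ≤ K * (1 / (1 + |(u i).im|) ^ 2)) :
    Summable fun i => m i * (FF F (u i)).re := by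
  refine Summable.of_norm_bounded_eventually (C.sum2.mul_left K) ?_
  rw [Filter.eventually_cofinite]
  refine (C.finite T).subset fun i hi => ?_
  simp only [Set.mem_ofPred_eq, not_le] at hi ⊢
  by_contra hc
  push Not at hc
  have h1 := hK i hc
  have h2 := C.m_nonneg i
  have h3 : ‖m i * (FF F (u i)).re‖ ≤ K * (m i / (1 + |(u i).im|) ^ 2) := by
    rw [norm_mul, Real.norm_of_nonneg h2]
    calc m i * ‖(FF F (u i)).re‖ ≤ m i * (K * (1 / (1 + |(u i).im|) ^ 2)) := by
          gcongr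
          exact (Complex.abs_re_le_norm _).trans h1
      _ = _ := by ring
  linarith

/-- **A subspace on which the form is negative.** -/
theorem multi' (C : Cf u m) {T b h E0 : ℝ} {n M : ℕ} (ha : 1 ≤ a) (huc : UC u T b) (hb : 0 ≤ b) (hT : 2 ≤ T)
    (hh : 0 < h) (hE0 : 0 < E0) (hE1 : E0 ≤ 1)
    (hwin : ∀ (t : ℝ) (S : Finset ι), (∀ i ∈ S, |(u i).im| ≤ 16 * T ∧ t ≤ (u i).im ∧ (u i).im ≤ t + h) →
      (S.card : ℝ) ≤ h * a / Real.pi - 1)
    (hmid : ∀ S : Finset ι, (∀ i ∈ S, |(u i).im| ≤ 4 * T + h) → (S.card : ℝ) + M + 1 ≤ 8 * T * a / Real.pi)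
    (hn : 4 * b * (16 * T + 1) ≤ n) (hn1 : 1 ≤ n) (hM : 3 ≤ M)
    (N2 : 2 * (4 * (a * (T ^ 3)⁻¹) + 4 * (T ^ 3)⁻¹ + n * (T ^ 3)⁻¹ + (n + M : ℕ) * (a * (T ^ 3)⁻¹)) +
      2 * (T ^ 3)⁻¹ ≤ 1 / 4)
    (N3 : n * epsi T a b h E0 n M * (∑' i, m i / (1 + |(u i).im|) ^ 2) < 1)
    (W : Finset ι) (hW : ∀ i ∈ W, |(u i).im| ≤ T ∧ 4 * E0 ≤ (u i).re)
    (hsep : ∀ i ∈ W, ∀ j ∈ W, i ≠ j → 4 * E0 ≤ ‖u i - u j‖) :
    ∃ R : ι → ℂ → ℂ, (∀ i ∈ W, PW (a + 1 / 4 / T) (R i)) ∧ ∀ c : ι → ℂ, (∃ i ∈ W, c i ≠ 0) →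
      (Summable fun i => m i * (FF (fun z => ∑ q ∈ W, c q * R q z) (u i)).re) ∧
      ∑' i, m i * (FF (fun z => ∑ q ∈ W, c q * R q z) (u i)).re < 0 := by
  classical
  have hT0 : 0 < T := by linarith
  have hsing : ∀ i0 ∈ W, ∃ (F : ℂ → ℂ) (ro : ℝ), PW (a + 1 / 4 / T) F ∧ 0 < ro ∧ ro ≤ E0 ∧
      (FF F (u i0)).re = -1 ∧
      (∀ i, ‖u i - u i0‖ ≤ ro → (FF F (u i)).re ≤ 0) ∧
      (∀ i, |(u i).im| ≤ 16 * T → ro < ‖u i - u i0‖ → ro < ‖u i - (-conj (u i0))‖ → F (u i) = 0) ∧
      (∀ v : ℂ, |v.re| < 1 / 2 → 16 * T < |v.im| → ‖F v‖ ^ 2 ≤ epsi T a b h E0 n M / (1 + |v.im|) ^ 2) :=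
    fun i0 hi0 => single' C ha huc hb hT hh hE0 hE1 hwin hmid hn hn1 hM N2 i0 (hW i0 hi0).1 (hW i0 hi0).2
  choose! R ro h1 h2 h3 h4 h5 h6 h7 using hsing
  refine ⟨R, h1, fun c hc => ?_⟩
  obtain ⟨σ, hσu, hσm⟩ := C.refl
  set ε := epsi T a b h E0 n M with hε
  have hε0 : 0 < ε := by
    rw [hε]
    unfold epsi
    have : 0 < a + 1 := by linarith
    positivity
  -- a point near `p` is killed by the other functions
  have hcross : ∀ p ∈ W, ∀ q ∈ W, q ≠ p → ∀ i, |(u i).im| ≤ 16 * T → ‖u i - u p‖ ≤ ro p →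
      R q (u i) = 0 := by
    intro p hp q hq hqp i hi hip
    have e1 := h3 p hp
    have e2 := h3 q hq
    have e3 := hsep q hq p hp hqp
    apply h6 q hq i hi
    · have : ‖u q - u p‖ ≤ ‖u i - u q‖ + ‖u i - u p‖ := by
        calc ‖u q - u p‖ = ‖-(u i - u q) + (u i - u p)‖ := by
              congr 1
              ring
          _ ≤ _ := by
              refine (norm_add_le _ _).trans ?_
              rw [norm_neg]
      linarith
    · have h8 : (u i).re + (u q).re ≤ ‖u i - (-conj (u q))‖ := by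
        have := Complex.re_le_norm (u i - (-conj (u q)))
        simpa using this
      have h9 : (u p).re - (u i).re ≤ ‖u i - u p‖ := by
        have := Complex.abs_re_le_norm (u i - u p)
        rw [Complex.sub_re] at this
        have := neg_abs_le ((u i).re - (u p).re)
        linarith
      have h10 := (hW p hp).2
      have h11 := (hW q hq).2
      linarith
  have hcross' : ∀ p ∈ W, ∀ q ∈ W, q ≠ p → ∀ i, |(u i).im| ≤ 16 * T → ‖u i - (-conj (u p))‖ ≤ ro p →
      R q (u i) = 0 := by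
    intro p hp q hq hqp i hi hip
    have e1 := h3 p hp
    have e2 := h3 q hq
    have e3 := hsep q hq p hp hqp
    apply h6 q hq i hi
    · have h8 : (u q).re - (u i).re ≤ ‖u i - u q‖ := by
        have := Complex.abs_re_le_norm (u i - u q)
        rw [Complex.sub_re] at this
        have := neg_abs_le ((u i).re - (u q).re)
        linarith
      have h9 : (u i).re + (u p).re ≤ ‖u i - (-conj (u p))‖ := by
        have := Complex.re_le_norm (u i - (-conj (u p)))
        simpa using this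
      have h10 := (hW p hp).2
      have h11 := (hW q hq).2
      linarith
    · have h12 : ‖u q - u p‖ = ‖-conj (u q) - (-conj (u p))‖ := by
        rw [← Complex.norm_conj, map_sub]
        have : -conj (u q) - -conj (u p) = -(conj (u q) - conj (u p)) := by ring
        rw [this, norm_neg]
      have : ‖-conj (u q) - (-conj (u p))‖ ≤ ‖u i - (-conj (u q))‖ + ‖u i - (-conj (u p))‖ := by
        calc ‖-conj (u q) - (-conj (u p))‖ = ‖-(u i - (-conj (u q))) + (u i - (-conj (u p)))‖ := by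
              congr 1
              ring
          _ ≤ _ := by
              refine (norm_add_le _ _).trans ?_
              rw [norm_neg]
      linarith
  obtain ⟨Q, hQe⟩ : ∃ Q : ℂ → ℂ, ∀ z, Q z = ∑ q ∈ W, c q * R q z := ⟨_, fun _ => rfl⟩
  rw [show (fun z => ∑ q ∈ W, c q * R q z) = Q from (funext hQe).symm]
  -- the value near `p`
  have hval : ∀ p ∈ W, ∀ i, |(u i).im| ≤ 16 * T → ‖u i - u p‖ ≤ ro p →
      FF Q (u i) = ((‖c p‖ ^ 2 : ℝ) : ℂ) * FF (R p) (u i) := by
    intro p hp i hi hip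
    rw [← FF_smul]
    unfold FF
    have g1 : Q (u i) = c p * R p (u i) := by
      rw [hQe, Finset.sum_eq_single p]
      · intro q hq hqp
        rw [hcross p hp q hq hqp i hi hip, mul_zero]
      · intro h
        exact absurd hp h
    have g2 : Q (-conj (u i)) = c p * R p (-conj (u i)) := by
      rw [hQe, Finset.sum_eq_single p]
      · intro q hq hqp
        have hi' : |(u (σ i)).im| ≤ 16 * T := by
          rw [hσu]
          simpa using hi
        have hip' : ‖u (σ i) - (-conj (u p))‖ ≤ ro p := by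
          rw [hσu]
          have : -conj (u i) - -conj (u p) = -conj (u i - u p) := by
            rw [map_sub]
            ring
          rw [this, norm_neg, Complex.norm_conj]
          exact hip
        have := hcross' p hp q hq hqp (σ i) hi' hip'
        rw [hσu] at this
        rw [this, mul_zero]
      · intro h
        exact absurd hp h
    rw [g1, g2]
  -- far points
  set sa := ∑ q ∈ W, ‖c q‖ with hsa
  have hfar : ∀ v : ℂ, |v.re| < 1 / 2 → 16 * T < |v.im| →
      ‖FF Q v‖ ≤ sa ^ 2 * ε * (1 / (1 + |v.im|) ^ 2) := by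
    intro v hv hvT
    have hb1 : ∀ w : ℂ, |w.re| < 1 / 2 → |w.im| = |v.im| →
        ‖Q w‖ ≤ sa * Real.sqrt (ε / (1 + |v.im|) ^ 2) := by
      intro w hw hwv
      rw [hQe, hsa, Finset.sum_mul]
      refine (norm_sum_le _ _).trans (Finset.sum_le_sum fun q hq => ?_)
      rw [norm_mul]
      have := h7 q hq w hw (by rw [hwv]; exact hvT)
      rw [hwv] at this
      have h8 : ‖R q w‖ ≤ Real.sqrt (ε / (1 + |v.im|) ^ 2) := Real.le_sqrt_of_sq_le this
      gcongr
    have hsa0 : 0 ≤ sa := Finset.sum_nonneg fun q _ => norm_nonneg _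
    have g1 := hb1 v hv rfl
    have g2 := hb1 (-conj v) (by simpa using hv) (by simp)
    unfold FF
    rw [norm_mul, Complex.norm_conj]
    have hX : 0 ≤ ε / (1 + |v.im|) ^ 2 := by positivity
    calc ‖Q v‖ * ‖Q (-conj v)‖ ≤
        (sa * Real.sqrt (ε / (1 + |v.im|) ^ 2)) * (sa * Real.sqrt (ε / (1 + |v.im|) ^ 2)) := by gcongr
      _ = sa ^ 2 * (Real.sqrt (ε / (1 + |v.im|) ^ 2)) ^ 2 := by ring
      _ = sa ^ 2 * ε * (1 / (1 + |v.im|) ^ 2) := by
        rw [Real.sq_sqrt hX]
        ring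
  have hsum := summable_FF C Q (fun i hi => hfar (u i) (C.re_lt i) hi)
  refine ⟨hsum, ?_⟩
  -- pointwise comparison
  have hpt : ∀ i, m i * (FF Q (u i)).re ≤
      sa ^ 2 * ε * (m i / (1 + |(u i).im|) ^ 2) - (if i ∈ W then ‖c i‖ ^ 2 else 0) := by
    intro i
    have hm := C.one_le i
    have hm0 := C.m_nonneg i
    have hpos : 0 ≤ sa ^ 2 * ε * (m i / (1 + |(u i).im|) ^ 2) := by positivity
    split_ifs with hi
    · have hi16 : |(u i).im| ≤ 16 * T := by linarith [(hW i hi).1]
      rw [hval i hi i hi16 (by rw [sub_self, norm_zero]; exact (h2 i hi).le), Complex.re_ofReal_mul, h4 i hi]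
      nlinarith [sq_nonneg ‖c i‖]
    · rw [sub_zero]
      by_cases hf : 16 * T < |(u i).im|
      · have h8 := hfar (u i) (C.re_lt i) hf
        calc m i * (FF Q (u i)).re ≤ m i * (sa ^ 2 * ε * (1 / (1 + |(u i).im|) ^ 2)) := by
              gcongr
              exact (Complex.re_le_norm _).trans h8
          _ = _ := by ring
      · rw [not_lt] at hf
        by_cases hcl : ∃ p ∈ W, ‖u i - u p‖ ≤ ro p ∨ ‖u i - (-conj (u p))‖ ≤ ro p
        · obtain ⟨p, hp, hc⟩ := hcl
          have hle : (FF Q (u i)).re ≤ 0 := by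
            rcases hc with hc | hc
            · rw [hval p hp i hf hc, Complex.re_ofReal_mul]
              exact mul_nonpos_of_nonneg_of_nonpos (sq_nonneg _) (h5 p hp i hc)
            · have hi' : |(u (σ i)).im| ≤ 16 * T := by
                rw [hσu]
                simpa using hf
              have hc' : ‖u (σ i) - u p‖ ≤ ro p := by
                rw [hσu, ← Complex.norm_conj]
                have : conj (-conj (u i) - u p) = -(u i - -conj (u p)) := by
                  simp
                  ring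
                rw [this, norm_neg]
                exact hc
              have h8 := hval p hp (σ i) hi' hc'
              have h9 := h5 p hp (σ i) hc'
              have h10 : (FF Q (u (σ i))).re ≤ 0 := by
                rw [h8, Complex.re_ofReal_mul]
                exact mul_nonpos_of_nonneg_of_nonpos (sq_nonneg _) h9
              rw [hσu, FF_refl, Complex.conj_re] at h10
              exact h10
          have := mul_nonneg hm0 (neg_nonneg.mpr hle)
          linarith
        · push Not at hcl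
          have hz : Q (u i) = 0 := by
            rw [hQe]
            refine Finset.sum_eq_zero fun q hq => ?_
            rw [h6 q hq i hf (hcl q hq).1 (hcl q hq).2, mul_zero]
          have hG0 : FF Q (u i) = 0 := by
            unfold FF
            rw [hz, zero_mul]
          rw [hG0, Complex.zero_re, mul_zero]
          exact hpos
  have hs1 : Summable fun i => sa ^ 2 * ε * (m i / (1 + |(u i).im|) ^ 2) := C.sum2.mul_left _
  have hs2 : HasSum (fun i => if i ∈ W then ‖c i‖ ^ 2 else 0) (∑ i ∈ W, ‖c i‖ ^ 2) := by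
    have this : HasSum (fun i => if i ∈ W then ‖c i‖ ^ 2 else 0)
        (∑ i ∈ W, (if i ∈ W then ‖c i‖ ^ 2 else 0)) :=
      hasSum_sum_of_ne_finset_zero (fun i hi => by simp [hi])
    convert this using 1
    exact Finset.sum_congr rfl fun i hi => by simp [hi]
  have hle := hsum.tsum_le_tsum hpt (hs1.sub hs2.summable)
  rw [hs1.tsum_sub hs2.summable, tsum_mul_left, hs2.tsum_eq] at hle
  refine lt_of_le_of_lt hle ?_
  -- the number of points
  have hcard : (W.card : ℝ) ≤ n := by
    refine le_trans ?_ hn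
    exact huc.card_le hb hT W fun i hi => by linarith [(hW i hi).1]
  have hCS : sa ^ 2 ≤ W.card * ∑ i ∈ W, ‖c i‖ ^ 2 := by
    rw [hsa]
    exact sq_sum_le_card_mul_sum_sq
  have hapos : 0 < ∑ i ∈ W, ‖c i‖ ^ 2 := by
    obtain ⟨i, hi, hai⟩ := hc
    have h8 : 0 < ‖c i‖ := norm_pos_iff.mpr hai
    exact Finset.sum_pos' (fun j _ => sq_nonneg _) ⟨i, hi, by positivity⟩
  set S0 := ∑' i, m i / (1 + |(u i).im|) ^ 2 with hS0
  have hS00 : 0 ≤ S0 := tsum_nonneg fun i => div_nonneg (C.m_nonneg i) (by positivity)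
  have h8 : sa ^ 2 * ε * S0 ≤ (n * ∑ i ∈ W, ‖c i‖ ^ 2) * ε * S0 := by
    gcongr
    refine hCS.trans ?_
    gcongr
  have h9 : (n * ∑ i ∈ W, ‖c i‖ ^ 2) * ε * S0 = (n * ε * S0) * ∑ i ∈ W, ‖c i‖ ^ 2 := by ring
  nlinarith

end Pool.Agent.Helper76.EW
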