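import Pool.Agent.Helper76.EW.PartA
import Pool.Agent.Helper42.WB.Main

set_option autoImplicit false

/-!
# Negative squares of Weil's form for functions supported in a fixed interval
-/

namespace Pool.Agent.Helper76.EW

open Complex Filter Topology Set MeasureTheory
open scoped ComplexConjugate ContDiff
open Pool.Agent.V11271.LI
open Pool.Agent.Helper76.LW
open Pool.Agent.Helper61.W (TF LT corr tm LT_corr summable_tm tm_corr Tr)

/-- the transform, normalised at the critical line -/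
noncomputable def TT (g : ℝ → ℂ) (s : ℂ) : ℂ := ∫ x : ℝ, g x * Complex.exp ((s - 1 / 2) * x)

/-- the summand of Weil's form -/
noncomputable def wt (g : ℝ → ℂ) (ρ : Zr) : ℂ :=
  (analyticOrderNatAt riemannZeta (ρ : ℂ) : ℂ) * (TT g ρ * conj (TT g (1 - conj (ρ : ℂ))))

/-- smooth functions supported in the symmetric interval of length `log X` -/
def Tst (X : ℝ) (g : ℝ → ℂ) : Prop :=
  ContDiff ℝ ∞ g ∧ ∀ x : ℝ, x ∉ Icc (-(Real.log X / 2)) (Real.log X / 2) → g x = 0

/-- Weil's form -/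
noncomputable def Wf (g : ℝ → ℂ) : ℂ := ∑' ρ : Zr, wt g ρ

/-- Weil's form is negative definite on a space of dimension `k` -/
def Ngd (X : ℝ) (k : ℕ) : Prop :=
  ∃ h : Fin k → ℝ → ℂ, (∀ j, Tst X (h j)) ∧
    ∀ a : Fin k → ℂ, a ≠ 0 → (Wf fun x => ∑ j, a j * h j x).re < 0

lemma Tst.tf {X : ℝ} {g : ℝ → ℂ} (h : Tst X g) : TF g := tf_of_supp h.1 h.2

lemma TT_eq (g : ℝ → ℂ) (s : ℂ) : TT g s = LT g (s - 1 / 2) := rfl

lemma wt_eq {g : ℝ → ℂ} (h : TF g) (ρ : Zr) : wt g ρ = tm (corr g) ρ := by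
  rw [tm_corr h]
  unfold wt V11271.LI.mm TT Helper61.W.Tr
  push_cast
  rfl

lemma Wf_eq {g : ℝ → ℂ} (h : TF g) : Wf g = ∑' ρ : Zr, tm (corr g) ρ := by
  unfold Wf
  simp_rw [wt_eq h]

lemma wt_summable {g : ℝ → ℂ} (h : TF g) : Summable (wt g) := by
  have := summable_tm h.corr
  rwa [show (fun ρ : Zr => tm (corr g) ρ) = wt g from funext fun ρ => (wt_eq h ρ).symm] at this

lemma Tst.sum {X : ℝ} {κ : Type*} (s : Finset κ) {g : κ → ℝ → ℂ} (a : κ → ℂ) (h : ∀ k ∈ s, Tst X (g k)) :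
    Tst X (fun x => ∑ k ∈ s, a k * g k x) := by
  refine ⟨?_, ?_⟩
  · exact ContDiff.sum fun k hk => contDiff_const.mul (h k hk).1
  · intro x hx
    exact Finset.sum_eq_zero fun k hk => by rw [(h k hk).2 x hx, mul_zero]

/-- Weil's form is real -/
lemma Wf_im {g : ℝ → ℂ} (h : TF g) : (Wf g).im = 0 := by
  have e : Wf g = conj (Wf g) := by
    unfold Wf
    rw [Complex.conj_tsum, ← reflE.tsum_eq]
    refine tsum_congr fun ρ => ?_
    have h1 : ((reflE ρ : Zr) : ℂ) = 1 - conj (ρ : ℂ) := rfl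
    have h2 : (analyticOrderNatAt riemannZeta ((reflE ρ : Zr) : ℂ) : ℂ) =
        (analyticOrderNatAt riemannZeta (ρ : ℂ) : ℂ) := by
      have := mm_refl ρ
      unfold mm at this
      exact_mod_cast this
    unfold wt
    rw [h2, h1, map_mul, map_mul, Complex.conj_conj]
    have h3 : (1 : ℂ) - conj (1 - conj (ρ : ℂ)) = ρ := by
      rw [map_sub, map_one, Complex.conj_conj]
      ring
    rw [h3]
    have h4 : conj ((analyticOrderNatAt riemannZeta (ρ : ℂ) : ℂ)) = (analyticOrderNatAt riemannZeta (ρ : ℂ) : ℂ) :=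
      Complex.conj_natCast _
    rw [h4]
    ring
  have := congrArg Complex.im e
  rw [Complex.conj_im] at this
  linarith

/-- the zeros to the right of the critical line, up to height `H` -/
def off (H : ℝ) : Set Zr := {ρ : Zr | 1 / 2 < (ρ : ℂ).re ∧ |(ρ : ℂ).im| < H}

lemma off_finite (H : ℝ) : (off H).Finite := by
  rcases le_or_gt 0 H with hH | hH
  · refine (finite_zeta H hH).subset fun ρ hρ => ?_
    show |(zz ρ).im| ≤ H
    rw [zz_im]
    exact hρ.2.le
  · have : off H = ∅ := by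
      rw [Set.eq_empty_iff_forall_notMem]
      intro ρ hρ
      have := abs_nonneg (ρ : ℂ).im
      have := hρ.2
      linarith
    rw [this]
    exact Set.finite_empty

lemma exp_sqrt {C X : ℝ} (hX : 0 < X) : Real.exp (C * Real.exp (Real.log X / 2)) = Real.exp (C * Real.sqrt X) := by
  congr 2
  rw [Real.sqrt_eq_rpow, Real.rpow_def_of_pos hX]
  congr 1
  ring

/-- positivity on the functions whose transform vanishes at the zeros to the right of the line -/
theorem pos_of_vanish : ∃ C : ℝ, 0 < C ∧ ∀ X : ℝ, 1 < X → ∀ g : ℝ → ℂ, Tst X g → g ≠ 0 →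
    (∀ ρ ∈ off (Real.exp (C * Real.sqrt X)), TT g (ρ : ℂ) = 0) → 0 < (Wf g).re := by
  obtain ⟨C, hC, h⟩ := Helper42.WB.partB0
  refine ⟨C, hC, fun X hX g hg hne hz => ?_⟩
  rw [Wf_eq hg.tf]
  apply h (Real.log X) (Real.log_pos hX) g hg.tf hg.2 hne
  intro ρ hρ hoff
  rw [exp_sqrt (by linarith)] at hρ
  rcases lt_or_gt_of_ne hoff with h1 | h1
  · right
    have h2 := hz (reflE ρ) ⟨by
      show 1 / 2 < (1 - conj (ρ : ℂ)).re
      simp only [Complex.sub_re, Complex.one_re, Complex.conj_re]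
      linarith, by
      show |(1 - conj (ρ : ℂ)).im| < _
      simpa using hρ⟩
    rw [TT_eq] at h2
    have e : ((reflE ρ : Zr) : ℂ) - 1 / 2 = 1 / 2 - conj (ρ : ℂ) := by
      show 1 - conj (ρ : ℂ) - 1 / 2 = _
      ring
    rw [e] at h2
    exact h2
  · left
    have h2 := hz ρ ⟨h1, hρ⟩
    rwa [TT_eq] at h2

lemma TT_sum {κ : Type*} (s : Finset κ) {g : κ → ℝ → ℂ} (a : κ → ℂ) (h : ∀ k ∈ s, TF (g k)) (z : ℂ) :
    TT (fun x => ∑ k ∈ s, a k * g k x) z = ∑ k ∈ s, a k * TT (g k) z := LT_sum s a h _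

/-- the number of negative squares is at most the number of zeros to the right of the line -/
theorem index_le : ∃ C : ℝ, 0 < C ∧ ∀ X : ℝ, 1 < X →
    (∀ g : ℝ → ℂ, Tst X g → g ≠ 0 →
      (∀ ρ ∈ off (Real.exp (C * Real.sqrt X)), TT g (ρ : ℂ) = 0) → 0 < (Wf g).re) ∧
    ∀ k : ℕ, Ngd X k → k ≤ (off (Real.exp (C * Real.sqrt X))).ncard := by
  classical
  obtain ⟨C, hC, h⟩ := pos_of_vanish
  refine ⟨C, hC, fun X hX => ⟨h X hX, fun k hk => ?_⟩⟩
  obtain ⟨f, hf, hneg⟩ := hk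
  by_contra hlt
  push Not at hlt
  set Z := off (Real.exp (C * Real.sqrt X)) with hZ
  have hfin : Z.Finite := off_finite _
  haveI := hfin.fintype
  let E : (Fin k → ℂ) →ₗ[ℂ] (Z → ℂ) :=
    { toFun := fun a ρ => ∑ j, a j * TT (f j) ((ρ : Zr) : ℂ)
      map_add' := fun a b => by
        funext ρ
        simp only [Pi.add_apply, add_mul, Finset.sum_add_distrib]
      map_smul' := fun c a => by
        funext ρ
        simp only [Pi.smul_apply, smul_eq_mul, RingHom.id_apply, Finset.mul_sum, mul_assoc] }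
  have hker : LinearMap.ker E ≠ ⊥ := by
    apply E.ker_ne_bot_of_finrank_lt
    rw [Module.finrank_fintype_fun_eq_card, Module.finrank_fintype_fun_eq_card, Fintype.card_fin,
      ← Nat.card_eq_fintype_card]
    exact hlt
  obtain ⟨a, ha, ha0⟩ := (Submodule.ne_bot_iff _).mp hker
  have h1 := hneg a ha0
  have hT : Tst X (fun x => ∑ j, a j * f j x) := Tst.sum Finset.univ a fun j _ => hf j
  have h2 := h X hX (fun x => ∑ j, a j * f j x) hT (by
    intro h0
    rw [h0] at h1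
    have : Wf (0 : ℝ → ℂ) = 0 := by
      unfold Wf wt TT
      simp
    rw [this] at h1
    simp at h1) (by
    intro ρ hρ
    rw [TT_sum Finset.univ a fun j _ => (hf j).tf]
    have h3 : E a = 0 := ha
    exact congrFun h3 ⟨ρ, hρ⟩)
  linarith

/-- separated zeros off the line give negative squares -/
theorem index_ge : ∃ c X0 : ℝ, 0 < c ∧ 3 ≤ X0 ∧ ∀ X : ℝ, X0 ≤ X → ∀ S : Finset Zr,
    (∀ ρ ∈ S, |(ρ : ℂ).im| ≤ c * X ∧ 1 / 2 + Real.exp (-(c * X / Real.log X)) ≤ (ρ : ℂ).re) →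
    (∀ ρ ∈ S, ∀ ρ' ∈ S, ρ ≠ ρ' → Real.exp (-(c * X / Real.log X)) ≤ ‖(ρ : ℂ) - ρ'‖) →
    Ngd X S.card := by
  classical
  obtain ⟨c, X0, hc, hX0, h⟩ := partA
  refine ⟨c, X0, hc, hX0, fun X hX S hS hsep => ?_⟩
  obtain ⟨g, hg, hneg⟩ := h X hX S hS hsep
  refine ⟨fun j => g (S.equivFin.symm j), fun j => ?_, fun a ha => ?_⟩
  · have := hg _ (S.equivFin.symm j).2
    exact ⟨this.1.smooth, this.2⟩
  · obtain ⟨j0, hj0⟩ := Function.ne_iff.mp ha
    set b : Zr → ℂ := fun ρ => if hρ : ρ ∈ S then a (S.equivFin ⟨ρ, hρ⟩) else 0 with hb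
    have e : ∀ x : ℝ, ∑ j, a j * g (S.equivFin.symm j) x = ∑ q ∈ S, b q * g q x := by
      intro x
      rw [← Finset.sum_coe_sort S (fun q => b q * g q x), ← Equiv.sum_comp S.equivFin.symm]
      refine Finset.sum_congr rfl fun j _ => ?_
      rw [hb]
      simp
    simp_rw [e]
    have hTF : TF (fun x => ∑ q ∈ S, b q * g q x) :=
      (TF_sum S (r := Real.log X / 2) b (fun ρ hρ => (hg ρ hρ).1) (fun ρ hρ => (hg ρ hρ).2)).1
    rw [Wf_eq hTF]
    apply hneg b
    refine ⟨(S.equivFin.symm j0 : Zr), (S.equivFin.symm j0).2, ?_⟩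
    rw [hb]
    simp only [Finset.coe_mem, dite_true, Subtype.coe_eta, Equiv.apply_symm_apply]
    exact hj0

end Pool.Agent.Helper76.EW
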