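import Pool.Agent.Helper76.EW.Multi

set_option autoImplicit false

/-!
# Choice of the parameters
-/

namespace Pool.Agent.Helper76.EW

open Complex Filter Topology Set MeasureTheory
open scoped ComplexConjugate ContDiff
open Pool.Agent.Helper76.LW

variable {ι : Type*} {u : ι → ℂ} {m : ι → ℝ}

/-- upper density of the points -/
def UD (u : ι → ℂ) : Prop :=
  ∃ C1 T0 : ℝ, 0 ≤ C1 ∧ ∀ T : ℝ, T0 ≤ T → ∀ h : ℝ, Real.log T ^ 3 ≤ h → ∀ t : ℝ, -T ≤ t → t + h ≤ T →
    ∀ S : Finset ι, (∀ i ∈ S, t ≤ (u i).im ∧ (u i).im ≤ t + h) →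
      (S.card : ℝ) ≤ h * (Real.log T + C1) / (2 * Real.pi)

lemma log_small (K : ℝ) (k : ℕ) : ∀ᶠ T : ℝ in atTop, K * Real.log (17 * T) ^ k ≤ T := by
  have h1 : Tendsto (fun x : ℝ => Real.log x ^ k / x) atTop (𝓝 0) := by
    have := Real.tendsto_pow_log_div_mul_add_atTop 1 0 k one_ne_zero
    simpa using this
  have h2 : Tendsto (fun x : ℝ => (17 * K) * (Real.log x ^ k / x)) atTop (𝓝 ((17 * K) * 0)) := h1.const_mul _
  rw [mul_zero] at h2
  have h3 : Tendsto (fun T : ℝ => 17 * T) atTop atTop := tendsto_id.const_mul_atTop (by norm_num)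
  filter_upwards [(h2.comp h3).eventually_le_const (show (0:ℝ) < 1 by norm_num), eventually_gt_atTop 0] with T hT hT0
  simp only [Function.comp_apply] at hT
  have h4 : 17 * K * (Real.log (17 * T) ^ k / (17 * T)) = K * Real.log (17 * T) ^ k / T := by
    field_simp
  rw [h4, div_le_one hT0] at hT
  exact hT

lemma ar1 {T : ℝ} (hT : 10 ≤ T) : Real.exp 2 ≤ 17 * T := by
  have h9 : Real.exp 2 = Real.exp 1 ^ 2 := by
    rw [← Real.exp_nat_mul]
    norm_num
  rw [h9]
  nlinarith [Real.exp_one_lt_d9, Real.exp_one_gt_d9]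

lemma ar2 {l C : ℝ} (hl : 2 ≤ l) (hC : 0 ≤ C) : (l + C + 4) / 2 ≤ (C + 5) * l := by
  nlinarith [mul_nonneg hC (show 0 ≤ l - 2 by linarith)]

lemma ar3 {l C : ℝ} (hl : 2 ≤ l) (hC : 0 ≤ C) : l + C ≤ (C + 5) * l := by
  nlinarith [mul_nonneg hC (show 0 ≤ l - 2 by linarith)]

lemma ar4 {l T : ℝ} (hl : 2 ≤ l) (hT : 10 ≤ T) : 1 ≤ l * T := by nlinarith

lemma ar5 {h a : ℝ} (hh : 8 ≤ h) (ha : 1 ≤ a) : 1 * Real.pi ≤ h * a := by
  have := Real.pi_le_four
  nlinarith

lemma ar6 {T : ℝ} (hT : 0 < T) : 5 * T ≤ 16 * T / Real.pi := by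
  rw [le_div_iff₀ Real.pi_pos]
  have := Real.pi_lt_d2
  nlinarith

lemma ar7 (T : ℝ) : T * T ≤ (17 * T) ^ 2 := by nlinarith [sq_nonneg T]

lemma ar8 {l T : ℝ} (hl : 2 ≤ l) (h : l ^ 2 ≤ T) : l ≤ T ∧ l * T ≤ T ^ 2 ∧ l ^ 2 * T ≤ T ^ 2 := by
  have h1 : l ≤ l ^ 2 := by nlinarith
  have h2 : l ≤ T := h1.trans h
  have h3 : 0 ≤ T := by linarith
  refine ⟨h2, ?_, ?_⟩
  · nlinarith
  · nlinarith

lemma ar9 {T : ℝ} (hT : 10 ≤ T) : T ≤ T ^ 2 ∧ 1 ≤ T ^ 2 := by constructor <;> nlinarith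

lemma ar10 {x l : ℝ} (hx : 0 < x) (hl : 2 ≤ l) : 2 * x ≤ x * l := by nlinarith

lemma ar11 {a A l : ℝ} (h : a ≤ A * l) (h0 : 0 ≤ A * l) : 2 * a ≤ 2 * A * l * Real.pi := by
  have := Real.pi_gt_three
  nlinarith

/-- **Separated points off the line and negative subspaces.** -/
theorem core_weil (C : Cf u m) (hUD : UD u) : ∃ C2 c T0 : ℝ, 0 ≤ C2 ∧ 0 < c ∧ 2 ≤ T0 ∧ ∀ T : ℝ, T0 ≤ T →
    ∀ W : Finset ι,
    (∀ i ∈ W, |(u i).im| ≤ T ∧ 4 * Real.exp (-(c * T / Real.log (17 * T))) ≤ (u i).re) →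
    (∀ i ∈ W, ∀ j ∈ W, i ≠ j → 4 * Real.exp (-(c * T / Real.log (17 * T))) ≤ ‖u i - u j‖) →
    ∃ R : ι → ℂ → ℂ, (∀ i ∈ W, PW ((Real.log T + C2) / 2) (R i)) ∧ ∀ c : ι → ℂ, (∃ i ∈ W, c i ≠ 0) →
      (Summable fun i => m i * (FF (fun z => ∑ q ∈ W, c q * R q z) (u i)).re) ∧
      ∑' i, m i * (FF (fun z => ∑ q ∈ W, c q * R q z) (u i)).re < 0 := by
  obtain ⟨B, hB, hcount⟩ := C.unit_count
  obtain ⟨C1, T1, hC1, hud⟩ := hUD
  set S0 := ∑' i, m i / (1 + |(u i).im|) ^ 2 with hS0
  have hS00 : 0 ≤ S0 := tsum_nonneg fun i => div_nonneg (C.m_nonneg i) (by positivity)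
  set c : ℝ := 1 / (8 * B + 2) with hc
  have hc0 : 0 < c := by positivity
  set A : ℝ := C1 + 5 with hA
  have hA5 : 5 ≤ A := by linarith
  set c0 : ℝ := 82944 * (S0 + 1) with hc0d
  have hc00 : 1 ≤ c0 := by
    rw [hc0d]
    linarith
  -- the polynomial in the logarithm that has to be small
  have hsm : ∀ᶠ T : ℝ in atTop, (c0 + 2 + 3 * A + 8 + 2 * (4 * B * (2 + 12 * B) + 8 * B + 8 * B) + 2 * (2 * (2 * A) * 7) + 2 * A * 2 + A * 8 +
      16 * B * 17 + 64) * Real.log (17 * T) ^ 5 ≤ T := log_small _ 5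
  have hsm2 : ∀ᶠ T : ℝ in atTop, 2 * (4 * A + 4 + (4 * B * 17 + 1) + ((4 * B * 17 + 1) + 4) * A) + 2 ≤ T / 4 := by
    filter_upwards [eventually_ge_atTop (4 * (2 * (4 * A + 4 + (4 * B * 17 + 1) + ((4 * B * 17 + 1) + 4) * A) + 2))]
      with T hT
    linarith
  obtain ⟨T2, hT2⟩ := eventually_atTop.mp (hsm.and (hsm2.and (log_small 1 2)))
  refine ⟨Real.log 17 + C1 + 5, c, max (max T1 T2) 10, by positivity, hc0,
    le_trans (by norm_num) (le_max_right _ _), fun T hT W hW hsep => ?_⟩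
  have hTT1 : T1 ≤ T := ((le_max_left _ _).trans (le_max_left _ _)).trans hT
  have hTT2 : T2 ≤ T := ((le_max_right _ _).trans (le_max_left _ _)).trans hT
  have hT10 : 10 ≤ T := (le_max_right _ _).trans hT
  have hT0 : 0 < T := by linarith
  obtain ⟨g1, g2, g3⟩ := hT2 T hTT2
  set l := Real.log (17 * T) with hl
  have hlT : Real.log T ≤ l := Real.log_le_log hT0 (by linarith)
  have hl2 : 2 ≤ l := by
    rw [hl, Real.le_log_iff_exp_le (by linarith)]
    exact ar1 hT10
  have hl0 : 0 < l := by linarith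
  have hlT0 : 0 ≤ Real.log T := Real.log_nonneg (by linarith)
  set b := B * l with hb
  have hb0 : 0 ≤ b := by positivity
  set h := l ^ 3 with hh
  have hh8 : 8 ≤ h := by
    rw [hh]
    calc (8 : ℝ) = 2 ^ 3 := by norm_num
      _ ≤ _ := by gcongr
  set a := (l + C1 + 4) / 2 with ha
  have ha1 : 1 ≤ a := by
    rw [ha]
    linarith
  have haA : a ≤ A * l := ar2 hl2 hC1
  set E0 := Real.exp (-(c * T / l)) with hE0
  have hE00 : 0 < E0 := Real.exp_pos _
  have hE01 : E0 ≤ 1 := Real.exp_le_one_iff.mpr (by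
    have : 0 ≤ c * T / l := by positivity
    linarith)
  set n := ⌈4 * b * (16 * T + 1)⌉₊ with hn
  set M := ⌊4 * T⌋₊ with hM
  have hn1 : 4 * b * (16 * T + 1) ≤ n := Nat.le_ceil _
  have hnpos : 1 ≤ n := Nat.ceil_pos.mpr (by positivity)
  have hn2 : (n : ℝ) ≤ (4 * B * 17 + 1) * (l * T) := by
    have h1 := (Nat.ceil_lt_add_one (show 0 ≤ 4 * b * (16 * T + 1) by positivity)).le
    have h2 : 4 * b * (16 * T + 1) ≤ 4 * b * (17 * T) := by gcongr; linarith
    have h3 : 1 ≤ l * T := ar4 hl2 hT10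
    calc (n : ℝ) ≤ 4 * b * (16 * T + 1) + 1 := h1
      _ ≤ 4 * b * (17 * T) + l * T := by linarith
      _ = _ := by rw [hb]; ring
  have hM1 : (M : ℝ) ≤ 4 * T := Nat.floor_le (by positivity)
  have hM2 : 4 * T - 1 ≤ M := by
    have := Nat.lt_floor_add_one (4 * T)
    rw [← hM] at this
    linarith
  have hM3 : 3 ≤ M := Nat.le_floor (by push_cast; linarith)
  have hl5 : 1 ≤ l ^ 5 := one_le_pow₀ (by linarith)
  have hll : ∀ k : ℕ, k ≤ 5 → l ^ k ≤ l ^ 5 := fun k hk => pow_le_pow_right₀ (by linarith) hk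
  have hBl : (c0 + 2 + 3 * A + 8 + 2 * (4 * B * (2 + 12 * B) + 8 * B + 8 * B) + 2 * (2 * (2 * A) * 7) + 2 * A * 2 + A * 8 +
      16 * B * 17 + 64) * l ^ 5 ≤ T := g1
  have hKpos : 64 ≤ (c0 + 2 + 3 * A + 8 + 2 * (4 * B * (2 + 12 * B) + 8 * B + 8 * B) + 2 * (2 * (2 * A) * 7) + 2 * A * 2 + A * 8 +
      16 * B * 17 + 64) := by
    have : 0 ≤ c0 + 2 + 3 * A + 8 + 2 * (4 * B * (2 + 12 * B) + 8 * B + 8 * B) + 2 * (2 * (2 * A) * 7) + 2 * A * 2 + A * 8 +
      16 * B * 17 := by positivity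
    linarith
  have h64 : 64 * l ^ 5 ≤ T := le_trans (by gcongr) hBl
  have hhT : h ≤ T := by
    have := hll 3 (by norm_num)
    rw [hh]
    linarith
  -- unit windows
  have huc : UC u T b := by
    intro t S hS
    refine (hcount T (by linarith) t S hS).trans ?_
    rw [hb]
    have : 0 ≤ B := hB.le
    gcongr
  -- windows of length `h`
  have h17 : T1 ≤ 17 * T := by linarith
  have hpi := Real.pi_pos
  have hpi3 := Real.pi_gt_three
  have hpi4 := Real.pi_le_four
  have hwin : ∀ (t : ℝ) (S : Finset ι), (∀ i ∈ S, |(u i).im| ≤ 16 * T ∧ t ≤ (u i).im ∧ (u i).im ≤ t + h) →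
      (S.card : ℝ) ≤ h * a / Real.pi - 1 := by
    intro t S hS
    rcases S.eq_empty_or_nonempty with he | ⟨i, hi⟩
    · rw [he, Finset.card_empty, Nat.cast_zero, sub_nonneg, le_div_iff₀ hpi]
      exact ar5 hh8 ha1
    · obtain ⟨e1, e2, e3⟩ := hS i hi
      have e4 := abs_le.mp e1
      have h1 := hud (17 * T) h17 h (le_of_eq hh.symm) t (by linarith) (by linarith) S fun j hj => (hS j hj).2
      refine h1.trans ?_
      have e5 : h * a / Real.pi = h * (Real.log (17 * T) + C1) / (2 * Real.pi) + 2 * h / Real.pi := by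
        rw [ha, hl]
        field_simp
        ring
      rw [e5]
      have e6 : 1 ≤ 2 * h / Real.pi := by
        rw [le_div_iff₀ hpi]
        linarith
      linarith
  have hmid : ∀ S : Finset ι, (∀ i ∈ S, |(u i).im| ≤ 4 * T + h) →
      (S.card : ℝ) + M + 1 ≤ 8 * T * a / Real.pi := by
    intro S hS
    have h1 := hud (17 * T) h17 (8 * T + 2 * h) (by linarith) (-(4 * T + h)) (by linarith) (by linarith) S
      fun j hj => by
        have := abs_le.mp (hS j hj)
        constructor <;> linarith [this.1, this.2]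
    have e1 : (8 * T + 2 * h) * (Real.log (17 * T) + C1) / (2 * Real.pi) =
        8 * T * a / Real.pi - 16 * T / Real.pi + 2 * h * (l + C1) / (2 * Real.pi) := by
      rw [ha, hl]
      field_simp
      ring
    have e2 : 2 * h * (l + C1) / (2 * Real.pi) ≤ 2 * A * l ^ 5 := by
      rw [div_le_iff₀ (by positivity)]
      have e3 : l + C1 ≤ A * l := ar3 hl2 hC1
      have e4 : h * l = l ^ 4 := by
        rw [hh]
        ring
      calc 2 * h * (l + C1) ≤ 2 * h * (A * l) := by gcongr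
        _ = 2 * A * (h * l) := by ring
        _ = 2 * A * l ^ 4 * 1 := by rw [e4]; ring
        _ ≤ 2 * A * l ^ 5 * (2 * Real.pi) := by
          have := hll 4 (by norm_num)
          have e5 : (1 : ℝ) ≤ 2 * Real.pi := by linarith
          gcongr
    have e3 : 2 * A * l ^ 5 ≤ T / 4 := by
      have e4 : (A * 8) * l ^ 5 ≤ T := by
        refine le_trans ?_ hBl
        have : (A * 8) ≤ (c0 + 2 + 3 * A + 8 + 2 * (4 * B * (2 + 12 * B) + 8 * B + 8 * B) + 2 * (2 * (2 * A) * 7) + 2 * A * 2 + A * 8 +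
            16 * B * 17 + 64) := by
          have : 0 ≤ c0 + 2 + 3 * A + 8 + 2 * (4 * B * (2 + 12 * B) + 8 * B + 8 * B) + 2 * (2 * (2 * A) * 7) + 2 * A * 2 +
            16 * B * 17 + 64 := by positivity
          linarith
        gcongr
      linarith
    have e4 : 5 * T ≤ 16 * T / Real.pi := ar6 hT0
    linarith
  -- the number of points is at most a square
  have hlogn : Real.log n ≤ 2 * l := by
    have e1 : (n : ℝ) ≤ (17 * T) ^ 2 := by
      refine hn2.trans ?_
      have e2 : (16 * B * 17 + 64) * l ^ 5 ≤ T := by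
        refine le_trans ?_ hBl
        have : 0 ≤ c0 + 2 + 3 * A + 8 + 2 * (4 * B * (2 + 12 * B) + 8 * B + 8 * B) + 2 * (2 * (2 * A) * 7) + 2 * A * 2 + A * 8 := by
          positivity
        gcongr
        linarith
      have e3 : (4 * B * 17 + 1) * l ≤ T := by
        refine le_trans ?_ e2
        have e4 : l ≤ l ^ 5 := by
          have := hll 1 (by norm_num)
          simpa using this
        have e5 : 0 ≤ B := hB.le
        gcongr
        · linarith
        · linarith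
      calc (4 * B * 17 + 1) * (l * T) = ((4 * B * 17 + 1) * l) * T := by ring
        _ ≤ T * T := by gcongr
        _ ≤ (17 * T) ^ 2 := ar7 T
    have e2 : (0 : ℝ) < n := by exact_mod_cast hnpos
    calc Real.log n ≤ Real.log ((17 * T) ^ 2) := Real.log_le_log e2 e1
      _ = 2 * l := by
        rw [Real.log_pow, ← hl]
        norm_num
  have N2 : 2 * (4 * (a * (T ^ 3)⁻¹) + 4 * (T ^ 3)⁻¹ + n * (T ^ 3)⁻¹ + (n + M : ℕ) * (a * (T ^ 3)⁻¹)) +
      2 * (T ^ 3)⁻¹ ≤ 1 / 4 := by
    have hT3 : (0:ℝ) < T ^ 3 := by positivity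
    have hl2T : l ^ 2 ≤ T := by
      have := g3
      linarith
    obtain ⟨r1, r2, r3⟩ := ar8 hl2 hl2T
    obtain ⟨r4, r5⟩ := ar9 hT10
    have e1 : a ≤ A * T := haA.trans (by gcongr)
    have e2 : (n : ℝ) ≤ (4 * B * 17 + 1) * T ^ 2 := by
      refine hn2.trans ?_
      gcongr
    have e3 : (n : ℝ) * a ≤ (4 * B * 17 + 1) * A * T ^ 2 := by
      calc (n : ℝ) * a ≤ ((4 * B * 17 + 1) * (l * T)) * (A * l) := by gcongr
        _ = (4 * B * 17 + 1) * A * (l ^ 2 * T) := by ring
        _ ≤ (4 * B * 17 + 1) * A * T ^ 2 := by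
          gcongr
    have e4 : (M : ℝ) * a ≤ 4 * A * T ^ 2 := by
      calc (M : ℝ) * a ≤ (4 * T) * (A * T) := by gcongr
        _ = _ := by ring
    have e5 : 2 * (4 * a + 4 + n + (n + M : ℕ) * a) + 2 ≤
        (2 * (4 * A + 4 + (4 * B * 17 + 1) + ((4 * B * 17 + 1) + 4) * A) + 2) * T ^ 2 := by
      have e6 : a ≤ A * T ^ 2 := by
        refine e1.trans ?_
        gcongr
      have e7 : (1:ℝ) ≤ T ^ 2 := r5
      push_cast
      linarith
    have e6 : 2 * (4 * (a * (T ^ 3)⁻¹) + 4 * (T ^ 3)⁻¹ + n * (T ^ 3)⁻¹ + (n + M : ℕ) * (a * (T ^ 3)⁻¹)) +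
      2 * (T ^ 3)⁻¹ = (2 * (4 * a + 4 + n + (n + M : ℕ) * a) + 2) / T ^ 3 := by
      field_simp
    rw [e6, div_le_iff₀ hT3]
    refine e5.trans ?_
    calc (2 * (4 * A + 4 + (4 * B * 17 + 1) + ((4 * B * 17 + 1) + 4) * A) + 2) * T ^ 2 ≤ (T / 4) * T ^ 2 := by gcongr
      _ = 1 / 4 * T ^ 3 := by ring
  have N3 : n * epsi T a b h E0 n M * S0 < 1 := by
    have f1 : 82944 * S0 ≤ Real.exp c0 := by
      have := Real.add_one_le_exp c0
      rw [hc0d] at this ⊢
      linarith
    have f2 : (a + 1) ^ 2 ≤ Real.exp (2 * a) := by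
      have := Real.add_one_le_exp a
      calc (a + 1) ^ 2 ≤ Real.exp a ^ 2 := by gcongr
        _ = _ := by
          rw [← Real.exp_nat_mul]
          norm_num
    have f3 : 1 / E0 ^ 2 ≤ Real.exp (c * T) := by
      have e1 : 1 / E0 ^ 2 = Real.exp (2 * (c * T / l)) := by
        rw [hE0, ← Real.exp_nat_mul, one_div, ← Real.exp_neg]
        congr 1
        push_cast
        ring
      rw [e1]
      apply Real.exp_le_exp.mpr
      rw [← mul_div_assoc, div_le_iff₀ hl0]
      exact ar10 (by positivity) hl2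
    have f4 : (1 / 4 : ℝ) ^ M ≤ Real.exp (-M) := by
      have e1 : (1 / 4 : ℝ) ≤ Real.exp (-1) := by
        rw [Real.exp_neg, one_div]
        exact inv_anti₀ (Real.exp_pos 1) (by linarith [Real.exp_one_lt_d9])
      calc (1 / 4 : ℝ) ^ M ≤ Real.exp (-1) ^ M := by gcongr
        _ = _ := by
          rw [← Real.exp_nat_mul]
          congr 1
          ring
    have f5 : (16 * T) ^ 6 ≤ Real.exp (6 * l) := by
      have e1 : 16 * T ≤ Real.exp l := by
        rw [hl, Real.exp_log (by positivity)]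
        linarith
      calc (16 * T) ^ 6 ≤ Real.exp l ^ 6 := by gcongr
        _ = _ := by
          rw [← Real.exp_nat_mul]
          norm_num
    have f6 : (n : ℝ) ≤ Real.exp (2 * l) := by
      have e2 : (0 : ℝ) < n := by exact_mod_cast hnpos
      rw [← Real.exp_log e2]
      exact Real.exp_le_exp.mpr hlogn
    have hh2 : h + 1 ≤ 2 * l ^ 3 := by
      rw [hh] at hh8 ⊢
      linarith
    have hl1l : 1 + l ≤ 2 * l := by linarith
    have f7 : Ea T b (Real.exp (-(12 * b * Real.log T)) * E0) h ≤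
        4 * B * c * T + (4 * B * (2 + 12 * B) + 8 * B + 8 * B) * l ^ 5 := by
      unfold Ea
      set rm := Real.exp (-(12 * b * Real.log T)) * E0 with hrm
      have hrm0 : 0 < rm := by positivity
      have hrm1 : rm ≤ 1 := by
        rw [hrm]
        refine mul_le_one₀ (Real.exp_le_one_iff.mpr ?_) hE00.le hE01
        have : 0 ≤ 12 * b * Real.log T := by positivity
        linarith
      have e1 : Real.log (1 + (h + 1) / rm) ≤ (h + 1) + 12 * B * l ^ 2 + c * T / l := by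
        have e2 : 1 + (h + 1) / rm ≤ (h + 2) / rm := by
          rw [le_div_iff₀ hrm0, add_mul, one_mul, div_mul_cancel₀ _ hrm0.ne']
          linarith
        have e3 : Real.log rm = -(12 * b * Real.log T) - c * T / l := by
          rw [hrm, Real.log_mul (Real.exp_pos _).ne' hE00.ne', Real.log_exp, hE0, Real.log_exp]
          ring
        have e4 : Real.log (h + 2) ≤ h + 1 := by
          have := Real.log_le_sub_one_of_pos (show 0 < h + 2 by linarith)
          linarith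
        have e5 : 12 * b * Real.log T ≤ 12 * B * l ^ 2 := by
          rw [hb]
          calc 12 * (B * l) * Real.log T ≤ 12 * (B * l) * l := by gcongr
            _ = _ := by ring
        calc Real.log (1 + (h + 1) / rm) ≤ Real.log ((h + 2) / rm) :=
              Real.log_le_log (by positivity) e2
          _ = Real.log (h + 2) - Real.log rm := Real.log_div (by linarith) hrm0.ne'
          _ ≤ _ := by
            rw [e3]
            linarith
      have e6 : 4 * b * (Real.log (1 + (h + 1) / rm) + (h + 1) * (1 + Real.log (17 * T))) ≤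
          4 * (B * l) * (((h + 1) + 12 * B * l ^ 2 + c * T / l) + (h + 1) * (1 + l)) := by
        rw [← hb, ← hl]
        gcongr
      refine e6.trans ?_
      have e7 : 4 * (B * l) * (c * T / l) = 4 * B * c * T := by
        field_simp
      have e8 : 4 * (B * l) * ((h + 1) + 12 * B * l ^ 2) ≤ (4 * B * (2 + 12 * B)) * l ^ 5 := by
        have e9 : l ^ 2 ≤ l ^ 4 := pow_le_pow_right₀ (by linarith) (by norm_num)
        have e10 : l ^ 3 ≤ l ^ 4 := pow_le_pow_right₀ (by linarith) (by norm_num)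
        calc 4 * (B * l) * ((h + 1) + 12 * B * l ^ 2) ≤ 4 * (B * l) * (2 * l ^ 4 + 12 * B * l ^ 4) := by
              have : 0 ≤ B := hB.le
              gcongr
              linarith
          _ = _ := by ring
      have e11 : 4 * (B * l) * ((h + 1) * (1 + l)) ≤ (8 * B + 8 * B) * l ^ 5 := by
        calc 4 * (B * l) * ((h + 1) * (1 + l)) ≤ 4 * (B * l) * ((2 * l ^ 3) * (2 * l)) := by gcongr
          _ = _ := by ring
      calc 4 * (B * l) * (((h + 1) + 12 * B * l ^ 2 + c * T / l) + (h + 1) * (1 + l)) =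
          4 * (B * l) * (c * T / l) + 4 * (B * l) * ((h + 1) + 12 * B * l ^ 2) +
            4 * (B * l) * ((h + 1) * (1 + l)) := by ring
        _ ≤ 4 * B * c * T + (4 * B * (2 + 12 * B)) * l ^ 5 + (8 * B + 8 * B) * l ^ 5 := by
            rw [e7]
            gcongr
        _ = _ := by ring
    have f8 : Eb a h n ≤ (2 * (2 * A) * 7) * l ^ 5 := by
      unfold Eb
      have e1 : 2 * a / Real.pi ≤ 2 * A * l := by
        rw [div_le_iff₀ hpi]
        exact ar11 haA (by positivity)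
      have e2 : 3 + 2 * Real.log n ≤ 7 * l := by linarith
      have e3 : 0 ≤ 3 + 2 * Real.log n := by
        have : 0 ≤ Real.log n := Real.log_nonneg (by exact_mod_cast hnpos)
        linarith
      calc (h + 1) * (2 * a / Real.pi) * (3 + 2 * Real.log n) ≤ (2 * l ^ 3) * (2 * A * l) * (7 * l) := by gcongr
        _ = _ := by ring
    have f9 : (1 + 8 * B) * c ≤ 1 := by
      rw [hc, mul_one_div, div_le_one (by positivity)]
      linarith
    have hS0' : n * epsi T a b h E0 n M * S0 ≤ Real.exp (2 * l) * (Real.exp c0 * Real.exp (2 * a) * Real.exp a *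
        Real.exp (c * T) * Real.exp (2 * (Ea T b (Real.exp (-(12 * b * Real.log T)) * E0) h + Eb a h n)) *
        Real.exp (-M) * Real.exp (6 * l)) := by
      unfold epsi
      calc n * (82944 * (a + 1) ^ 2 * Real.exp a * (1 / E0 ^ 2) *
          Real.exp (2 * (Ea T b (Real.exp (-(12 * b * Real.log T)) * E0) h + Eb a h n)) * (1 / 4) ^ M * (16 * T) ^ 6) * S0 =
          n * ((82944 * S0) * (a + 1) ^ 2 * Real.exp a * (1 / E0 ^ 2) *
          Real.exp (2 * (Ea T b (Real.exp (-(12 * b * Real.log T)) * E0) h + Eb a h n)) * (1 / 4) ^ M * (16 * T) ^ 6) := by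
            ring
        _ ≤ _ := by gcongr
    refine lt_of_le_of_lt hS0' ?_
    simp only [← Real.exp_add]
    rw [Real.exp_lt_one_iff]
    have e1 : a ≤ A * l ^ 5 := haA.trans (by
      have := hll 1 (by norm_num)
      rw [pow_one] at this
      gcongr)
    have e2 : l ≤ l ^ 5 := by
      have := hll 1 (by norm_num)
      simpa using this
    have e3 : c0 ≤ c0 * l ^ 5 := le_mul_of_one_le_right (by linarith) hl5
    have e4 : c * T + 8 * B * c * T ≤ T := by
      have := mul_le_mul_of_nonneg_right f9 hT0.le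
      linarith
    have e5 : 0 ≤ (2 * A * 2 + A * 8 + 16 * B * 17 + 63) * l ^ 5 := by positivity
    linarith
  obtain ⟨R, hR1, hR2⟩ := multi' C ha1 huc hb0 (by linarith) (by positivity) hE00 hE01 hwin hmid hn1 hnpos hM3 N2 N3
    W hW hsep
  refine ⟨R, fun i hi => ?_, hR2⟩
  obtain ⟨g, q1, q2, q3⟩ := hR1 i hi
  refine ⟨g, q1, fun x hx => q2 x fun hx' => hx ?_, q3⟩
  have e1 : a + 1 / 4 / T ≤ (Real.log T + (Real.log 17 + C1 + 5)) / 2 := by
    have e2 : l = Real.log 17 + Real.log T := Real.log_mul (by norm_num) hT0.ne'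
    have e3 : 1 / 4 / T ≤ 1 / 2 := by
      rw [div_le_iff₀ hT0]
      linarith
    rw [ha, e2]
    linarith
  exact ⟨by linarith [hx'.1], by linarith [hx'.2]⟩

end Pool.Agent.Helper76.EW
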