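import Pool.Agent.Helper76.EW.Upper
import Pool.Agent.Helper76.LW.Tail

set_option autoImplicit false

/-!
# Bounds for the test function at the point and far away
-/

namespace Pool.Agent.Helper76.EW

open Complex Filter Topology Set MeasureTheory
open scoped ComplexConjugate ContDiff
open Pool.Agent.Helper76.LW

variable {a y : ℝ} {F : ℂ → ℂ} {ι : Type*} {u : ι → ℂ} {m : ι → ℝ}

/-- the first error exponent -/
noncomputable def Ea (T b ro h : ℝ) : ℝ :=
  4 * b * (Real.log (1 + (h + 1) / ro) + (h + 1) * (1 + Real.log (17 * T)))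

/-- the second error exponent -/
noncomputable def Eb (a h : ℝ) (n : ℕ) : ℝ := (h + 1) * (2 * a / Real.pi) * (3 + 2 * Real.log n)

/-- the factor of the test function -/
noncomputable def PP (T : ℝ) (α p : ℂ) (h : ℝ) (u : ι → ℂ) (S : Finset ι) (z : ℂ) : ℂ :=
  EE (z / T) * ((lin α p h).eval z * ∏ i ∈ S, (z - u i))

lemma PP_cont (T : ℝ) (α p : ℂ) (h : ℝ) (S : Finset ι) : Continuous (PP T α p h u S) := by
  unfold PP
  refine Continuous.mul ?_ (Continuous.mul (Polynomial.continuous _) ?_)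
  · exact PW_EE.cont.comp (by fun_prop)
  · exact continuous_finsetProd _ fun k _ => by fun_prop

/-- the set of removed zeros -/
lemma prod_split {κ : ι → ℤ} {S : Finset ι} {E : Finset ℤ} [DecidableEq ι] (hinj : Set.InjOn κ S)
    (hd : Disjoint (S.image κ) E) (f : ℤ → ℝ) (k1 : ℤ) (hk1 : k1 ∉ E) :
    ∏ k ∈ (S.image κ ∪ E).erase k1, f k = (∏ i ∈ S.filter (fun i => κ i ≠ k1), f (κ i)) * ∏ k ∈ E, f k := by
  rw [Finset.erase_union_distrib, Finset.erase_eq_of_notMem hk1,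
    Finset.prod_union (hd.mono_left (Finset.erase_subset _ _))]
  congr 1
  have : (S.image κ).erase k1 = (S.filter (fun i => κ i ≠ k1)).image κ := by
    ext k
    simp only [Finset.mem_erase, Finset.mem_image, Finset.mem_filter]
    constructor
    · rintro ⟨h1, i, hi, rfl⟩
      exact ⟨i, ⟨hi, h1⟩, rfl⟩
    · rintro ⟨i, ⟨hi, h1⟩, rfl⟩
      exact ⟨h1, i, hi, rfl⟩
  rw [this, Finset.prod_image]
  intro i hi j hj hij
  rw [Finset.mem_coe, Finset.mem_filter] at hi hj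
  exact hinj (Finset.mem_coe.mpr hi.1) (Finset.mem_coe.mpr hj.1) hij

lemma prod_split' {κ : ι → ℤ} {S : Finset ι} {E : Finset ℤ} [DecidableEq ι] (hinj : Set.InjOn κ S)
    (hd : Disjoint (S.image κ) E) (f : ℤ → ℝ) :
    ∏ k ∈ S.image κ ∪ E, f k = (∏ i ∈ S, f (κ i)) * ∏ k ∈ E, f k := by
  rw [Finset.prod_union hd, Finset.prod_image]
  intro i hi j hj hij
  exact hinj (Finset.mem_coe.mpr hi) (Finset.mem_coe.mpr hj) hij

/-- the test function far away -/
lemma far_bound [DecidableEq ι] (ha : 1 ≤ a) {T h h0 : ℝ} (hT : 2 ≤ T) (hh : 0 ≤ h) {α p : ℂ} (S : Finset ι) (κ : ι → ℤ)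
    (hinj : Set.InjOn κ S) (hm : ∀ i ∈ S, |(u i).im - el a y (κ i)| ≤ h) (hre : ∀ i, |(u i).re| < 1 / 2)
    (hS : ∀ i ∈ S, |(u i).im| ≤ 16 * T) {n : ℕ} (hn : S.card ≤ n) (hn1 : 1 ≤ n)
    (E : Finset ℤ) (hE : ∀ k ∈ E, |el a y k| ≤ 4 * T) (hd : Disjoint (S.image κ) E)
    (hF : Continuous F)
    (hid : ∀ z, (∏ k ∈ S.image κ ∪ E, (z - lam a y k)) * F z = cc a y z * PP T α p h0 u S z)
    {v : ℂ} (hv : |v.re| < 1 / 2) (hvT : 16 * T ≤ |v.im|) :
    ‖F v‖ * (3 / 4 * |v.im|) ^ E.card ≤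
      12 * (a + 1) * Real.exp (a / 2) * |v.im| * ‖(lin α p h0).eval v‖ * Real.exp (Eb a h n) := by
  have ha0 : 0 < a := by linarith
  have hT0 : 0 < T := by linarith
  set Y := |v.im| with hY
  have hY0 : 0 < Y := by linarith
  set k1 := near a y v.im with hk1
  have hk1E : k1 ∉ E := by
    intro hk
    have h1 := hE k1 hk
    have h2 := near_dist (y := y) ha0 v.im
    rw [← hk1] at h2
    have h3 : Real.pi / (2 * a) ≤ 2 := by
      rw [div_le_iff₀ (by positivity)]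
      have := Real.pi_le_four
      linarith
    have h4 : |v.im| ≤ |v.im - el a y k1| + |el a y k1| := by
      calc |v.im| = |(v.im - el a y k1) + el a y k1| := by ring_nf
        _ ≤ _ := abs_add_le _ _
    linarith
  have h1 := upper_bound ha0 hF (PP_cont T α p h0 S) hid k1 hv
  rw [prod_split hinj hd _ k1 hk1E] at h1
  set S' := S.filter (fun i => κ i ≠ k1) with hS'
  have hA0 : 0 < ∏ i ∈ S', ‖v - lam a y (κ i)‖ := by
    refine Finset.prod_pos fun i hi => ?_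
    rw [hS', Finset.mem_filter] at hi
    exact ne_lam ha0 hi.2
  have h2 : (3 / 4 * Y) ^ E.card ≤ ∏ k ∈ E, ‖v - lam a y k‖ := by
    rw [← Finset.prod_const]
    refine Finset.prod_le_prod (fun k _ => by positivity) fun k hk => ?_
    have h3 := Complex.abs_im_le_norm (v - lam a y k)
    rw [Complex.sub_im, lam_im] at h3
    have h4 := hE k hk
    have h5 : |v.im| ≤ |v.im - el a y k| + |el a y k| := by
      calc |v.im| = |(v.im - el a y k) + el a y k| := by ring_nf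
        _ ≤ _ := abs_add_le _ _
    linarith
  have h3 : ‖PP T α p h0 u S v‖ ≤ 2 * (‖(lin α p h0).eval v‖ * ((Real.exp (Eb a h n) *
      ∏ i ∈ S', ‖v - lam a y (κ i)‖) * (3 * Y))) := by
    unfold PP
    rw [norm_mul, norm_mul, norm_prod]
    have e1 : ‖EE (v / T)‖ ≤ 2 := by
      apply EE_le
      have : (v / (T : ℂ)).re = v.re / T := by simp
      rw [this, abs_div, abs_of_pos hT0, div_le_iff₀ hT0]
      linarith
    have e2 : ∏ i ∈ S, ‖v - u i‖ ≤ (Real.exp (Eb a h n) * ∏ i ∈ S', ‖v - lam a y (κ i)‖) * (3 * Y) := by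
      rw [← Finset.prod_filter_mul_prod_filter_not S (fun i => κ i ≠ k1)]
      have e3 := matched_upper (y := y) ha0 hh S κ hinj hm hre (v := v) hn hn1
      have e4 : ∏ i ∈ S.filter (fun i => ¬ κ i ≠ k1), ‖v - u i‖ ≤ 3 * Y := by
        have e5 : ∏ i ∈ S.filter (fun i => ¬ κ i ≠ k1), ‖v - u i‖ ≤
            ∏ _i ∈ S.filter (fun i => ¬ κ i ≠ k1), (3 * Y) := by
          refine Finset.prod_le_prod (fun i _ => norm_nonneg _) fun i hi => ?_
          exact norm_sub_le_three hv (hre i) hT hvT (hS i (Finset.mem_filter.mp hi).1)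
        refine e5.trans ?_
        rw [Finset.prod_const]
        have e6 : (S.filter (fun i => ¬ κ i ≠ k1)).card ≤ 1 := by
          rw [Finset.card_le_one]
          intro i hi j hj
          rw [Finset.mem_filter, not_not] at hi hj
          exact hinj (Finset.mem_coe.mpr hi.1) (Finset.mem_coe.mpr hj.1) (hi.2.trans hj.2.symm)
        calc (3 * Y) ^ (S.filter (fun i => ¬ κ i ≠ k1)).card ≤ (3 * Y) ^ 1 :=
              pow_le_pow_right₀ (by linarith) e6
          _ = 3 * Y := pow_one _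
      have e7 : 0 ≤ ∏ i ∈ S.filter (fun i => ¬ κ i ≠ k1), ‖v - u i‖ := Finset.prod_nonneg fun i _ => norm_nonneg _
      refine mul_le_mul e3 e4 e7 (by positivity)
    have e8 : 0 ≤ ∏ i ∈ S, ‖v - u i‖ := Finset.prod_nonneg fun i _ => norm_nonneg _
    gcongr
  have h4 : (∏ i ∈ S', ‖v - lam a y (κ i)‖) * (‖F v‖ * (3 / 4 * Y) ^ E.card) ≤
      (∏ i ∈ S', ‖v - lam a y (κ i)‖) *
        (12 * (a + 1) * Real.exp (a / 2) * Y * ‖(lin α p h0).eval v‖ * Real.exp (Eb a h n)) := by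
    calc (∏ i ∈ S', ‖v - lam a y (κ i)‖) * (‖F v‖ * (3 / 4 * Y) ^ E.card) ≤
        (∏ i ∈ S', ‖v - lam a y (κ i)‖) * (‖F v‖ * ∏ k ∈ E, ‖v - lam a y k‖) := by gcongr
      _ = ‖F v‖ * ((∏ i ∈ S', ‖v - lam a y (κ i)‖) * ∏ k ∈ E, ‖v - lam a y k‖) := by ring
      _ ≤ 2 * (a + 1) * Real.exp (a / 2) * ‖PP T α p h0 u S v‖ := h1
      _ ≤ 2 * (a + 1) * Real.exp (a / 2) * (2 * (‖(lin α p h0).eval v‖ * ((Real.exp (Eb a h n) *
          ∏ i ∈ S', ‖v - lam a y (κ i)‖) * (3 * Y)))) := by gcongr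
      _ = _ := by ring
  exact le_of_mul_le_mul_left h4 hA0

/-- zeros of the test function -/
lemma zero_at [DecidableEq ι] (ha : 0 < a) {T h0 : ℝ} {α p : ℂ} (S : Finset ι) (K : Finset ℤ)
    (hre : ∀ i, |(u i).re| < 1 / 2) (hF : Continuous F)
    (hid : ∀ z, (∏ k ∈ K, (z - lam a y k)) * F z = cc a y z * PP T α p h0 u S z) {i : ι} (hi : i ∈ S) :
    F (u i) = 0 := by
  have h1 := upper_bound ha hF (PP_cont T α p h0 S) hid (near a y (u i).im) (hre i)
  have h2 : PP T α p h0 u S (u i) = 0 := by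
    unfold PP
    rw [Finset.prod_eq_zero hi (sub_self _), mul_zero, mul_zero]
  rw [h2, norm_zero, mul_zero] at h1
  have h3 : 0 < ∏ k ∈ K.erase (near a y (u i).im), ‖u i - lam a y k‖ := by
    refine Finset.prod_pos fun k hk => ?_
    exact ne_lam ha (Finset.ne_of_mem_erase hk)
  have h4 := norm_nonneg (F (u i))
  have h5 : ‖F (u i)‖ = 0 := by
    by_contra h6
    have : 0 < ‖F (u i)‖ := lt_of_le_of_ne h4 (Ne.symm h6)
    have := mul_pos this h3
    linarith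
  exact norm_eq_zero.mp h5

lemma cc_real {q : ℂ} (hq : q.im = y) : cc a y q = ((Real.cosh (a * q.re) : ℝ) : ℂ) := by
  unfold cc
  have : (a : ℂ) * (q - y * I) = ((a * q.re : ℝ) : ℂ) := by
    apply Complex.ext
    · simp
    · simp [hq]
  rw [this, Complex.ofReal_cosh]

lemma one_le_cc {q : ℂ} (hq : q.im = y) : 1 ≤ ‖cc a y q‖ := by
  rw [cc_real hq, Complex.norm_real, Real.norm_of_nonneg (Real.cosh_pos _).le]
  exact Real.one_le_cosh _

lemma EE_ge {T : ℝ} (hT : 2 ≤ T) {q : ℂ} (h1 : |q.re| < 1 / 2) (h2 : |q.im| ≤ T) : 1 / 4 ≤ ‖EE (q / T)‖ := by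
  have hT0 : 0 < T := by linarith
  have h3 : ‖q / (T : ℂ)‖ ≤ 5 / 4 := by
    rw [norm_div, Complex.norm_real, Real.norm_of_nonneg hT0.le, div_le_iff₀ hT0]
    have := Complex.norm_le_abs_re_add_abs_im q
    linarith
  have h4 := EE_near_one (z := q / (T : ℂ)) (by linarith)
  have h5 : 1 ≤ ‖EE (q / (T : ℂ))‖ + ‖EE (q / (T : ℂ)) - 1‖ := by
    calc (1 : ℝ) = ‖(1 : ℂ)‖ := by simp
      _ = ‖EE (q / (T : ℂ)) - (EE (q / (T : ℂ)) - 1)‖ := by ring_nf
      _ ≤ _ := norm_sub_le _ _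
  linarith

/-- the test function at the point -/
lemma lower_at [DecidableEq ι] (C : Cf u m) {T b ro h h0 : ℝ} (huc : UC u T b) (hb : 0 ≤ b) (hT : 2 ≤ T)
    (hy : |y| ≤ T) (hro : 0 < ro) (hh : 0 ≤ h) {α p : ℂ} (S : Finset ι) (κ : ι → ℤ) (hinj : Set.InjOn κ S)
    (hm : ∀ i ∈ S, |(u i).im - el a y (κ i)| ≤ h)
    (E : Finset ℤ) (hE : ∀ k ∈ E, |el a y k| ≤ 4 * T) (hd : Disjoint (S.image κ) E)
    (hid : ∀ z, (∏ k ∈ S.image κ ∪ E, (z - lam a y k)) * F z = cc a y z * PP T α p h0 u S z)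
    {q : ℂ} (hq : q.im = y) (hq2 : |q.re| < 1 / 2) (hlin : ‖(lin α p h0).eval q‖ = 1)
    (hS : ∀ i ∈ S, |(u i).im| ≤ 16 * T ∧ ro ≤ ‖q - u i‖ ∧ |(u i).im - y| ≤ ‖q - u i‖) :
    Real.exp (-(Ea T b ro h)) / (4 * (5 * T + 1) ^ E.card) ≤ ‖F q‖ := by
  have h1 := congrArg norm (hid q)
  rw [norm_mul, norm_mul, norm_prod, prod_split' hinj hd] at h1
  have h2 := matched_lower C huc hb hT hy hro hh S κ hm q hS
  have h3 : ∏ k ∈ E, ‖q - lam a y k‖ ≤ (5 * T + 1) ^ E.card := by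
    rw [← Finset.prod_const]
    refine Finset.prod_le_prod (fun k _ => norm_nonneg _) fun k hk => ?_
    refine (Complex.norm_le_abs_re_add_abs_im _).trans ?_
    rw [Complex.sub_re, Complex.sub_im, lam_re, lam_im, sub_zero, hq]
    have h4 := hE k hk
    have h5 : |y - el a y k| ≤ |y| + |el a y k| := abs_sub _ _
    linarith
  set PS := ∏ i ∈ S, ‖q - u i‖ with hPS
  have hPS0 : 0 < PS := Finset.prod_pos fun i hi => hro.trans_le (hS i hi).2.1
  have h4 : 1 / 4 * PS ≤ ‖cc a y q‖ * ‖PP T α p h0 u S q‖ := by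
    unfold PP
    rw [norm_mul, norm_mul, norm_prod, hlin, one_mul, ← hPS]
    have e1 := one_le_cc (a := a) hq
    have e2 := EE_ge hT hq2 (by rw [hq]; exact hy)
    calc 1 / 4 * PS = 1 * (1 / 4 * PS) := by ring
      _ ≤ _ := by gcongr
  have h5 : 1 / 4 * PS ≤ (Real.exp (Ea T b ro h) * PS * (5 * T + 1) ^ E.card) * ‖F q‖ := by
    refine h4.trans ?_
    rw [← h1]
    have e1 : 0 ≤ ∏ k ∈ E, ‖q - lam a y k‖ := Finset.prod_nonneg fun _ _ => norm_nonneg _
    have e2 : (∏ i ∈ S, ‖q - lam a y (κ i)‖) * ∏ k ∈ E, ‖q - lam a y k‖ ≤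
        Real.exp (Ea T b ro h) * PS * (5 * T + 1) ^ E.card := by
      unfold Ea
      refine mul_le_mul h2 h3 e1 (by positivity)
    gcongr
  have hT5 : 0 < (5 * T + 1) ^ E.card := by positivity
  rw [div_le_iff₀ (by positivity), Real.exp_neg, inv_le_iff_one_le_mul₀ (Real.exp_pos _)]
  have h6 : PS * (1 / 4) ≤ PS * (Real.exp (Ea T b ro h) * (5 * T + 1) ^ E.card * ‖F q‖) := by
    calc PS * (1 / 4) = 1 / 4 * PS := by ring
      _ ≤ _ := h5
      _ = _ := by ring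
  have h7 := le_of_mul_le_mul_left h6 hPS0
  calc (1 : ℝ) = 4 * (1 / 4) := by norm_num
    _ ≤ 4 * (Real.exp (Ea T b ro h) * (5 * T + 1) ^ E.card * ‖F q‖) := by gcongr
    _ = _ := by ring

end Pool.Agent.Helper76.EW
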