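import Pool.Agent.Helper76.EW.Clus
import Pool.Agent.Helper76.LW.Main

set_option autoImplicit false

/-!
# The test function of one point off the line
-/

namespace Pool.Agent.Helper76.EW

open Complex Filter Topology Set MeasureTheory
open scoped ComplexConjugate ContDiff
open Pool.Agent.Helper76.LW

variable {a : ℝ} {ι : Type*} {u : ι → ℂ} {m : ι → ℝ}

/-- the size of the test function at far points -/
noncomputable def epsi (T a b h E0 : ℝ) (n M : ℕ) : ℝ :=
  82944 * (a + 1) ^ 2 * Real.exp a * (1 / E0 ^ 2) *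
    Real.exp (2 * (Ea T b (Real.exp (-(12 * b * Real.log T)) * E0) h + Eb a h n)) * (1 / 4) ^ M * (16 * T) ^ 6

lemma far_arith {T Y : ℝ} (hT : 2 ≤ T) (hY : 16 * T ≤ Y) {M : ℕ} (hM : 3 ≤ M) :
    Y ^ 4 * ((5 * T + 1) / (3 / 4 * Y)) ^ (2 * M) ≤ 4 * ((1 / 4) ^ M * (16 * T) ^ 6) / (1 + Y) ^ 2 := by
  have hY0 : 0 < Y := by linarith
  have h1 : (5 * T + 1) / (3 / 4 * Y) ≤ 1 / 2 * (16 * T / Y) := by
    rw [div_le_iff₀ (by positivity)]
    have : 1 / 2 * (16 * T / Y) * (3 / 4 * Y) = 6 * T := by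
      field_simp
      ring
    rw [this]
    linarith
  have h2 : (16 * T / Y) ≤ 1 := by
    rw [div_le_one hY0]
    exact hY
  have h3 : ((5 * T + 1) / (3 / 4 * Y)) ^ (2 * M) ≤ (1 / 4) ^ M * (16 * T / Y) ^ 6 := by
    calc ((5 * T + 1) / (3 / 4 * Y)) ^ (2 * M) ≤ (1 / 2 * (16 * T / Y)) ^ (2 * M) := by
          have : 0 ≤ (5 * T + 1) / (3 / 4 * Y) := by positivity
          gcongr
      _ = (1 / 4) ^ M * (16 * T / Y) ^ (2 * M) := by
          rw [mul_pow, pow_mul]
          norm_num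
      _ ≤ _ := by
          have h4 : (16 * T / Y) ^ (2 * M) ≤ (16 * T / Y) ^ 6 :=
            pow_le_pow_of_le_one (by positivity) h2 (by omega)
          gcongr
  have h5 : (1 + Y) ^ 2 ≤ 4 * Y ^ 2 := by
    have : 1 + Y ≤ 2 * Y := by linarith
    calc (1 + Y) ^ 2 ≤ (2 * Y) ^ 2 := by gcongr
      _ = _ := by ring
  calc Y ^ 4 * ((5 * T + 1) / (3 / 4 * Y)) ^ (2 * M) ≤ Y ^ 4 * ((1 / 4) ^ M * (16 * T / Y) ^ 6) := by gcongr
    _ = 4 * ((1 / 4) ^ M * (16 * T) ^ 6) / (4 * Y ^ 2) := by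
        field_simp
    _ ≤ _ := by gcongr

/-- the test function of one point -/
theorem single' (C : Cf u m) {T b h E0 : ℝ} {n M : ℕ} (ha : 1 ≤ a) (huc : UC u T b) (hb : 0 ≤ b) (hT : 2 ≤ T)
    (hh : 0 < h) (hE0 : 0 < E0) (hE1 : E0 ≤ 1)
    (hwin : ∀ (t : ℝ) (S : Finset ι), (∀ i ∈ S, |(u i).im| ≤ 16 * T ∧ t ≤ (u i).im ∧ (u i).im ≤ t + h) →
      (S.card : ℝ) ≤ h * a / Real.pi - 1)
    (hmid : ∀ S : Finset ι, (∀ i ∈ S, |(u i).im| ≤ 4 * T + h) → (S.card : ℝ) + M + 1 ≤ 8 * T * a / Real.pi)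
    (hn : 4 * b * (16 * T + 1) ≤ n) (hn1 : 1 ≤ n) (hM : 3 ≤ M)
    (N2 : 2 * (4 * (a * (T ^ 3)⁻¹) + 4 * (T ^ 3)⁻¹ + n * (T ^ 3)⁻¹ + (n + M : ℕ) * (a * (T ^ 3)⁻¹)) +
      2 * (T ^ 3)⁻¹ ≤ 1 / 4)
    (i0 : ι) (hy : |(u i0).im| ≤ T) (hhp : 4 * E0 ≤ (u i0).re) :
    ∃ (F : ℂ → ℂ) (ro : ℝ), PW (a + 1 / 4 / T) F ∧ 0 < ro ∧ ro ≤ E0 ∧
      (F (u i0) * conj (F (-conj (u i0)))).re = -1 ∧
      (∀ i, ‖u i - u i0‖ ≤ ro → (F (u i) * conj (F (-conj (u i)))).re ≤ 0) ∧
      (∀ i, |(u i).im| ≤ 16 * T → ro < ‖u i - u i0‖ → ro < ‖u i - (-conj (u i0))‖ → F (u i) = 0) ∧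
      (∀ v : ℂ, |v.re| < 1 / 2 → 16 * T < |v.im| → ‖F v‖ ^ 2 ≤ epsi T a b h E0 n M / (1 + |v.im|) ^ 2) := by
  classical
  set p := u i0 with hp
  set y := p.im with hydef
  set hp0 := p.re with hhdef
  have ha0 : 0 < a := by linarith
  have hT0 : 0 < T := by linarith
  have hpp0 : 0 < hp0 := by linarith
  have hpre : |p.re| < 1 / 2 := C.re_lt i0
  set η := (T ^ 3)⁻¹ with hη
  have hη0 : 0 < η := by positivity
  have hη1 : η ≤ 1 := by
    rw [hη]
    apply inv_le_one_of_one_le₀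
    exact one_le_pow₀ (by linarith)
  obtain ⟨k, hk, hann⟩ := huc.scale hT p hy hE0 hE1 hη0 hη1 (C.finite _)
  set ro := η ^ k * E0 with hro
  have hro0 : 0 < ro := by positivity
  have hroe : ro ≤ E0 := by
    rw [hro]
    exact mul_le_of_le_one_left hE0.le (pow_le_one₀ hη0.le hη1)
  have hroh : ro ≤ hp0 := by linarith
  have hann' : ∀ i, ‖u i - p‖ ≤ ro → ‖u i - p‖ ≤ η * ro := by
    intro i hi
    have := hann i hi
    rw [hro, ← mul_assoc, ← pow_succ']
    exact this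
  set S : Finset ι := (C.finite (16 * T)).toFinset.filter
    (fun i => ro < ‖u i - p‖ ∧ ro < ‖u i - (-conj p)‖) with hS
  have hSmem : ∀ i, i ∈ S ↔ |(u i).im| ≤ 16 * T ∧ ro < ‖u i - p‖ ∧ ro < ‖u i - (-conj p)‖ := by
    intro i
    rw [hS, Finset.mem_filter, Set.Finite.mem_toFinset]
    rfl
  have hS16 : ∀ i ∈ S, |(u i).im| ≤ 16 * T := fun i hi => ((hSmem i).mp hi).1
  have hcard : S.card ≤ n := by
    have := (huc.card_le hb hT S hS16).trans hn
    exact_mod_cast this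
  -- the matching
  obtain ⟨κ, hinj, hm⟩ := matching (y := y) ha0 hh S (fun i => (u i).im) (fun j S' hsub hS' =>
    hwin (j * h) S' fun i hi => ⟨hS16 i (hsub hi), hS' i hi⟩)
  -- the additional removed zeros
  obtain ⟨L, hL1, hL2⟩ := window_card (a := a) (y := y) ha0 (t := -(4 * T)) (h := 8 * T)
  obtain ⟨E, hEsub, hEcard⟩ : ∃ E ⊆ L \ S.image κ, E.card = M := by
    apply Finset.exists_subset_card_eq
    have h1 : (L ∩ S.image κ).card ≤ (S.filter fun i => |(u i).im| ≤ 4 * T + h).card := by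
      have hsub : L ∩ S.image κ ⊆ (S.filter fun i => |(u i).im| ≤ 4 * T + h).image κ := by
        intro k hk
        rw [Finset.mem_inter, Finset.mem_image] at hk
        obtain ⟨hkL, i, hi, rfl⟩ := hk
        rw [Finset.mem_image]
        refine ⟨i, Finset.mem_filter.mpr ⟨hi, ?_⟩, rfl⟩
        have h2 := (hL1 _).mp hkL
        have h3 := abs_le.mp (hm i hi)
        rw [abs_le]
        constructor <;> linarith [h2.1, h2.2, h3.1, h3.2]
      exact (Finset.card_le_card hsub).trans Finset.card_image_le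
    have h2 := hmid (S.filter fun i => |(u i).im| ≤ 4 * T + h) fun i hi => (Finset.mem_filter.mp hi).2
    have h3 : (L \ S.image κ).card + (L ∩ S.image κ).card = L.card := Finset.card_sdiff_add_card_inter _ _
    have h4 : ((L ∩ S.image κ).card : ℝ) ≤ ((S.filter fun i => |(u i).im| ≤ 4 * T + h).card : ℝ) := by
      exact_mod_cast h1
    have h5 : ((L \ S.image κ).card : ℝ) + ((L ∩ S.image κ).card : ℝ) = (L.card : ℝ) := by exact_mod_cast h3
    have h6 : (M : ℝ) ≤ ((L \ S.image κ).card : ℝ) := by linarith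
    exact_mod_cast h6
  have hE4 : ∀ k ∈ E, |el a y k| ≤ 4 * T := by
    intro k hk
    have h1 := (hL1 k).mp (Finset.mem_sdiff.mp (hEsub hk)).1
    rw [abs_le]
    constructor <;> linarith [h1.1, h1.2]
  have hdisj : Disjoint (S.image κ) E := by
    rw [Finset.disjoint_left]
    intro k hk hkE
    exact (Finset.mem_sdiff.mp (hEsub hkE)).2 hk
  set K := S.image κ ∪ E with hK
  have hKcard : K.card ≤ n + M := by
    rw [hK, ← hEcard]
    exact (Finset.card_union_le _ _).trans (Nat.add_le_add_right (Finset.card_image_le.trans hcard) _)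
  -- distances
  have hSp : ∀ i ∈ S, |(u i).im| ≤ 16 * T ∧ ro ≤ ‖p - u i‖ ∧ |(u i).im - y| ≤ ‖p - u i‖ := by
    intro i hi
    obtain ⟨h1, h2, -⟩ := (hSmem i).mp hi
    refine ⟨h1, by rw [norm_sub_rev]; exact h2.le, ?_⟩
    rw [norm_sub_rev, hydef, ← Complex.sub_im]
    exact Complex.abs_im_le_norm _
  have hSq : ∀ i ∈ S, |(u i).im| ≤ 16 * T ∧ ro ≤ ‖-conj p - u i‖ ∧ |(u i).im - y| ≤ ‖-conj p - u i‖ := by
    intro i hi
    obtain ⟨h1, -, h2⟩ := (hSmem i).mp hi
    refine ⟨h1, by rw [norm_sub_rev]; exact h2.le, ?_⟩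
    rw [norm_sub_rev, hydef]
    have h3 : (u i - -conj p).im = (u i).im - p.im := by
      simp
      ring
    rw [← h3]
    exact Complex.abs_im_le_norm _
  -- the function without the linear factor
  have hbase := PW_base ha0.le hT0 y
  obtain ⟨G0, hG0, hG0id⟩ := hbase.div_prod (by positivity) K (lam a y) ((lam_injective ha0).injOn) (fun k _ => by
    rw [cc_lam ha0, zero_mul])
  have hlinform : ∀ (α v : ℂ), (lin α p hp0).eval v =
      (α - 1) / (2 * hp0) * v + (α * conj p + p) / (2 * hp0) := by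
    intro α v
    rw [lin_eval]
    ring
  have hmk : ∀ α : ℂ, ∃ F, PW (a + 1 / 4 / T) F ∧
      ∀ z, (∏ k ∈ K, (z - lam a y k)) * F z = cc a y z * PP T α p hp0 u S z := by
    intro α
    refine ⟨_, ((hG0.mul_prod S u).mul_lin ((α - 1) / (2 * hp0)) ((α * conj p + p) / (2 * hp0))), fun z => ?_⟩
    show (∏ k ∈ K, (z - lam a y k)) * (((α - 1) / (2 * hp0) * z + (α * conj p + p) / (2 * hp0)) *
      ((∏ k ∈ S, (z - u k)) * G0 z)) = _
    rw [← hlinform]
    unfold PP
    have := hG0id z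
    linear_combination ((lin α p hp0).eval z * ∏ k ∈ S, (z - u k)) * this
  -- the value at the point without the linear factor
  have hppc : (hp0 : ℂ) ≠ 0 := by exact_mod_cast hpp0.ne'
  obtain ⟨F1, hF1, hF1id⟩ := hmk 1
  set W0 : ℂ := F1 p * conj (F1 (-conj p)) with hW0
  have hlow1 := lower_at C huc hb hT hy hro0 hh.le (α := 1) (p := p) (h0 := hp0) S κ hinj hm E hE4 hdisj hF1id
    (q := p) rfl hpre (by rw [lin_p hpp0 rfl, norm_one]) hSp
  have hlow2 := lower_at C huc hb hT hy hro0 hh.le (α := 1) (p := p) (h0 := hp0) S κ hinj hm E hE4 hdisj hF1id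
    (q := -conj p) (by simp [hydef]) (by simpa using hpre) (by rw [lin_p' hpp0 rfl, norm_one]) hSq
  rw [hEcard] at hlow1 hlow2
  set lw := Real.exp (-(Ea T b ro h)) / (4 * (5 * T + 1) ^ M) with hlw
  have hlw0 : 0 < lw := by positivity
  have hW0n : lw ^ 2 ≤ ‖W0‖ := by
    rw [hW0, norm_mul, Complex.norm_conj, sq]
    gcongr
  have hW00 : W0 ≠ 0 := by
    rw [← norm_pos_iff]
    exact lt_of_lt_of_le (by positivity) hW0n
  obtain ⟨α, hα, hαV⟩ := exists_unit hW00
  obtain ⟨F, hF, hFid⟩ := hmk α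
  -- values of `F` at the two points
  have hKp : ∀ q : ℂ, q.im = y → ∏ k ∈ K, (q - lam a y k) ≠ 0 := by
    intro q hq
    refine Finset.prod_ne_zero_iff.mpr fun k _ => ?_
    rw [← norm_pos_iff]
    exact lt_of_lt_of_le (by positivity) (lam_dist ha0 q hq k)
  have hFp : F p = α * F1 p := by
    have h1 := hFid p
    have h2 := hF1id p
    unfold PP at h1 h2
    rw [lin_p hpp0 rfl] at h1 h2
    apply mul_left_cancel₀ (hKp p rfl)
    linear_combination h1 - α * h2
  have hFq : F (-conj p) = F1 (-conj p) := by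
    have h1 := hFid (-conj p)
    have h2 := hF1id (-conj p)
    unfold PP at h1 h2
    rw [lin_p' hpp0 rfl] at h1 h2
    apply mul_left_cancel₀ (hKp (-conj p) (by simp [hydef]))
    linear_combination h1 - h2
  have hval : F p * conj (F (-conj p)) = -(‖W0‖ : ℂ) := by
    rw [hFp, hFq, ← hαV, hW0]
    ring
  -- near the point
  have hnear : ∀ i, ‖u i - p‖ ≤ ro → (F (u i) * conj (F (-conj (u i)))).re ≤ 0 := by
    intro i hi
    refine cluster ha hT hy S K hFid (y := y) rfl hpre hpp0 rfl hα hη0 hro0 hroh ?_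
      (fun j hj => ⟨(hSp j hj).2.1, (hSq j hj).2.1⟩) (norm_nonneg W0) hval (hann' i hi)
    refine le_trans ?_ N2
    have h1 : (S.card : ℝ) ≤ n := by exact_mod_cast hcard
    have h2 : (K.card : ℝ) ≤ (n + M : ℕ) := by exact_mod_cast hKcard
    have h3 : (K.card : ℝ) * (a * η) ≤ (n + M : ℕ) * (a * η) := by gcongr
    have h4 : (S.card : ℝ) * η ≤ n * η := by gcongr
    linarith
  -- normalisation
  have hWn : 0 < ‖W0‖ := norm_pos_iff.mpr hW00
  set c : ℂ := (((Real.sqrt ‖W0‖)⁻¹ : ℝ) : ℂ) with hc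
  have hcn : ‖c‖ ^ 2 = ‖W0‖⁻¹ := by
    rw [hc, Complex.norm_real, Real.norm_of_nonneg (by positivity), inv_pow, Real.sq_sqrt hWn.le]
  have hcc : ∀ v, (c * F v) * conj (c * F (-conj v)) = ((‖W0‖⁻¹ : ℝ) : ℂ) * (F v * conj (F (-conj v))) := by
    intro v
    rw [map_mul, ← hcn, ← Complex.normSq_eq_norm_sq, ← Complex.mul_conj]
    ring
  refine ⟨fun z => c * F z, ro, hF.smul c, hro0, hroe, ?_, ?_, ?_, ?_⟩
  · show ((c * F p) * conj (c * F (-conj p))).re = -1
    rw [hcc, hval, Complex.re_ofReal_mul, Complex.neg_re, Complex.ofReal_re]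
    field_simp
  · intro i hi
    show ((c * F (u i)) * conj (c * F (-conj (u i)))).re ≤ 0
    rw [hcc, Complex.re_ofReal_mul]
    exact mul_nonpos_of_nonneg_of_nonpos (by positivity) (hnear i hi)
  · intro i hi h1 h2
    show c * F (u i) = 0
    rw [zero_at ha0 S K C.re_lt hF.cont hFid ((hSmem i).mpr ⟨hi, h1, h2⟩), mul_zero]
  · intro v hv hvT
    show ‖c * F v‖ ^ 2 ≤ _
    have hY0 : 0 < |v.im| := by linarith
    have h1 := far_bound ha hT hh.le (α := α) (p := p) (h0 := hp0) S κ hinj hm C.re_lt hS16 hcard hn1 E hE4 hdisj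
      hF.cont hFid hv hvT.le
    rw [hEcard] at h1
    have hlinv : ‖(lin α p hp0).eval v‖ ≤ 3 * |v.im| / E0 := by
      have h3 := norm_le_half_add v hv
      have h4 := norm_le_half_add p hpre
      refine (lin_norm_le hpp0 hα (Y := 3 / 2 * |v.im|) (by linarith) (by linarith)).trans ?_
      rw [show 2 * (3 / 2 * |v.im|) = 3 * |v.im| by ring]
      gcongr
      linarith
    have hFv : ‖F v‖ ≤ 12 * (a + 1) * Real.exp (a / 2) * |v.im| * (3 * |v.im| / E0) * Real.exp (Eb a h n) /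
        (3 / 4 * |v.im|) ^ M := by
      rw [le_div_iff₀ (by positivity)]
      refine h1.trans ?_
      gcongr
    have hEa : Ea T b ro h ≤ Ea T b (Real.exp (-(12 * b * Real.log T)) * E0) h := by
      unfold Ea
      have h3 : Real.exp (-(12 * b * Real.log T)) * E0 ≤ ro := by
        rw [hro]
        have h4 : Real.exp (-(12 * b * Real.log T)) ≤ η ^ k := by
          have h5 : η ^ k = Real.exp (-(3 * k * Real.log T)) := by
            rw [hη, ← Real.exp_log hT0, ← Real.exp_nat_mul, ← Real.exp_neg, ← Real.exp_nat_mul, Real.exp_log hT0]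
            congr 1
            push_cast
            ring
          rw [h5]
          apply Real.exp_le_exp.mpr
          have h6 : 0 ≤ Real.log T := Real.log_nonneg (by linarith)
          have := mul_le_mul_of_nonneg_right hk h6
          nlinarith
        gcongr
      have h7 : 0 < Real.exp (-(12 * b * Real.log T)) * E0 := by positivity
      have h8 : (h + 1) / ro ≤ (h + 1) / (Real.exp (-(12 * b * Real.log T)) * E0) := by gcongr
      have h9 : 0 < 1 + (h + 1) / ro := by positivity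
      have h10 := Real.log_le_log h9 (by linarith : 1 + (h + 1) / ro ≤ 1 + (h + 1) / (Real.exp (-(12 * b * Real.log T)) * E0))
      have : 0 ≤ 4 * b := by positivity
      gcongr
    have hWinv : ‖W0‖⁻¹ ≤ 16 * Real.exp (2 * Ea T b ro h) * (5 * T + 1) ^ (2 * M) := by
      rw [inv_le_comm₀ hWn (by positivity)]
      refine le_trans (le_of_eq ?_) hW0n
      rw [hlw, div_pow, mul_pow, ← pow_mul, mul_comm M 2, ← Real.exp_nat_mul, inv_eq_one_div,
        div_eq_div_iff (by positivity) (by positivity)]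
      have : Real.exp (2 * Ea T b ro h) * Real.exp ((2 : ℕ) * -(Ea T b ro h)) = 1 := by
        rw [← Real.exp_add]
        push_cast
        rw [show 2 * Ea T b ro h + 2 * -(Ea T b ro h) = 0 by ring, Real.exp_zero]
      linear_combination (-(16 : ℝ) * (5 * T + 1) ^ (2 * M)) * this
    rw [norm_mul, mul_pow, hcn]
    calc ‖W0‖⁻¹ * ‖F v‖ ^ 2 ≤ (16 * Real.exp (2 * Ea T b ro h) * (5 * T + 1) ^ (2 * M)) *
        (12 * (a + 1) * Real.exp (a / 2) * |v.im| * (3 * |v.im| / E0) * Real.exp (Eb a h n) /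
        (3 / 4 * |v.im|) ^ M) ^ 2 := by gcongr
      _ = 20736 * (a + 1) ^ 2 * Real.exp a * (1 / E0 ^ 2) * Real.exp (2 * (Ea T b ro h + Eb a h n)) *
          (|v.im| ^ 4 * ((5 * T + 1) / (3 / 4 * |v.im|)) ^ (2 * M)) := by
        have e1 : Real.exp a = Real.exp (a / 2) ^ 2 := by
          rw [← Real.exp_nat_mul]
          congr 1
          push_cast
          ring
        have e2 : Real.exp (2 * (Ea T b ro h + Eb a h n)) = Real.exp (2 * Ea T b ro h) * Real.exp (Eb a h n) ^ 2 := by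
          rw [← Real.exp_nat_mul, ← Real.exp_add]
          congr 1
          push_cast
          ring
        rw [e1, e2, div_pow ((5 : ℝ) * T + 1), pow_mul (3 / 4 * |v.im|) 2 M, ← pow_mul (3 / 4 * |v.im|) 2 M,
          mul_comm 2 M, pow_mul (3 / 4 * |v.im|) M 2]
        field_simp
        ring
      _ ≤ 20736 * (a + 1) ^ 2 * Real.exp a * (1 / E0 ^ 2) *
          Real.exp (2 * (Ea T b (Real.exp (-(12 * b * Real.log T)) * E0) h + Eb a h n)) *
          (4 * ((1 / 4) ^ M * (16 * T) ^ 6) / (1 + |v.im|) ^ 2) := by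
        have := far_arith hT hvT.le hM
        gcongr
      _ = _ := by
        unfold epsi
        ring

end Pool.Agent.Helper76.EW
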