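import Pool.Agent.Helper76.EW.Param
import Pool.Agent.Helper76.LW.Zeta
import Pool.Graph.R_seed8.H965R2.SI.CountShort

set_option autoImplicit false

/-!
# The number of zeros of zeta in windows, from above
-/

namespace Pool.Agent.Helper76.EW

open Complex Filter Topology
open scoped ComplexConjugate
open Pool.Agent.V11271.LI
open Pool.Agent.Helper76.LW

/-- the number of distinct zeros in a short interval -/
lemma blk : ∃ C : ℝ, 0 < C ∧ ∀ T : ℝ, 10 ≤ T → ∀ H : ℝ, 3 ≤ H → H ≤ T → ∀ S : Finset Zr,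
    (∀ ρ ∈ S, T < (ρ : ℂ).im ∧ (ρ : ℂ).im ≤ T + H) →
    (S.card : ℝ) ≤ H * Real.log T / (2 * Real.pi) + C * (H + Real.log T ^ 2) := by
  obtain ⟨C, hC, h⟩ := H965SI.nn_asymp_short H370.good_zeta
  refine ⟨C, hC, fun T hT H hH3 hHT S hS => ?_⟩
  have h3 := h T hT H hH3 hHT T (T + H) le_rfl (by linarith) (by linarith) le_rfl
  have h4 := (abs_le.mp h3).2
  suffices hc : (S.card : ℝ) ≤ (H370.NN riemannZeta T (T + H) : ℝ) by linarith
  rw [H370.NN_eq_sum H370.good_zeta T (T + H) (by linarith)]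
  classical
  set Z := (H370.zset_finite H370.good_zeta T (T + H) (by linarith)).toFinset with hZ
  have hsub : S.image (fun ρ : Zr => (ρ : ℂ)) ⊆ Z := by
    intro s hs
    rw [Finset.mem_image] at hs
    obtain ⟨ρ, hρ, rfl⟩ := hs
    rw [hZ, Set.Finite.mem_toFinset]
    exact ⟨ρ.2.2.1, ρ.2.2.2, (hS ρ hρ).1, (hS ρ hρ).2, ρ.2.1⟩
  have hcard : (S.image (fun ρ : Zr => (ρ : ℂ))).card = S.card :=
    Finset.card_image_of_injective S Subtype.val_injective
  have h5 : (S.image (fun ρ : Zr => (ρ : ℂ))).card ≤ ∑ s ∈ Z, H370.mult riemannZeta s := by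
    calc (S.image (fun ρ : Zr => (ρ : ℂ))).card = ∑ s ∈ S.image (fun ρ : Zr => (ρ : ℂ)), 1 := by simp
      _ ≤ ∑ s ∈ S.image (fun ρ : Zr => (ρ : ℂ)), H370.mult riemannZeta s := by
          apply Finset.sum_le_sum
          intro s hs
          rw [Finset.mem_image] at hs
          obtain ⟨ρ, hρ, rfl⟩ := hs
          have := mm_one_le ρ
          unfold mm at this
          unfold H370.mult
          exact_mod_cast this
      _ ≤ ∑ s ∈ Z, H370.mult riemannZeta s := Finset.sum_le_sum_of_subset hsub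
  rw [← hcard]
  exact_mod_cast h5

/-- several blocks -/
lemma blks {C : ℝ} (hC : 0 < C) (hb : ∀ T : ℝ, 10 ≤ T → ∀ H : ℝ, 3 ≤ H → H ≤ T → ∀ S : Finset Zr,
    (∀ ρ ∈ S, T < (ρ : ℂ).im ∧ (ρ : ℂ).im ≤ T + H) →
    (S.card : ℝ) ≤ H * Real.log T / (2 * Real.pi) + C * (H + Real.log T ^ 2))
    {T l : ℝ} (hl : 10 ≤ l) (hlT : Real.log T ^ 2 ≤ l) :
    ∀ (n : ℕ) (a : ℝ), l ≤ a → a + n * l ≤ T + l → ∀ S : Finset Zr,
    (∀ ρ ∈ S, a < (ρ : ℂ).im ∧ (ρ : ℂ).im ≤ a + n * l) →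
    (S.card : ℝ) ≤ n * l * (Real.log T / (2 * Real.pi) + 2 * C) := by
  intro n
  induction n with
  | zero =>
    intro a ha haT S hS
    have : S = ∅ := by
      rw [Finset.eq_empty_iff_forall_notMem]
      intro ρ hρ
      have := hS ρ hρ
      simp at this
      linarith
    rw [this]
    simp
  | succ n ih =>
    intro a ha haT S hS
    classical
    push_cast at haT hS ⊢
    have hpi := Real.pi_pos
    have haT' : a ≤ T := by
      have : 0 ≤ (n : ℝ) * l := by positivity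
      linarith
    have h1 := hb a (by linarith) l (by linarith) ha (S.filter fun ρ => (ρ : ℂ).im ≤ a + l) (by
      intro ρ hρ
      rw [Finset.mem_filter] at hρ
      exact ⟨(hS ρ hρ.1).1, hρ.2⟩)
    have h2 := ih (a + l) (by linarith) (by linarith) (S.filter fun ρ => ¬ (ρ : ℂ).im ≤ a + l) (by
      intro ρ hρ
      rw [Finset.mem_filter, not_le] at hρ
      refine ⟨hρ.2, ?_⟩
      have := (hS ρ hρ.1).2
      linarith)
    have h3 := Finset.card_filter_add_card_filter_not (s := S) (fun ρ : Zr => (ρ : ℂ).im ≤ a + l)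
    have h4 : (S.card : ℝ) = ((S.filter fun ρ : Zr => (ρ : ℂ).im ≤ a + l).card : ℝ) +
        ((S.filter fun ρ : Zr => ¬ (ρ : ℂ).im ≤ a + l).card : ℝ) := by
      exact_mod_cast h3.symm
    have hla : Real.log a ≤ Real.log T := Real.log_le_log (by linarith) haT'
    have hla0 : 0 ≤ Real.log a := Real.log_nonneg (by linarith)
    have hla2 : Real.log a ^ 2 ≤ l := by
      refine le_trans ?_ hlT
      gcongr
    have h5 : l * Real.log a / (2 * Real.pi) + C * (l + Real.log a ^ 2) ≤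
        l * (Real.log T / (2 * Real.pi) + 2 * C) := by
      have e1 : l * Real.log a / (2 * Real.pi) ≤ l * Real.log T / (2 * Real.pi) := by
        gcongr
      have e2 : C * (l + Real.log a ^ 2) ≤ C * (l + l) := by gcongr
      have e3 : l * Real.log T / (2 * Real.pi) = l * (Real.log T / (2 * Real.pi)) := by ring
      linarith
    rw [h4]
    linarith

/-- half windows -/
lemma half_window {C : ℝ} (hC : 0 < C) (hb : ∀ T : ℝ, 10 ≤ T → ∀ H : ℝ, 3 ≤ H → H ≤ T → ∀ S : Finset Zr,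
    (∀ ρ ∈ S, T < (ρ : ℂ).im ∧ (ρ : ℂ).im ≤ T + H) →
    (S.card : ℝ) ≤ H * Real.log T / (2 * Real.pi) + C * (H + Real.log T ^ 2))
    {T l : ℝ} (hT : 1 ≤ T) (hl : 10 ≤ l) (hlT : Real.log T ^ 2 ≤ l) (t h : ℝ) (hh : 0 ≤ h) (htT : t + h ≤ T)
    (S : Finset Zr) (hS : ∀ ρ ∈ S, l + 1 < (ρ : ℂ).im ∧ t ≤ (ρ : ℂ).im ∧ (ρ : ℂ).im ≤ t + h) :
    (S.card : ℝ) ≤ (max 0 (t + h) - max 0 t + 1 + l) * (Real.log T / (2 * Real.pi) + 2 * C) := by
  have hpi := Real.pi_pos
  have hlog : 0 ≤ Real.log T := Real.log_nonneg hT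
  have hk : 0 ≤ Real.log T / (2 * Real.pi) + 2 * C := by positivity
  have hmm : max 0 t ≤ max 0 (t + h) := by
    apply max_le_max le_rfl
    linarith
  rcases S.eq_empty_or_nonempty with he | ⟨ρ0, hρ0⟩
  · rw [he]
    simp only [Finset.card_empty, Nat.cast_zero]
    apply mul_nonneg _ hk
    linarith
  have h0 := hS ρ0 hρ0
  have hth : l + 1 < t + h := by linarith
  obtain ⟨a, ha⟩ : ∃ a, a = max t (l + 1) := ⟨_, rfl⟩
  have ha1 : t ≤ a := by rw [ha]; exact le_max_left _ _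
  have ha2 : l + 1 ≤ a := by rw [ha]; exact le_max_right _ _
  have ha3 : max 0 t ≤ a := max_le (by linarith) ha1
  have ha4 : a ≤ t + h := by rw [ha]; exact max_le (by linarith) (by linarith)
  have hl0 : 0 < l := by linarith
  obtain ⟨n, hn⟩ : ∃ n : ℕ, n = ⌈(t + h - a + 1) / l⌉₊ := ⟨_, rfl⟩
  have hn1 : (t + h - a + 1) / l ≤ n := by rw [hn]; exact Nat.le_ceil _
  have hn2 : (n : ℝ) < (t + h - a + 1) / l + 1 := by
    rw [hn]
    apply Nat.ceil_lt_add_one
    apply div_nonneg _ hl0.le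
    linarith
  have hn1' : t + h - a + 1 ≤ n * l := by rwa [div_le_iff₀ hl0] at hn1
  have hn2' : (n : ℝ) * l ≤ (t + h - a + 1) + l := by
    have : (n : ℝ) * l ≤ ((t + h - a + 1) / l + 1) * l := by gcongr
    have e : ((t + h - a + 1) / l + 1) * l = (t + h - a + 1) + l := by field_simp
    linarith
  have h1 := blks hC hb hl hlT n (a - 1) (by linarith) (by linarith) S (by
    intro ρ hρ
    obtain ⟨g1, g2, g3⟩ := hS ρ hρ
    constructor
    · have : a ≤ (ρ : ℂ).im := by rw [ha]; exact max_le g2 g1.le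
      linarith
    · linarith)
  refine h1.trans ?_
  apply mul_le_mul_of_nonneg_right _ hk
  have : t + h ≤ max 0 (t + h) := le_max_right _ _
  linarith

/-- zeros of small height -/
lemma small_window {A : ℝ} (hA : 2 ≤ A) {B : ℝ} (hB : 0 < B)
    (hb : ∀ T : ℝ, 2 ≤ T → ∀ (a : ℝ) (S : Finset Zr),
    (∀ i ∈ S, a ≤ (zz i).im ∧ (zz i).im ≤ a + 1 ∧ |(zz i).im| ≤ 16 * T) →
    (S.card : ℝ) ≤ 2 * (B * Real.log T)) (S : Finset Zr) (hS : ∀ ρ ∈ S, |(ρ : ℂ).im| ≤ A) :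
    (S.card : ℝ) ≤ (2 * A + 2) * (2 * (B * Real.log A)) := by
  classical
  have hlog : 0 < Real.log A := Real.log_pos (by linarith)
  have hmap : ∀ ρ ∈ S, ⌊(ρ : ℂ).im⌋ ∈ Finset.Icc ⌊-A⌋ ⌊A⌋ := by
    intro ρ hρ
    have := abs_le.mp (hS ρ hρ)
    rw [Finset.mem_Icc]
    exact ⟨Int.floor_le_floor this.1, Int.floor_le_floor this.2⟩
  rw [Finset.card_eq_sum_card_fiberwise (f := fun ρ : Zr => ⌊(ρ : ℂ).im⌋) (t := Finset.Icc ⌊-A⌋ ⌊A⌋)
    (fun ρ hρ => hmap ρ hρ)]
  push_cast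
  have h1 : ∀ n ∈ Finset.Icc ⌊-A⌋ ⌊A⌋, ((S.filter fun ρ : Zr => ⌊(ρ : ℂ).im⌋ = n).card : ℝ) ≤
      2 * (B * Real.log A) := by
    intro n _
    apply hb A hA (n : ℝ)
    intro ρ hρ
    rw [Finset.mem_filter] at hρ
    have := hS ρ hρ.1
    rw [zz_im]
    refine ⟨?_, ?_, by linarith⟩
    · rw [← hρ.2]; exact Int.floor_le _
    · rw [← hρ.2]; exact (Int.lt_floor_add_one _).le
  refine (Finset.sum_le_card_nsmul _ _ _ h1).trans ?_
  rw [nsmul_eq_mul]
  apply mul_le_mul_of_nonneg_right _ (by positivity)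
  rw [Int.card_Icc]
  have h2 : ((⌊A⌋ + 1 - ⌊-A⌋).toNat : ℝ) = ((⌊A⌋ + 1 - ⌊-A⌋ : ℤ) : ℝ) := by
    have h3 : 0 ≤ ⌊A⌋ + 1 - ⌊-A⌋ := by
      have : ⌊-A⌋ ≤ ⌊A⌋ := Int.floor_le_floor (by linarith)
      linarith
    exact_mod_cast Int.toNat_of_nonneg h3
  rw [h2]
  push_cast
  have h4 := Int.floor_le A
  have h5 := Int.lt_floor_add_one (-A)
  linarith

/-- the upper density of the zeros of zeta -/
theorem ud_zeta : UD zz := by
  classical
  obtain ⟨C, hC, hb⟩ := blk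
  obtain ⟨B, hB, hu⟩ := cf_zeta.unit_count
  refine ⟨2 * Real.pi * (10 * C + 1 + 24 * B), Real.exp 4, by positivity, fun T hT h hh t ht htT S hS => ?_⟩
  have hpi := Real.pi_pos
  have hT1 : 1 ≤ T := le_trans (by rw [Real.one_le_exp_iff]; norm_num) hT
  obtain ⟨L, hL⟩ : ∃ L, L = Real.log T := ⟨_, rfl⟩
  have hL4 : 4 ≤ L := by
    rw [hL, Real.le_log_iff_exp_le (by linarith)]
    exact hT
  rw [← hL] at hh ⊢
  have hl : 10 ≤ L ^ 2 := by nlinarith
  have hh0 : 0 ≤ h := le_trans (by positivity) hh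
  have hlT : Real.log T ^ 2 ≤ L ^ 2 := by rw [hL]
  -- three parts
  set Sp := S.filter fun ρ : Zr => L ^ 2 + 1 < (ρ : ℂ).im with hSp
  set Sr := S.filter fun ρ : Zr => ¬ L ^ 2 + 1 < (ρ : ℂ).im with hSr
  set Sm := Sr.filter fun ρ : Zr => (ρ : ℂ).im < -(L ^ 2 + 1) with hSm
  set S0 := Sr.filter fun ρ : Zr => ¬ (ρ : ℂ).im < -(L ^ 2 + 1) with hS0
  have hc1 := Finset.card_filter_add_card_filter_not (s := S) (fun ρ : Zr => L ^ 2 + 1 < (ρ : ℂ).im)
  have hc2 := Finset.card_filter_add_card_filter_not (s := Sr) (fun ρ : Zr => (ρ : ℂ).im < -(L ^ 2 + 1))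
  have hc : (S.card : ℝ) = Sp.card + Sm.card + S0.card := by
    have : S.card = Sp.card + Sm.card + S0.card := by
      rw [← hSp, ← hSr] at hc1
      rw [← hSm, ← hS0] at hc2
      omega
    exact_mod_cast this
  have h1 := half_window hC hb hT1 hl hlT t h hh0 htT Sp (by
    intro ρ hρ
    rw [hSp, Finset.mem_filter] at hρ
    have := hS ρ hρ.1
    rw [zz_im] at this
    exact ⟨hρ.2, this.1, this.2⟩)
  have h2 := half_window hC hb hT1 hl hlT (-(t + h)) h hh0 (by linarith) (Sm.image conjE) (by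
    intro ρ hρ
    rw [Finset.mem_image] at hρ
    obtain ⟨ρ', hρ', rfl⟩ := hρ
    rw [hSm, Finset.mem_filter, hSr, Finset.mem_filter] at hρ'
    have h3 := hS ρ' hρ'.1.1
    rw [zz_im] at h3
    have h4 : ((conjE ρ' : Zr) : ℂ).im = -(ρ' : ℂ).im := by
      show (conj (ρ' : ℂ)).im = _
      rw [Complex.conj_im]
    rw [h4]
    refine ⟨by linarith [hρ'.2], by linarith, by linarith⟩)
  rw [Finset.card_image_of_injective _ conjE.injective] at h2
  have h3 := small_window (A := L ^ 2 + 1) (by linarith) hB hu S0 (by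
    intro ρ hρ
    rw [hS0, Finset.mem_filter, hSr, Finset.mem_filter] at hρ
    rw [abs_le]
    constructor <;> linarith [hρ.1.2, hρ.2])
  have hlogA : Real.log (L ^ 2 + 1) ≤ 2 * L := by
    have e1 : Real.log (L ^ 2 + 1) ≤ Real.log ((L + 1) ^ 2) := by
      apply Real.log_le_log (by positivity)
      nlinarith
    have e2 : Real.log ((L + 1) ^ 2) = 2 * Real.log (L + 1) := by
      rw [Real.log_pow]
      norm_num
    have e3 : Real.log (L + 1) ≤ L := by
      have := Real.log_le_sub_one_of_pos (show 0 < L + 1 by linarith)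
      linarith
    linarith
  have h3' : (S0.card : ℝ) ≤ 24 * B * h := by
    refine h3.trans ?_
    have e1 : (2 * (L ^ 2 + 1) + 2) * (2 * (B * Real.log (L ^ 2 + 1))) ≤
        (2 * (L ^ 2 + 1) + 2) * (2 * (B * (2 * L))) := by
      gcongr
    refine e1.trans ?_
    have e2 : (2 * (L ^ 2 + 1) + 2) * (2 * (B * (2 * L))) ≤ 24 * B * L ^ 3 := by
      have e3 : 2 * (L ^ 2 + 1) + 2 ≤ 3 * L ^ 2 := by nlinarith
      calc (2 * (L ^ 2 + 1) + 2) * (2 * (B * (2 * L))) ≤ (3 * L ^ 2) * (2 * (B * (2 * L))) := by gcongr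
        _ = 12 * B * L ^ 3 := by ring
        _ ≤ 24 * B * L ^ 3 := by
            gcongr
            norm_num
    refine e2.trans ?_
    gcongr
  have hmax : ∀ x : ℝ, max 0 x - max 0 (-x) = x := by
    intro x
    rcases le_total 0 x with hx | hx
    · rw [max_eq_right hx, max_eq_left (by linarith)]
      ring
    · rw [max_eq_left hx, max_eq_right (by linarith)]
      ring
  have hm1 := hmax (t + h)
  have hm2 := hmax t
  have hm3 : -(t + h) + h = -t := by ring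
  rw [hm3] at h2
  rw [← hL] at h1 h2
  have hk : 0 ≤ L / (2 * Real.pi) + 2 * C := by positivity
  have hsum : (Sp.card : ℝ) + Sm.card ≤ (h + 2 + 2 * L ^ 2) * (L / (2 * Real.pi) + 2 * C) := by
    have e : (max 0 (t + h) - max 0 t + 1 + L ^ 2) * (L / (2 * Real.pi) + 2 * C) +
        (max 0 (-t) - max 0 (-(t + h)) + 1 + L ^ 2) * (L / (2 * Real.pi) + 2 * C) =
        ((max 0 (t + h) - max 0 (-(t + h))) - (max 0 t - max 0 (-t)) + 2 + 2 * L ^ 2) *
        (L / (2 * Real.pi) + 2 * C) := by ring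
    rw [hm1, hm2] at e
    have e' : (t + h - t + 2 + 2 * L ^ 2) * (L / (2 * Real.pi) + 2 * C) =
      (h + 2 + 2 * L ^ 2) * (L / (2 * Real.pi) + 2 * C) := by ring
    linarith
  have hL3 : L ^ 2 ≤ L ^ 3 := pow_le_pow_right₀ (by linarith) (by norm_num)
  have hfin : (2 + 2 * L ^ 2) * (L / (2 * Real.pi) + 2 * C) ≤ h + 8 * C * h := by
    have e1 : 2 + 2 * L ^ 2 ≤ 4 * L ^ 2 := by nlinarith
    have e2 : L / (2 * Real.pi) ≤ L / 4 := by
      gcongr
      linarith [Real.pi_gt_three]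
    calc (2 + 2 * L ^ 2) * (L / (2 * Real.pi) + 2 * C) ≤ (4 * L ^ 2) * (L / 4 + 2 * C) := by gcongr
      _ = L ^ 3 + 8 * C * L ^ 2 := by ring
      _ ≤ h + 8 * C * h := by
          have e3 : L ^ 2 ≤ h := hL3.trans hh
          gcongr
  rw [hc]
  have hgoal : h * (L + 2 * Real.pi * (10 * C + 1 + 24 * B)) / (2 * Real.pi) =
      h * (L / (2 * Real.pi)) + (10 * C + 1 + 24 * B) * h := by
    field_simp
  rw [hgoal]
  have hexp : (h + 2 + 2 * L ^ 2) * (L / (2 * Real.pi) + 2 * C) =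
      h * (L / (2 * Real.pi)) + 2 * C * h + (2 + 2 * L ^ 2) * (L / (2 * Real.pi) + 2 * C) := by ring
  linarith

end Pool.Agent.Helper76.EW
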