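import Pool.Agent.Helper76.EW.Base
import Pool.Agent.Helper76.LW.Step

set_option autoImplicit false

/-!
# Upper bounds for quotients of the basic function
-/

namespace Pool.Agent.Helper76.EW

open Complex Filter Topology Set MeasureTheory
open scoped ComplexConjugate ContDiff
open Pool.Agent.Helper76.LW

variable {a y : ℝ} {P F : ℂ → ℂ} {K : Finset ℤ} {ι : Type*} {u : ι → ℂ} {m : ι → ℝ}

lemma near_dist (ha : 0 < a) (t : ℝ) : |t - el a y (near a y t)| ≤ Real.pi / (2 * a) := by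
  set x := (t - y) * (a / Real.pi) - 1 / 2 with hx
  have h1 : |x - near a y t| ≤ 1 / 2 := by
    have := abs_sub_round x
    unfold near
    rw [← hx]
    exact this
  have e : t - el a y (near a y t) = Real.pi / a * (x - near a y t) := by
    unfold el
    rw [hx]
    field_simp
    ring
  have hpa : 0 < Real.pi / a := by positivity
  rw [e, abs_mul, abs_of_pos hpa]
  calc Real.pi / a * |x - near a y t| ≤ Real.pi / a * (1 / 2) := by gcongr
    _ = _ := by
      field_simp

/-- distance from the zeros other than the nearest one -/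
lemma dist_lam (ha : 0 < a) {z : ℂ} {k : ℤ} (hk : k ≠ near a y z.im) :
    Real.pi / (2 * a) * |((k - near a y z.im : ℤ) : ℝ)| ≤ ‖z - lam a y k‖ := by
  refine (near_spec ha z.im k hk).trans ?_
  have := Complex.abs_im_le_norm (z - lam a y k)
  rw [Complex.sub_im, lam_im] at this
  exact this

lemma ne_lam (ha : 0 < a) {z : ℂ} {k : ℤ} (hk : k ≠ near a y z.im) : 0 < ‖z - lam a y k‖ := by
  refine lt_of_lt_of_le ?_ (dist_lam ha hk)
  have h2 : (1 : ℝ) ≤ |((k - near a y z.im : ℤ) : ℝ)| := by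
    have : 1 ≤ |k - near a y z.im| := Int.one_le_abs (sub_ne_zero.mpr hk)
    exact_mod_cast this
  have : 0 < Real.pi / (2 * a) := by positivity
  positivity

/-- the basic upper bound -/
lemma upper_bound (ha : 0 < a) (hF : Continuous F) (hP : Continuous P)
    (h : ∀ z, (∏ k ∈ K, (z - lam a y k)) * F z = cc a y z * P z) (k1 : ℤ) {z : ℂ} (hz : |z.re| < 1 / 2) :
    ‖F z‖ * ∏ k ∈ K.erase k1, ‖z - lam a y k‖ ≤ 2 * (a + 1) * Real.exp (a / 2) * ‖P z‖ := by
  have he : 0 < Real.exp (a / 2) := Real.exp_pos _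
  by_cases hk : k1 ∈ K
  · have key : ∀ w : ℂ, |w.re| ≤ 1 / 2 → w ≠ lam a y k1 →
        ‖F w‖ * ∏ k ∈ K.erase k1, ‖w - lam a y k‖ ≤ 2 * (a + 1) * Real.exp (a / 2) * ‖P w‖ := by
      intro w hw hne
      have h1 := congrArg norm (h w)
      rw [← Finset.mul_prod_erase K _ hk, norm_mul, norm_mul, norm_mul, norm_prod] at h1
      have h2 := norm_cc_le_mul (y := y) ha k1 hw
      have h3 : 0 < ‖w - lam a y k1‖ := norm_pos_iff.mpr (sub_ne_zero.mpr hne)
      have h4 : ‖w - lam a y k1‖ * (‖F w‖ * ∏ k ∈ K.erase k1, ‖w - lam a y k‖) ≤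
          ‖w - lam a y k1‖ * (2 * (a + 1) * Real.exp (a / 2) * ‖P w‖) := by
        calc ‖w - lam a y k1‖ * (‖F w‖ * ∏ k ∈ K.erase k1, ‖w - lam a y k‖) = ‖cc a y w‖ * ‖P w‖ := by
              rw [← h1]
              ring
          _ ≤ (2 * a * Real.exp (a / 2) * ‖w - lam a y k1‖) * ‖P w‖ := by gcongr
          _ = ‖w - lam a y k1‖ * (2 * a * Real.exp (a / 2) * ‖P w‖) := by ring
          _ ≤ _ := by
              gcongr
              linarith
      exact le_of_mul_le_mul_left h4 h3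
    by_cases hne : z = lam a y k1
    · have hL : Tendsto (fun s : ℝ => ‖F (z + s)‖ * ∏ k ∈ K.erase k1, ‖(z + s) - lam a y k‖) (𝓝[>] 0)
          (𝓝 (‖F z‖ * ∏ k ∈ K.erase k1, ‖z - lam a y k‖)) := by
        have hc : Continuous (fun s : ℝ => ‖F (z + s)‖ * ∏ k ∈ K.erase k1, ‖(z + s) - lam a y k‖) := by
          refine Continuous.mul (hF.comp (by fun_prop)).norm ?_
          refine continuous_finsetProd _ fun k _ => by fun_prop
        have := hc.tendsto 0
        simp only [Complex.ofReal_zero, add_zero] at this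
        exact this.mono_left nhdsWithin_le_nhds
      have hR : Tendsto (fun s : ℝ => 2 * (a + 1) * Real.exp (a / 2) * ‖P (z + s)‖) (𝓝[>] 0)
          (𝓝 (2 * (a + 1) * Real.exp (a / 2) * ‖P z‖)) := by
        have hc : Continuous (fun s : ℝ => 2 * (a + 1) * Real.exp (a / 2) * ‖P (z + s)‖) := by
          refine Continuous.mul continuous_const (hP.comp (by fun_prop)).norm
        have := hc.tendsto 0
        simp only [Complex.ofReal_zero, add_zero] at this
        exact this.mono_left nhdsWithin_le_nhds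
      refine le_of_tendsto_of_tendsto hL hR ?_
      have hpos : (0 : ℝ) < 1 / 2 := by norm_num
      filter_upwards [Ioo_mem_nhdsGT hpos] with s hs
      apply key
      · rw [hne]
        simp only [Complex.add_re, lam_re, Complex.ofReal_re, zero_add]
        rw [abs_of_pos hs.1]
        exact hs.2.le
      · rw [hne]
        intro h5
        have h6 : (s : ℂ) = 0 := by linear_combination h5
        have h7 : s = 0 := by exact_mod_cast h6
        exact hs.1.ne' h7
    · exact key z hz.le hne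
  · rw [Finset.erase_eq_of_notMem hk]
    have h1 := congrArg norm (h z)
    rw [norm_mul, norm_mul, norm_prod] at h1
    rw [mul_comm, h1]
    have h2 := norm_cc_le (y := y) ha hz.le
    calc ‖cc a y z‖ * ‖P z‖ ≤ Real.exp (a / 2) * ‖P z‖ := by gcongr
      _ ≤ _ := by
        have : Real.exp (a / 2) ≤ 2 * (a + 1) * Real.exp (a / 2) := by nlinarith
        gcongr

lemma re_norm_le {w : ℂ} {h : ℝ} (k : ℤ) (hw : |w.re| < 1 / 2)
    (hk : |w.im - el a y k| ≤ h) : ‖lam a y k - w‖ ≤ h + 1 := by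
  refine (Complex.norm_le_abs_re_add_abs_im _).trans ?_
  rw [Complex.sub_re, Complex.sub_im, lam_re, lam_im, zero_sub, abs_neg, abs_sub_comm]
  linarith

/-- products over matched points, from above -/
lemma matched_upper (ha : 0 < a) {h : ℝ} (hh : 0 ≤ h) (S : Finset ι) (κ : ι → ℤ) (hinj : Set.InjOn κ S)
    (hm : ∀ i ∈ S, |(u i).im - el a y (κ i)| ≤ h) (hre : ∀ i, |(u i).re| < 1 / 2) {v : ℂ} {n : ℕ}
    (hn : S.card ≤ n) (hn1 : 1 ≤ n) :
    ∏ i ∈ S.filter (fun i => κ i ≠ near a y v.im), ‖v - u i‖ ≤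
      Real.exp ((h + 1) * (2 * a / Real.pi) * (3 + 2 * Real.log n)) *
        ∏ i ∈ S.filter (fun i => κ i ≠ near a y v.im), ‖v - lam a y (κ i)‖ := by
  classical
  set X := (h + 1) * (2 * a / Real.pi) with hX
  have hX0 : 0 ≤ X := by positivity
  set k1 := near a y v.im with hk1
  set S' := S.filter (fun i => κ i ≠ k1) with hS'
  have h1 : ∀ i ∈ S', ‖v - u i‖ ≤ Real.exp (X * (1 / |((κ i - k1 : ℤ) : ℝ)|)) * ‖v - lam a y (κ i)‖ := by
    intro i hi
    rw [hS', Finset.mem_filter] at hi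
    have e1 := dist_lam ha hi.2
    rw [← hk1] at e1
    have e2 : (1 : ℝ) ≤ |((κ i - k1 : ℤ) : ℝ)| := by
      have : 1 ≤ |κ i - k1| := Int.one_le_abs (sub_ne_zero.mpr hi.2)
      exact_mod_cast this
    have e3 : ‖lam a y (κ i) - u i‖ ≤ h + 1 :=
      re_norm_le (κ i) (hre i) (hm i hi.1)
    have e4 : ‖v - u i‖ ≤ ‖v - lam a y (κ i)‖ + (h + 1) := by
      calc ‖v - u i‖ = ‖(v - lam a y (κ i)) + (lam a y (κ i) - u i)‖ := by ring_nf
        _ ≤ _ := (norm_add_le _ _).trans (by gcongr)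
    have e5 : h + 1 ≤ X * (1 / |((κ i - k1 : ℤ) : ℝ)|) * ‖v - lam a y (κ i)‖ := by
      calc h + 1 = X * (1 / |((κ i - k1 : ℤ) : ℝ)|) * (Real.pi / (2 * a) * |((κ i - k1 : ℤ) : ℝ)|) := by
            rw [hX]
            have : |((κ i - k1 : ℤ) : ℝ)| ≠ 0 := by positivity
            field_simp
        _ ≤ _ := by gcongr
    have e6 := Real.add_one_le_exp (X * (1 / |((κ i - k1 : ℤ) : ℝ)|))
    calc ‖v - u i‖ ≤ (X * (1 / |((κ i - k1 : ℤ) : ℝ)|) + 1) * ‖v - lam a y (κ i)‖ := by linarith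
      _ ≤ _ := by gcongr
  refine (Finset.prod_le_prod (fun i _ => norm_nonneg _) h1).trans ?_
  rw [Finset.prod_mul_distrib, ← Real.exp_sum, ← Finset.mul_sum]
  have h2 : ∑ i ∈ S', 1 / |((κ i - k1 : ℤ) : ℝ)| ≤ 3 + 2 * Real.log n := by
    have hinj' : Set.InjOn (fun i => κ i - k1) S' := by
      intro i hi j hj hij
      rw [Finset.mem_coe, hS', Finset.mem_filter] at hi hj
      exact hinj (Finset.mem_coe.mpr hi.1) (Finset.mem_coe.mpr hj.1) (by simpa using hij)
    have h3 := sum_inv_abs_le (S'.image fun i => κ i - k1) (by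
      intro h0
      rw [Finset.mem_image] at h0
      obtain ⟨i, hi, hi0⟩ := h0
      rw [hS', Finset.mem_filter] at hi
      exact hi.2 (sub_eq_zero.mp hi0)) (n := n) (Finset.card_image_le.trans ((Finset.card_filter_le _ _).trans hn)) hn1
    rwa [Finset.sum_image hinj'] at h3
  have h4 : 0 ≤ ∏ i ∈ S', ‖v - lam a y (κ i)‖ := Finset.prod_nonneg fun i _ => norm_nonneg _
  gcongr

/-- products over matched points, from below -/
lemma matched_lower (C : Cf u m) {T b ro h : ℝ} (huc : UC u T b) (hb : 0 ≤ b) (hT : 2 ≤ T) (hy : |y| ≤ T) (hro : 0 < ro)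
    (hh : 0 ≤ h) (S : Finset ι) (κ : ι → ℤ)
    (hm : ∀ i ∈ S, |(u i).im - el a y (κ i)| ≤ h) (q : ℂ)
    (hS : ∀ i ∈ S, |(u i).im| ≤ 16 * T ∧ ro ≤ ‖q - u i‖ ∧ |(u i).im - y| ≤ ‖q - u i‖) :
    ∏ i ∈ S, ‖q - lam a y (κ i)‖ ≤
      Real.exp (4 * b * (Real.log (1 + (h + 1) / ro) + (h + 1) * (1 + Real.log (17 * T)))) *
        ∏ i ∈ S, ‖q - u i‖ := by
  classical
  set g : ℕ → ℝ := fun n => if n = 0 then Real.log (1 + (h + 1) / ro) else (h + 1) / n with hg
  have hl0 : 0 ≤ Real.log (1 + (h + 1) / ro) := Real.log_nonneg (by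
    have : 0 ≤ (h + 1) / ro := by positivity
    linarith)
  have hg0 : ∀ n, 0 ≤ g n := by
    intro n
    simp only [hg]
    split_ifs
    · exact hl0
    · positivity
  have hsum := huc.sum_le hb y (fun i => Real.log (1 + (h + 1) / ‖q - u i‖)) g hg0 S (⌊17 * T⌋₊ + 1)
    (fun i hi => by
      obtain ⟨h1, h2, h3⟩ := hS i hi
      refine ⟨h1, ?_, ?_⟩
      · apply Nat.lt_succ_of_le
        apply Nat.floor_le_floor
        calc |(u i).im - y| ≤ |(u i).im| + |y| := abs_sub _ _
          _ ≤ 17 * T := by linarith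
      · have hd : 0 < ‖q - u i‖ := lt_of_lt_of_le hro h2
        simp only [hg]
        split_ifs with h0
        · apply Real.log_le_log (by positivity)
          gcongr
        · have hn : 0 < ⌊|(u i).im - y|⌋₊ := Nat.pos_of_ne_zero h0
          have hn' : (0:ℝ) < ⌊|(u i).im - y|⌋₊ := by exact_mod_cast hn
          have h4 := Nat.floor_le (abs_nonneg ((u i).im - y))
          have h5 : Real.log (1 + (h + 1) / ‖q - u i‖) ≤ (h + 1) / ‖q - u i‖ := by
            have := Real.log_le_sub_one_of_pos (show 0 < 1 + (h + 1) / ‖q - u i‖ by positivity)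
            linarith
          refine h5.trans ?_
          gcongr
          linarith)
  have h2 : ∑ n ∈ Finset.range (⌊17 * T⌋₊ + 1), g n ≤
      Real.log (1 + (h + 1) / ro) + (h + 1) * (1 + Real.log (17 * T)) := by
    rw [Finset.sum_range_succ']
    have e0 : g 0 = Real.log (1 + (h + 1) / ro) := by simp [hg]
    have e1 : ∑ n ∈ Finset.range ⌊17 * T⌋₊, g (n + 1) = (h + 1) * ∑ n ∈ Finset.range ⌊17 * T⌋₊, ((n + 1 : ℕ) : ℝ)⁻¹ := by
      rw [Finset.mul_sum]
      refine Finset.sum_congr rfl fun n _ => ?_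
      simp only [hg, Nat.succ_ne_zero, if_false]
      rw [div_eq_mul_inv]
    have e2 : ∑ n ∈ Finset.range ⌊17 * T⌋₊, ((n + 1 : ℕ) : ℝ)⁻¹ ≤ 1 + Real.log (17 * T) := by
      have h5 := harmonic_le_one_add_log ⌊17 * T⌋₊
      unfold harmonic at h5
      push_cast at h5
      push_cast
      refine h5.trans ?_
      have h6 : (0 : ℝ) < ⌊17 * T⌋₊ := by
        have : 1 ≤ ⌊17 * T⌋₊ := Nat.le_floor (by push_cast; linarith)
        exact_mod_cast this
      have h7 := Real.log_le_log h6 (Nat.floor_le (show 0 ≤ 17 * T by linarith))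
      linarith
    rw [e0, e1]
    have : (h + 1) * ∑ n ∈ Finset.range ⌊17 * T⌋₊, ((n + 1 : ℕ) : ℝ)⁻¹ ≤ (h + 1) * (1 + Real.log (17 * T)) := by
      gcongr
    linarith
  have h3 : ∑ i ∈ S, Real.log (1 + (h + 1) / ‖q - u i‖) ≤
      4 * b * (Real.log (1 + (h + 1) / ro) + (h + 1) * (1 + Real.log (17 * T))) :=
    hsum.trans (by gcongr)
  have h4 : ∀ i ∈ S, ‖q - lam a y (κ i)‖ ≤ Real.exp (Real.log (1 + (h + 1) / ‖q - u i‖)) * ‖q - u i‖ := by
    intro i hi
    have hd : 0 < ‖q - u i‖ := lt_of_lt_of_le hro (hS i hi).2.1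
    rw [Real.exp_log (by positivity)]
    have e3 : ‖lam a y (κ i) - u i‖ ≤ h + 1 :=
      re_norm_le (κ i) (C.re_lt i) (hm i hi)
    have e4 : ‖q - lam a y (κ i)‖ ≤ ‖q - u i‖ + (h + 1) := by
      calc ‖q - lam a y (κ i)‖ = ‖(q - u i) - (lam a y (κ i) - u i)‖ := by ring_nf
        _ ≤ _ := (norm_sub_le _ _).trans (by gcongr)
    refine e4.trans (le_of_eq ?_)
    field_simp
  refine (Finset.prod_le_prod (fun i _ => norm_nonneg _) h4).trans ?_
  rw [Finset.prod_mul_distrib, ← Real.exp_sum]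
  have h5 : 0 ≤ ∏ i ∈ S, ‖q - u i‖ := Finset.prod_nonneg fun i _ => norm_nonneg _
  gcongr

end Pool.Agent.Helper76.EW
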